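import Mathlib

/-!
# Algebraically closed subfields generated by independent elements
-/

set_option autoImplicit false

namespace Pool.Agent.X269.KP

open Polynomial

variable (E : Type) {K ι : Type} [Field E] [Field K] [Algebra E K]

/-- The field of the elements which are algebraic over the field generated by the `x j`, `j ∈ s`. -/
noncomputable def LF (x : ι → K) (s : Set ι) : Subfield K :=
  (algebraicClosure (IntermediateField.adjoin E (x '' s)) K).toSubfield

variable {E} {x : ι → K} {s : Set ι}

lemma mem_LF {t : K} : t ∈ LF E x s ↔ IsAlgebraic (IntermediateField.adjoin E (x '' s)) t :=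
  mem_algebraicClosure_iff

lemma algebraMap_mem_LF (e : E) : algebraMap E K e ∈ LF E x s := by
  rw [mem_LF]
  have h1 : algebraMap E K e =
      algebraMap (IntermediateField.adjoin E (x '' s)) K (algebraMap E _ e) := rfl
  rw [h1]
  exact isAlgebraic_algebraMap _

lemma self_mem_LF {j : ι} (hj : j ∈ s) : x j ∈ LF E x s := by
  rw [mem_LF]
  have h1 : x j ∈ IntermediateField.adjoin E (x '' s) :=
    IntermediateField.subset_adjoin _ _ ⟨j, hj, rfl⟩
  have h2 : x j = algebraMap (IntermediateField.adjoin E (x '' s)) K ⟨x j, h1⟩ := rfl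
  rw [h2]
  exact isAlgebraic_algebraMap _

lemma LF_alg {t : K} (ht : IsAlgebraic (LF E x s) t) : t ∈ LF E x s := by
  have h1 : IsAlgebraic (algebraicClosure (IntermediateField.adjoin E (x '' s)) K) t := ht
  rw [mem_LF]
  exact h1.restrictScalars _

lemma notMem_LF (hx : AlgebraicIndependent E x) {i : ι} (hi : i ∉ s) : x i ∉ LF E x s := by
  rw [mem_LF, IntermediateField.isAlgebraic_adjoin_iff]
  exact hx.transcendental_adjoin hi

lemma trans_iff {t : K} : Transcendental (LF E x s) t ↔ t ∉ LF E x s := by
  constructor
  · intro h h1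
    exact h (isAlgebraic_algebraMap (⟨t, h1⟩ : LF E x s))
  · intro h h1
    exact h (LF_alg h1)

/-- A root of a nonzero polynomial with algebraic coefficients is algebraic. -/
lemma root_mem_LF {t : K} (f : (LF E x s)[X]) (hf : f ≠ 0) (h : aeval t f = 0) : t ∈ LF E x s :=
  LF_alg ⟨f, hf, h⟩

end Pool.Agent.X269.KP
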