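import Pool.Agent.X269.KP.Prod

/-!
# Regularity of the local rings, and the centre
-/

set_option autoImplicit false

namespace Pool.Agent.X269.KP

open IsLocalRing Pool.Agent.Y223.INV Pool.Agent.W418.LU2 Pool.Agent.TH188.QS
  Pool.Agent.H918R2.Quad Pool.Agent.TH188.ARC Polynomial

variable {O K : Type} [CommRing O] [Field K] [Algebra O K]

/-- Units of the valuation ring. -/
lemma nu_iff {W : ValuationSubring K} {x : K} : ¬ NU W.toSubring x ↔ (x ≠ 0 ∧ x⁻¹ ∈ W) := by
  rw [NU, not_not]
  rfl

/-- The prime of the base below the valuation ring. -/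
noncomputable def pr (O : Type) {K : Type} [CommRing O] [Field K] [Algebra O K] (W : ValuationSubring K)
    (hOW : ∀ o, algebraMap O K o ∈ W) : Ideal O :=
  (maximalIdeal W).comap ((algebraMap O K).codRestrict W.toSubring hOW)

lemma pr_prime (W : ValuationSubring K) (hOW : ∀ o, algebraMap O K o ∈ W) :
    (pr O W hOW).IsPrime := by
  unfold pr
  infer_instance

lemma mem_pr {W : ValuationSubring K} {hOW : ∀ o, algebraMap O K o ∈ W} {o : O} :
    o ∈ pr O W hOW ↔ NU W.toSubring (algebraMap O K o) := by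
  unfold pr
  rw [Ideal.mem_comap, mem_maximalIdeal, mem_nonunits_iff, NU, not_iff_not]
  constructor
  · intro h
    obtain ⟨y, hy⟩ := isUnit_iff_exists_inv.1 h
    have h2 : algebraMap O K o * (y : K) = 1 := congrArg Subtype.val hy
    refine ⟨left_ne_zero_of_mul_eq_one h2, ?_⟩
    rw [← eq_inv_of_mul_eq_one_right h2]
    exact y.2
  · rintro ⟨h2, h3⟩
    exact isUnit_iff_exists_inv.2 ⟨⟨_, h3⟩, Subtype.ext (mul_inv_cancel₀ h2)⟩

/-- The local ring of the base is regular, and the elements of the base which are not in the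
square of the prime are parameters. -/
theorem base_reg [IsDedekindDomain O] (hO : Function.Injective (algebraMap O K))
    (W : ValuationSubring K) (hOW : ∀ o, algebraMap O K o ∈ W) :
    IsRegularLocalRing (lo W.toSubring (algebraMap O K).range) ∧
      ∀ c : O, c ∈ pr O W hOW → c ∉ pr O W hOW ^ 2 →
        RegP W.toSubring (lo W.toSubring (algebraMap O K).range) (fun _ : Unit => algebraMap O K c) := by
  classical
  set S : Subring K := (algebraMap O K).range with hS
  have hSW : S ≤ W.toSubring := by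
    rintro _ ⟨o, rfl⟩
    exact hOW o
  set P := lo W.toSubring S with hP
  have hSP : S ≤ P := le_lo _ S
  let _ : Algebra O P := ((algebraMap O K).codRestrict P fun o => hSP ⟨o, rfl⟩).toAlgebra
  have halg : ∀ a : O, ((algebraMap O P a : P) : K) = algebraMap O K a := fun a => rfl
  have hloc : IsLocalRing P := isLocalRing_lo (loc_V W) hSW
  set 𝔭 := pr O W hOW with h𝔭
  have hprime : 𝔭.IsPrime := pr_prime W hOW
  have hu : ∀ a : O, a ∉ 𝔭 ↔ IsUnit (algebraMap O P a) := by
    intro a
    rw [h𝔭, mem_pr, isUnit_lo_iff hSW, halg, NU, not_not]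
  have hL : IsLocalization.AtPrime P 𝔭 :=
    { map_units := fun y => (hu y.1).1 y.2
      surj := by
        rintro ⟨z, a, ⟨a', rfl⟩, b, ⟨b', rfl⟩, hb0, hbW, rfl⟩
        refine ⟨(a', ⟨b', ?_⟩), ?_⟩
        · change b' ∉ 𝔭
          rw [hu, isUnit_lo_iff hSW]
          exact ⟨hb0, hbW⟩
        · apply Subtype.ext
          change algebraMap O K a' * (algebraMap O K b')⁻¹ * algebraMap O K b' = algebraMap O K a'
          rw [mul_assoc, inv_mul_cancel₀ hb0, mul_one]
      exists_of_eq := by
        intro a b h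
        refine ⟨1, ?_⟩
        have h1 : a = b := hO (congrArg (Subtype.val : P → K) h)
        rw [h1] }
  have hD : IsDedekindDomain P := IsLocalization.AtPrime.isDedekindDomain O 𝔭 P
  have hPID : IsPrincipalIdealRing P := by
    apply IsPrincipalIdealRing.of_finite_maximals
    refine (Set.finite_singleton (maximalIdeal P)).subset ?_
    intro I hI
    exact eq_maximalIdeal hI
  have hreg : IsRegularLocalRing P := inferInstance
  refine ⟨hreg, fun c hc hc2 => ?_⟩
  have hc0 : c ≠ 0 := by
    rintro rfl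
    exact hc2 (Ideal.zero_mem _)
  have hcm : algebraMap O P c ∈ maximalIdeal P := by
    rw [mem_maximalIdeal, mem_nonunits_iff, ← hu, not_not]
    exact hc
  have hc2' : algebraMap O P c ∉ maximalIdeal P ^ 2 := by
    intro h
    rw [← IsLocalization.AtPrime.map_eq_maximalIdeal 𝔭 P, ← Ideal.map_pow,
      IsLocalization.mem_map_algebraMap_iff 𝔭.primeCompl] at h
    obtain ⟨⟨a, s⟩, h⟩ := h
    have h1 : c * (s : O) = a := hO (by
      have h2 := congrArg (Subtype.val : P → K) h
      rw [map_mul]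
      exact h2)
    have h3 : (s : O) * c ∈ 𝔭 ^ 2 := by
      rw [mul_comm, h1]
      exact a.2
    rcases Ideal.IsPrime.mul_mem_pow 𝔭 h3 with h4 | h4
    · exact s.2 h4
    · exact hc2 h4
  have hind : Ind (fun _ : Unit => algebraMap O P c) := by
    refine ⟨fun _ => hcm, fun c' hc' i => ?_⟩
    by_contra hi
    have hu' : IsUnit (c' i) := by
      by_contra h
      exact hi ((mem_maximalIdeal _).2 h)
    apply hc2'
    rw [Fintype.sum_unique] at hc'
    obtain ⟨v, hv⟩ := hu'
    have hdef : (default : Unit) = i := rfl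
    rw [hdef, ← hv] at hc'
    have h1 := Ideal.mul_mem_left (maximalIdeal P ^ 2) (↑v⁻¹ : P) hc'
    rwa [Units.inv_mul_cancel_left] at h1
  exact
    { PA := lo_le hSW
      ne := fun _ h => hc0 (hO (by rw [h, map_zero]))
      mem := fun _ => hSP ⟨c, rfl⟩
      reg := hreg
      inv := fun z hz h0 h1 => inv_mem_lo hSW hz h0 h1
      ind := IndN.of_ind id Function.injective_id (fun i _ => ⟨i, rfl⟩) hind }

/-- An unramified prime. -/
theorem unram [IsDedekindDomain O] {W : ValuationSubring K}
    (hOW : ∀ o, algebraMap O K o ∈ W)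
    (hun : ∀ 𝔭 : Ideal O, 𝔭.IsPrime → (2 : O) ∈ 𝔭 → (2 : O) ∉ 𝔭 ^ 2)
    (h2 : NU W.toSubring (2 : K)) (o : O) (ho : NU W.toSubring (algebraMap O K o)) :
    ∃ s r : O, s * o = 2 * r ∧ algebraMap O K s ≠ 0 ∧ (algebraMap O K s)⁻¹ ∈ W := by
  set 𝔭 := pr O W hOW with h𝔭
  have hprime : 𝔭.IsPrime := pr_prime W hOW
  have h2p : (2 : O) ∈ 𝔭 := by
    rw [h𝔭, mem_pr, map_ofNat]
    exact h2
  have hop : o ∈ 𝔭 := by
    rw [h𝔭, mem_pr]
    exact ho
  have hdvd : 𝔭 ∣ Ideal.span {(2 : O)} := by
    rw [Ideal.dvd_iff_le, Ideal.span_singleton_le_iff_mem]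
    exact h2p
  obtain ⟨J, hJ⟩ := hdvd
  have hJ' : ¬ J ≤ 𝔭 := by
    intro h
    apply hun 𝔭 hprime h2p
    rw [← Ideal.span_singleton_le_iff_mem, hJ, pow_two]
    exact Ideal.mul_mono_right h
  obtain ⟨s, hsJ, hs⟩ := SetLike.not_le_iff_exists.1 hJ'
  have h3 : s * o ∈ Ideal.span {(2 : O)} := by
    rw [hJ, mul_comm s o]
    exact Ideal.mul_mem_mul hop hsJ
  obtain ⟨r, hr⟩ := Ideal.mem_span_singleton'.1 h3
  refine ⟨s, r, by rw [← hr, mul_comm], ?_⟩
  rw [h𝔭, mem_pr, nu_iff] at hs
  exact hs

/-- Adjoining a transcendental element. -/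
theorem trans_step {W : ValuationSubring K} {S : Subring K} (hS : S ≤ W.toSubring)
    {κ : Type} [Fintype κ] {x : κ → K} (hreg : RegP W.toSubring (lo W.toSubring S) x)
    (L : Subfield K) (hSL : ∀ y ∈ S, y ∈ L) {t : K} (ht : t ∈ W) (htr : Transcendental L t) :
    RegP W.toSubring (lo W.toSubring (Subring.closure (insert t (S : Set K))))
      (Sum.elim x fun _ : Unit => t) := by
  have hlo : ∀ y ∈ lo W.toSubring S, y ∈ L := by
    rintro _ ⟨a, ha, b, hb, -, -, rfl⟩
    exact L.mul_mem (hSL a ha) (L.inv_mem (hSL b hb))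
  refine hreg.trans (loc_V W) hS ht ?_ ?_
  · rintro rfl
    exact htr (isAlgebraic_zero)
  · intro g hg
    let i : lo W.toSubring S →+* L := (lo W.toSubring S).subtype.codRestrict L.toSubring
      fun y => hlo y y.2
    have hi : Function.Injective i := by
      intro a b hab
      exact Subtype.ext (congrArg (fun z : L => (z : K)) hab)
    have h1 : aeval t (g.map i) = 0 := by
      rw [aeval_def, eval₂_map]
      exact hg
    have h2 := (transcendental_iff.1 htr) _ h1
    exact (Polynomial.map_eq_zero_iff hi).1 h2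

/-- The regular local ring without parameters. -/
lemma regP_empty {W : ValuationSubring K} {S : Subring K} (hS : S ≤ W.toSubring)
    (h : IsRegularLocalRing (lo W.toSubring S)) :
    RegP W.toSubring (lo W.toSubring S) (Empty.elim : Empty → K) where
  PA := lo_le hS
  ne := fun i => i.elim
  mem := fun i => i.elim
  reg := h
  inv := fun _ hz h0 h1 => inv_mem_lo hS hz h0 h1
  ind := by
    intro c hc hs l
    exact l.elim

theorem trans_reg {W : ValuationSubring K} {S : Subring K} (hS : S ≤ W.toSubring)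
    (hreg : IsRegularLocalRing (lo W.toSubring S))
    (L : Subfield K) (hSL : ∀ y ∈ S, y ∈ L) {t : K} (ht : t ∈ W) (htr : Transcendental L t) :
    IsRegularLocalRing (lo W.toSubring (Subring.closure (insert t (S : Set K)))) :=
  (trans_step hS (regP_empty hS hreg) L hSL ht htr).reg

/-- Comparison of generators. -/
lemma lo_closure_eq {W : ValuationSubring K} {D D' : Set K} (hD : D ⊆ W) (hD' : D' ⊆ W)
    (h1 : ∀ x ∈ D, x ∈ lo W.toSubring (Subring.closure D'))
    (h2 : ∀ x ∈ D', x ∈ lo W.toSubring (Subring.closure D)) :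
    lo W.toSubring (Subring.closure D) = lo W.toSubring (Subring.closure D') := by
  have e1 : Subring.closure D ≤ W.toSubring := Subring.closure_le.2 hD
  have e2 : Subring.closure D' ≤ W.toSubring := Subring.closure_le.2 hD'
  apply le_antisymm
  · exact lo_le_lo e2 (Subring.closure_le.2 h1)
  · exact lo_le_lo e1 (Subring.closure_le.2 h2)

/-- The maximal ideal is the ideal of the centre. -/
theorem cen_max {W : ValuationSubring K} {D : Set K} (hD : D ⊆ W)
    {Q : Subring K} (hQ : Q = lo W.toSubring (Subring.closure D)) [IsLocalRing Q]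
    (hOD : ∀ o, algebraMap O K o ∈ D) {𝔞 : Ideal Q} (h𝔞 : 𝔞 ≠ ⊤)
    (hun : ∀ o : O, NU W.toSubring (algebraMap O K o) → Im 𝔞 (algebraMap O K o))
    (hDa : ∀ x ∈ D, ∃ o : O, Im 𝔞 (x - algebraMap O K o)) : 𝔞 = maximalIdeal Q := by
  have hcW : Subring.closure D ≤ W.toSubring := Subring.closure_le.2 hD
  have hcQ : ∀ x ∈ Subring.closure D, x ∈ Q := by
    intro x hx
    rw [hQ]
    exact le_lo _ _ hx
  have hOQ : ∀ o, algebraMap O K o ∈ Q := fun o => hcQ _ (Subring.subset_closure (hOD o))
  have hQW : Q ≤ W.toSubring := by rw [hQ]; exact lo_le hcW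
  have hIC : IC W.toSubring Q := by rw [hQ]; exact ic_lo hcW
  have hmax : ∀ y : Q, y ∈ maximalIdeal Q ↔ NU W.toSubring (y : K) := mem_max_iff hQW hIC
  have key : ∀ x ∈ Subring.closure D, ∃ o : O, Im 𝔞 (x - algebraMap O K o) := by
    intro x hx
    induction hx using Subring.closure_induction with
    | mem x hx => exact hDa x hx
    | zero => exact ⟨0, by rw [map_zero, sub_zero]; exact Im.zero⟩
    | one => exact ⟨1, by rw [map_one, sub_self]; exact Im.zero⟩
    | add x y _ _ h1 h2 =>
      obtain ⟨a, ha⟩ := h1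
      obtain ⟨b, hb⟩ := h2
      exact ⟨a + b, by
        rw [map_add, show x + y - (algebraMap O K a + algebraMap O K b) =
          (x - algebraMap O K a) + (y - algebraMap O K b) by ring]
        exact ha.add hb⟩
    | neg x _ h1 =>
      obtain ⟨a, ha⟩ := h1
      exact ⟨-a, by
        rw [map_neg, show -x - -algebraMap O K a = -(x - algebraMap O K a) by ring]
        exact ha.neg⟩
    | mul x y hx hy h1 h2 =>
      obtain ⟨a, ha⟩ := h1
      obtain ⟨b, hb⟩ := h2
      refine ⟨a * b, ?_⟩
      rw [map_mul, show x * y - algebraMap O K a * algebraMap O K b =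
        x * (y - algebraMap O K b) + algebraMap O K b * (x - algebraMap O K a) by ring]
      exact (hb.mul_left (hcQ x hx)).add (ha.mul_left (hOQ b))
  apply le_antisymm (le_maximalIdeal h𝔞)
  intro y hy
  have hyQ := y.2
  have hy' : (y : K) ∈ lo W.toSubring (Subring.closure D) := hQ.le hyQ
  obtain ⟨a, ha, b, hb, hb0, hbW, hyab⟩ := hy'
  obtain ⟨o, ho⟩ := key a ha
  have hNU : NU W.toSubring (y : K) := (hmax y).1 hy
  have hbQ : b⁻¹ ∈ Q := hIC b (hcQ b hb) hb0 hbW
  have haN : NU W.toSubring a := by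
    have h1 : a = b * (y : K) := by
      rw [hyab]
      field_simp
    rw [h1]
    exact NU.mul (hcW hb) hNU
  -- `o` is not a unit
  have hoN : NU W.toSubring (algebraMap O K o) := by
    have h1 : (⟨a, hcQ a ha⟩ : Q) ∈ maximalIdeal Q := (hmax _).2 haN
    have h2 : (⟨a - algebraMap O K o, ho.mem⟩ : Q) ∈ maximalIdeal Q :=
      le_maximalIdeal h𝔞 (ho.mk _)
    have h3 := (maximalIdeal Q).sub_mem h1 h2
    have h4 := (hmax _).1 h3
    have h5 : (((⟨a, hcQ a ha⟩ : Q) - ⟨a - algebraMap O K o, ho.mem⟩ : Q) : K) =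
        algebraMap O K o := by
      change a - (a - algebraMap O K o) = _
      ring
    rwa [h5] at h4
  have h6 : Im 𝔞 a := by
    have h7 := ho.add (hun o hoN)
    rwa [sub_add_cancel] at h7
  have h8 : Im 𝔞 (y : K) := by
    rw [hyab]
    exact h6.mul_right hbQ
  exact h8.mk hyQ

end Pool.Agent.X269.KP
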