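import Pool.Agent.X269.KP.Base
import Pool.Agent.X269.KP.Alg

/-!
# Products of conics with the involutions `y ↦ a / y`
-/

set_option autoImplicit false

namespace Pool.Agent.X269.KP

open IsLocalRing Pool.Agent.Y223.INV Pool.Agent.W418.LU2 Pool.Agent.TH188.QS
  Pool.Agent.H918R2.Quad Pool.Agent.TH188.ARC Polynomial

section general

variable {O K : Type} [CommRing O] [Field K] [Algebra O K]

lemma closure_insert' (t : K) (X : Set K) :
    Subring.closure (insert t ((Subring.closure X : Subring K) : Set K)) =
      Subring.closure (insert t X) := by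
  apply le_antisymm
  · rw [Subring.closure_le]
    rintro y (rfl | hy)
    · exact Subring.subset_closure (Set.mem_insert _ _)
    · exact Subring.closure_mono (Set.subset_insert _ _) hy
  · exact Subring.closure_mono (Set.insert_subset_insert Subring.subset_closure)

/-- Adjoining independent elements. -/
theorem chain_reg {ι : Type} [DecidableEq ι] {W : ValuationSubring K} (B : Set K) (hB : B ⊆ W)
    (t : ι → K) (ht : ∀ i, t i ∈ W) (L : Finset ι → Subfield K)
    (hreg : IsRegularLocalRing (lo W.toSubring (Subring.closure B))) (J : Finset ι)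
    (hL : ∀ s ⊆ J, (∀ x ∈ B, x ∈ L s) ∧ ∀ i ∈ s, t i ∈ L s)
    (hT : ∀ s ⊆ J, ∀ i ∈ J, i ∉ s → Transcendental (L s) (t i)) :
    ∀ s ⊆ J, IsRegularLocalRing (lo W.toSubring (Subring.closure (B ∪ t '' s))) := by
  intro s
  induction s using Finset.induction_on with
  | empty =>
    intro _
    rw [Finset.coe_empty, Set.image_empty, Set.union_empty]
    exact hreg
  | insert i s hi ih =>
    intro hs
    have hs' : s ⊆ J := (Finset.subset_insert _ _).trans hs
    have h1 := ih hs'
    have h2 : Subring.closure (B ∪ t '' s) ≤ W.toSubring := by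
      rw [Subring.closure_le]
      rintro x (hx | ⟨j, -, rfl⟩)
      · exact hB hx
      · exact ht j
    have h3 := trans_reg h2 h1 (L s) (by
      intro y hy
      have h4 : Subring.closure (B ∪ t '' s) ≤ (L s).toSubring := by
        rw [Subring.closure_le]
        rintro x (hx | ⟨j, hj, rfl⟩)
        · exact (hL s hs').1 x hx
        · exact (hL s hs').2 j hj
      exact h4 hy) (ht i) (hT s hs' i (hs (Finset.mem_insert_self _ _)) hi)
    rw [closure_insert'] at h3
    have h5 : insert (t i) (B ∪ t '' s) = B ∪ t '' (insert i s : Finset ι) := by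
      rw [Finset.coe_insert, Set.image_insert_eq, Set.union_insert]
    rwa [h5] at h3

end general

section conic

variable {O K : Type} [CommRing O] [Field K] [Algebra O K] {ι : Type}

/-- The linear forms on the conic. -/
def CM (a : ι → O) (y : ι → K) (i : ι) : Submodule O K :=
  Submodule.span O {1, y i, algebraMap O K (a i) / y i}

/-- The linear forms which vanish at the fixed points modulo `2`. -/
def CN (a α : ι → O) (y : ι → K) (i : ι) : Submodule O K :=
  Submodule.span O {y i - algebraMap O K (α i),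
    algebraMap O K (a i) / y i - algebraMap O K (α i), 2}

variable {a α : ι → O} {y : ι → K}

lemma CM_ind {i : ι} {p : K → Prop} (h0 : p 0) (hadd : ∀ x z, p x → p z → p (x + z))
    (hsm : ∀ (r : O) x, p x → p (algebraMap O K r * x)) (h1 : p 1) (h2 : p (y i))
    (h3 : p (algebraMap O K (a i) / y i)) : ∀ x ∈ CM a y i, p x := by
  intro x hx
  induction hx using Submodule.span_induction with
  | mem x hx =>
    rcases hx with rfl | rfl | rfl
    · exact h1
    · exact h2
    · exact h3
  | zero => exact h0
  | add x z _ _ hx hz => exact hadd x z hx hz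
  | smul r x _ hx => rw [Algebra.smul_def]; exact hsm r x hx

lemma CN_ind {i : ι} {p : K → Prop} (h0 : p 0) (hadd : ∀ x z, p x → p z → p (x + z))
    (hsm : ∀ (r : O) x, p x → p (algebraMap O K r * x)) (h1 : p (y i - algebraMap O K (α i)))
    (h2 : p (algebraMap O K (a i) / y i - algebraMap O K (α i))) (h3 : p 2) :
    ∀ x ∈ CN a α y i, p x := by
  intro x hx
  induction hx using Submodule.span_induction with
  | mem x hx =>
    rcases hx with rfl | rfl | rfl
    · exact h1
    · exact h2
    · exact h3
  | zero => exact h0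
  | add x z _ _ hx hz => exact hadd x z hx hz
  | smul r x _ hx => rw [Algebra.smul_def]; exact hsm r x hx

lemma one_mem_CM (i : ι) : (1 : K) ∈ CM a y i := Submodule.subset_span (by simp)

lemma y_mem_CM (i : ι) : y i ∈ CM a y i := Submodule.subset_span (by simp)

lemma ay_mem_CM (i : ι) : algebraMap O K (a i) / y i ∈ CM a y i := Submodule.subset_span (by simp)

lemma o_mem_CM (i : ι) (o : O) : algebraMap O K o ∈ CM a y i := by
  have h := (CM a y i).smul_mem o (one_mem_CM i)
  rwa [Algebra.smul_def, mul_one] at h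

lemma CN_le (i : ι) : CN a α y i ≤ CM a y i := by
  rw [CN, Submodule.span_le]
  rintro x (rfl | rfl | rfl)
  · exact Submodule.sub_mem _ (y_mem_CM i) (o_mem_CM i _)
  · exact Submodule.sub_mem _ (ay_mem_CM i) (o_mem_CM i _)
  · have h := o_mem_CM (a := a) (y := y) i (2 : O)
    rwa [map_ofNat] at h

/-- The chart. -/
noncomputable def ch (a : ι → O) (y : ι → K) (W : ValuationSubring K) (i : ι) : K :=
  open Classical in
  if y i ∈ W then (if algebraMap O K (a i) / y i ∈ W then 1 else algebraMap O K (a i) / y i)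
    else y i

/-- The coordinate on the chart. -/
noncomputable def tc (a : ι → O) (y : ι → K) (W : ValuationSubring K) (i : ι) : K :=
  open Classical in
  if y i ∈ W then (if algebraMap O K (a i) / y i ∈ W then
    (if (y i)⁻¹ ∈ W then y i else algebraMap O K (a i) / y i)
    else y i / algebraMap O K (a i)) else (y i)⁻¹

variable {W : ValuationSubring K}

lemma inv_mem_of_not {x : K} (h : x ∉ W) : x⁻¹ ∈ W := (W.mem_or_inv_mem x).resolve_left h

lemma ne_zero_of_not {x : K} (h : x ∉ W) : x ≠ 0 := by
  rintro rfl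
  exact h W.zero_mem

lemma div_mem_of {T : Subring K} (hO : ∀ r, algebraMap O K r ∈ T) {i : ι} {c : K}
    (h1 : 1 / c ∈ T) (h2 : y i / c ∈ T) (h3 : algebraMap O K (a i) / y i / c ∈ T) :
    ∀ x ∈ CM a y i, x / c ∈ T := by
  refine CM_ind ?_ ?_ ?_ h1 h2 h3
  · rw [zero_div]; exact T.zero_mem
  · intro x z hx hz
    rw [add_div]; exact T.add_mem hx hz
  · intro r x hx
    rw [mul_div_assoc]; exact T.mul_mem (hO r) hx

/-- The properties of the chart. -/
lemma ch_spec (hOW : ∀ o, algebraMap O K o ∈ W) (i : ι) :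
    ch a y W i ∈ CM a y i ∧ ch a y W i ≠ 0 ∧ ∀ x ∈ CM a y i, x / ch a y W i ∈ W := by
  classical
  by_cases h1 : y i ∈ W
  · by_cases h3 : algebraMap O K (a i) / y i ∈ W
    · have hc : ch a y W i = 1 := by rw [ch, if_pos h1, if_pos h3]
      rw [hc]
      refine ⟨one_mem_CM i, one_ne_zero, div_mem_of (T := W.toSubring) hOW ?_ ?_ ?_⟩
      · rw [div_one]; exact W.one_mem
      · rw [div_one]; exact h1
      · rw [div_one]; exact h3
    · have hc : ch a y W i = algebraMap O K (a i) / y i := by rw [ch, if_pos h1, if_neg h3]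
      have h2 := inv_mem_of_not h3
      rw [hc]
      refine ⟨ay_mem_CM i, ne_zero_of_not h3, div_mem_of (T := W.toSubring) hOW ?_ ?_ ?_⟩
      · rw [one_div]; exact h2
      · rw [div_eq_mul_inv]
        exact W.mul_mem _ _ h1 h2
      · rw [div_self (ne_zero_of_not h3)]; exact W.one_mem
  · have hc : ch a y W i = y i := by rw [ch, if_neg h1]
    have h2 := inv_mem_of_not h1
    rw [hc]
    refine ⟨y_mem_CM i, ne_zero_of_not h1, div_mem_of (T := W.toSubring) hOW ?_ ?_ ?_⟩
    · rw [one_div]; exact h2
    · rw [div_self (ne_zero_of_not h1)]; exact W.one_mem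
    · rw [div_eq_mul_inv, div_eq_mul_inv]
      exact W.mul_mem _ _ (W.mul_mem _ _ (hOW _) h2) h2

lemma tc_mem (i : ι) : tc a y W i ∈ W := by
  classical
  rw [tc]
  split_ifs with h1 h2 h3
  · exact h1
  · exact h2
  · have h4 := inv_mem_of_not h2
    rwa [inv_div] at h4
  · exact inv_mem_of_not h1

lemma tc_notMem {L : Subfield K} (hL : ∀ o, algebraMap O K o ∈ L) {i : ι}
    (ha : algebraMap O K (a i) ≠ 0) (hy : y i ∉ L) : tc a y W i ∉ L := by
  classical
  have hy0 : y i ≠ 0 := fun h => hy (by rw [h]; exact L.zero_mem)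
  intro h
  apply hy
  rw [tc] at h
  split_ifs at h with h1 h2 h3
  · exact h
  · have h4 := L.mul_mem (hL (a i)) (L.inv_mem h)
    have h5 : algebraMap O K (a i) * (algebraMap O K (a i) / y i)⁻¹ = y i := by
      field_simp
    rwa [h5] at h4
  · have h4 := L.mul_mem h (hL (a i))
    rwa [div_mul_cancel₀ _ ha] at h4
  · have h4 := L.inv_mem h
    rwa [inv_inv] at h4

lemma tc_mem_L {L : Subfield K} (hL : ∀ o, algebraMap O K o ∈ L) {i : ι} (hy : y i ∈ L) :
    tc a y W i ∈ L := by
  classical
  rw [tc]
  split_ifs with h1 h2 h3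
  · exact hy
  · exact L.div_mem (hL _) hy
  · exact L.div_mem hy (hL _)
  · exact L.inv_mem hy

/-- A singular point of the conic modulo the prime. -/
def bad (a : ι → O) (y : ι → K) (W : ValuationSubring K) (i : ι) : Prop :=
  y i ∈ W ∧ algebraMap O K (a i) / y i ∈ W ∧ (y i)⁻¹ ∉ W ∧ (algebraMap O K (a i) / y i)⁻¹ ∉ W

/-- The generators of the chart. -/
lemma DS_sub {T : Set K} (hTW : T ⊆ (W : Set K)) (ha : ∀ i, algebraMap O K (a i) ≠ 0)
    (hy0 : ∀ i, y i ≠ 0) (hT1 : ∀ o, algebraMap O K o ∈ T)
    (hT2 : ∀ i, (¬ bad a y W i ∧ tc a y W i ∈ T) ∨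
      (bad a y W i ∧ y i ∈ T ∧ algebraMap O K (a i) / y i ∈ T)) :
    ∀ x ∈ DS (CM a y) (ch a y W), x ∈ lo W.toSubring (Subring.closure T) := by
  classical
  have hcW : Subring.closure T ≤ W.toSubring := Subring.closure_le.2 hTW
  set R := lo W.toSubring (Subring.closure T) with hR
  have hTR : ∀ x ∈ T, x ∈ R := fun x hx => le_lo _ _ (Subring.subset_closure hx)
  have hinv : ∀ x ∈ R, x ≠ 0 → x⁻¹ ∈ W → x⁻¹ ∈ R := fun x hx h0 h1 => inv_mem_lo hcW hx h0 h1
  have hOR : ∀ (r : O), algebraMap O K r ∈ R := fun r => hTR _ (hT1 r)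
  rintro x (⟨o, rfl⟩ | ⟨i, x, hx, rfl⟩)
  · exact hTR _ (hT1 o)
  have ha' := ha i
  have hy' := hy0 i
  by_cases h1 : y i ∈ W
  · by_cases h3 : algebraMap O K (a i) / y i ∈ W
    · have hc : ch a y W i = 1 := by rw [ch, if_pos h1, if_pos h3]
      have hboth : y i ∈ R ∧ algebraMap O K (a i) / y i ∈ R := by
        rcases hT2 i with h | h
        · have h5 := hTR _ h.2
          rw [tc, if_pos h1, if_pos h3] at h5
          split_ifs at h5 with h4
          · refine ⟨h5, ?_⟩
            rw [div_eq_mul_inv]
            exact R.mul_mem (hOR _) (hinv _ h5 (hy0 i) h4)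
          · refine ⟨?_, h5⟩
            by_cases h6 : (algebraMap O K (a i) / y i)⁻¹ ∈ W
            · have h7 := hinv _ h5 (div_ne_zero (ha i) (hy0 i)) h6
              have h8 : y i = algebraMap O K (a i) * (algebraMap O K (a i) / y i)⁻¹ := by
                field_simp
              rw [h8]
              exact R.mul_mem (hOR _) h7
            · exact absurd ⟨h1, h3, h4, h6⟩ h.1
        · exact ⟨hTR _ h.2.1, hTR _ h.2.2⟩
      rw [hc]
      refine div_mem_of hOR ?_ ?_ ?_ x hx
      · rw [div_one]; exact R.one_mem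
      · rw [div_one]; exact hboth.1
      · rw [div_one]; exact hboth.2
    · have hc : ch a y W i = algebraMap O K (a i) / y i := by rw [ch, if_pos h1, if_neg h3]
      have ht : tc a y W i = y i / algebraMap O K (a i) := by
        rw [tc, if_pos h1, if_neg h3]
      have h2 : y i / algebraMap O K (a i) ∈ R := by
        rcases hT2 i with h | h
        · rw [← ht]; exact hTR _ h.2
        · exact absurd h.1.2.1 h3
      rw [hc]
      refine div_mem_of hOR ?_ ?_ ?_ x hx
      · rw [one_div_div]; exact h2
      · have h4 : y i / (algebraMap O K (a i) / y i) = algebraMap O K (a i) *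
            ((y i / algebraMap O K (a i)) * (y i / algebraMap O K (a i))) := by
          field_simp
        rw [h4]
        exact R.mul_mem (hOR _) (R.mul_mem h2 h2)
      · rw [div_self (div_ne_zero (ha i) (hy0 i))]; exact R.one_mem
  · have hc : ch a y W i = y i := by rw [ch, if_neg h1]
    have ht : tc a y W i = (y i)⁻¹ := by rw [tc, if_neg h1]
    have h2 : (y i)⁻¹ ∈ R := by
      rcases hT2 i with h | h
      · rw [← ht]; exact hTR _ h.2
      · exact absurd h.1.1 h1
    rw [hc]
    refine div_mem_of hOR ?_ ?_ ?_ x hx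
    · rw [one_div]; exact h2
    · rw [div_self (hy0 i)]; exact R.one_mem
    · rw [div_eq_mul_inv, div_eq_mul_inv]
      exact R.mul_mem (R.mul_mem (hOR _) h2) h2

/-- The coordinates are in the chart. -/
lemma sub_DS (i : ι) : tc a y W i ∈ DS (CM a y) (ch a y W) ∧
    (bad a y W i → y i ∈ DS (CM a y) (ch a y W) ∧
      algebraMap O K (a i) / y i ∈ DS (CM a y) (ch a y W)) := by
  classical
  have hmem : ∀ x ∈ CM a y i, x / ch a y W i ∈ DS (CM a y) (ch a y W) := fun x hx =>
    Or.inr ⟨i, x, hx, rfl⟩
  constructor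
  · rw [tc]
    split_ifs with h1 h2 h3
    · have hc : ch a y W i = 1 := by rw [ch, if_pos h1, if_pos h2]
      have h4 := hmem _ (y_mem_CM i)
      rwa [hc, div_one] at h4
    · have hc : ch a y W i = 1 := by rw [ch, if_pos h1, if_pos h2]
      have h4 := hmem _ (ay_mem_CM i)
      rwa [hc, div_one] at h4
    · have hc : ch a y W i = algebraMap O K (a i) / y i := by rw [ch, if_pos h1, if_neg h2]
      have h4 := hmem _ (one_mem_CM i)
      rwa [hc, one_div_div] at h4
    · have hc : ch a y W i = y i := by rw [ch, if_neg h1]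
      have h4 := hmem _ (one_mem_CM i)
      rwa [hc, one_div] at h4
  · rintro ⟨h1, h2, -, -⟩
    have hc : ch a y W i = 1 := by rw [ch, if_pos h1, if_pos h2]
    have h4 := hmem _ (y_mem_CM i)
    have h5 := hmem _ (ay_mem_CM i)
    rw [hc, div_one] at h4 h5
    exact ⟨h4, h5⟩

variable [DecidableEq ι] [Fintype ι]

/-- The product of the conics is regular. -/
theorem conic_reg {E : Type} [Field E] [Algebra E K] [Algebra O E] [IsScalarTower O E K]
    [IsDedekindDomain O] (hO : Function.Injective (algebraMap O K)) (hy : AlgebraicIndependent E y)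
    (hsq : ∀ i, ∀ 𝔭 : Ideal O, 𝔭.IsPrime → a i ∉ 𝔭 ^ 2)
    (hco : ∀ i j, i ≠ j → ∀ 𝔭 : Ideal O, 𝔭.IsPrime → a i ∈ 𝔭 → a j ∉ 𝔭)
    (hOW : ∀ o, algebraMap O K o ∈ W) :
    IsRegularLocalRing (lo W.toSubring (Subring.closure (DS (CM a y) (ch a y W)))) := by
  classical
  have ha0 : ∀ i, a i ≠ 0 := by
    intro i h
    refine hsq i ⊥ Ideal.isPrime_bot ?_
    rw [h]
    exact Ideal.zero_mem _
  have ha : ∀ i, algebraMap O K (a i) ≠ 0 := fun i h => ha0 i (hO (by rw [h, map_zero]))
  have hL : ∀ (s : Set ι) o, algebraMap O K o ∈ LF E y s := by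
    intro s o
    rw [IsScalarTower.algebraMap_apply O E K]
    exact algebraMap_mem_LF _
  have hy0 : ∀ i, y i ≠ 0 := by
    intro i h
    exact notMem_LF hy (Set.notMem_empty i) (by rw [h]; exact (LF E y ∅).zero_mem)
  have hrW : (Set.range (algebraMap O K)) ⊆ (W : Set K) := by
    rintro _ ⟨o, rfl⟩
    exact hOW o
  have htW : ∀ i, tc a y W i ∈ W := fun i => tc_mem i
  have hbase := base_reg hO W hOW
  have hcr : Subring.closure (Set.range (algebraMap O K)) = (algebraMap O K).range := by
    rw [← RingHom.coe_range]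
    exact Subring.closure_eq _
  have hbad : ∀ i, bad a y W i → a i ∈ pr O W hOW := by
    rintro i ⟨h1, h2, h3, h4⟩
    rw [mem_pr]
    rintro ⟨-, h5⟩
    apply h3
    have h6 : (y i)⁻¹ = (algebraMap O K (a i) / y i) * (algebraMap O K (a i))⁻¹ := by
      have := ha i
      field_simp
    rw [h6]
    exact W.mul_mem _ _ h2 h5
  have hprime := pr_prime (O := O) W hOW
  have hDSW : DS (CM a y) (ch a y W) ⊆ (W : Set K) := by
    rintro x (⟨o, rfl⟩ | ⟨i, x, hx, rfl⟩)
    · exact hOW o
    · exact (ch_spec hOW i).2.2 x hx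
  by_cases hb : ∃ b, bad a y W b
  · obtain ⟨b, hb⟩ := hb
    obtain ⟨hb1, hb2, hb3, hb4⟩ := id hb
    have hunique : ∀ i, bad a y W i → i = b := by
      intro i hi
      by_contra h
      exact hco i b h _ hprime (hbad i hi) (hbad b hb)
    -- the first point
    have hR0 := hbase.2 (a b) (hbad b hb) (hsq b _ hprime)
    have hS0 : (algebraMap O K).range ≤ W.toSubring := by
      rintro _ ⟨o, rfl⟩
      exact hOW o
    have hR1 := trans_step hS0 hR0 (LF E y ∅) (by
      rintro _ ⟨o, rfl⟩
      exact hL _ o) hb1 (trans_iff.2 (notMem_LF hy (Set.notMem_empty b)))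
    set S1 : Subring K := Subring.closure (insert (y b) ((algebraMap O K).range : Set K)) with hS1
    have hS1W : S1 ≤ W.toSubring := by
      rw [hS1, Subring.closure_le]
      rintro x (rfl | hx)
      · exact hb1
      · exact hS0 hx
    have hOS1 : ∀ o, algebraMap O K o ∈ S1 := fun o =>
      Subring.subset_closure (Set.mem_insert_of_mem _ ⟨o, rfl⟩)
    have hyS1 : y b ∈ S1 := Subring.subset_closure (Set.mem_insert _ _)
    let ya : lo W.toSubring S1 := ⟨y b, le_lo _ _ hyS1⟩
    let aa : lo W.toSubring S1 := ⟨algebraMap O K (a b), le_lo _ _ (hOS1 _)⟩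
    have hR2 := root_const (loc_V W) hS1W hR1 hb2 (C aa - C ya * X) (by
      rw [eval₂_sub, eval₂_mul, eval₂_C, eval₂_C, eval₂_X]
      change algebraMap O K (a b) - y b * (algebraMap O K (a b) / y b) = 0
      rw [mul_div_cancel₀ _ (hy0 b), sub_self]) (Sum.inl ()) (by
      have ad := adj_closure (loc_V W) hS1W hb2
      have hloc1 : IsLocalRing (lo W.toSubring S1) := hR1.reg.toIsLocalRing
      have e1 : (C aa - C ya * X : (lo W.toSubring S1)[X]) -
          C ⟨_, hR1.mem (Sum.inl ())⟩ = - (C ya * X) := by
        change (C aa - C ya * X : (lo W.toSubring S1)[X]) - C aa = _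
        ring
      rw [e1, pow_two]
      refine (Ideal.neg_mem_iff _).2 (Ideal.mul_mem_mul ?_ ?_)
      · have h1 : ya ∈ ad.P.comap C := by
          rw [ad.comap_P, mem_maximalIdeal, mem_nonunits_iff, isUnit_lo_iff hS1W]
          exact fun h => hb3 h.2
        exact h1
      · rw [ad.X_mem]
        exact fun h => hb4 h.2)
    -- the other points
    set B : Set K := insert (algebraMap O K (a b) / y b)
      (insert (y b) (Set.range (algebraMap O K))) with hB
    have hBW : B ⊆ (W : Set K) := by
      rintro x (rfl | rfl | ⟨o, rfl⟩)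
      · exact hb2
      · exact hb1
      · exact hOW o
    have hRB : IsRegularLocalRing (lo W.toSubring (Subring.closure B)) := by
      rw [hB, ← closure_insert']
      rw [hS1, RingHom.coe_range] at hR2
      exact hR2
    have hch := chain_reg B hBW (tc a y W) htW (fun s => LF E y (insert b (s : Set ι))) hRB
      (Finset.univ.erase b) (by
        intro s hs
        refine ⟨?_, fun i hi => tc_mem_L (hL _) (self_mem_LF (Set.mem_insert_of_mem _ hi))⟩
        have hyb : y b ∈ LF E y (insert b (s : Set ι)) := self_mem_LF (Set.mem_insert _ _)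
        rintro x (rfl | rfl | ⟨o, rfl⟩)
        · exact Subfield.div_mem _ (hL _ _) hyb
        · exact hyb
        · exact hL _ o) (by
        intro s hs i hi his
        refine trans_iff.2 (tc_notMem (hL _) (ha i) (notMem_LF hy ?_))
        rintro (h | h)
        · exact (Finset.mem_erase.1 hi).1 h
        · exact his h) _ le_rfl
    have heq : lo W.toSubring (Subring.closure (DS (CM a y) (ch a y W))) =
        lo W.toSubring (Subring.closure (B ∪ tc a y W '' (Finset.univ.erase b : Finset ι))) := by
      refine lo_closure_eq hDSW ?_ ?_ ?_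
      · rintro x (hx | ⟨i, -, rfl⟩)
        · exact hBW hx
        · exact htW i
      · refine DS_sub ?_ ha hy0 ?_ ?_
        · rintro x (hx | ⟨i, -, rfl⟩)
          · exact hBW hx
          · exact htW i
        · intro o
          exact Or.inl (Or.inr (Or.inr ⟨o, rfl⟩))
        · intro i
          by_cases hi : i = b
          · subst hi
            exact Or.inr ⟨hb, Or.inl (Or.inr (Or.inl rfl)), Or.inl (Or.inl rfl)⟩
          · exact Or.inl ⟨fun h => hi (hunique i h), Or.inr ⟨i, by simp [hi], rfl⟩⟩
      · rintro x (hx | ⟨i, -, rfl⟩)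
        · refine le_lo _ _ (Subring.subset_closure ?_)
          rcases hx with rfl | rfl | ⟨o, rfl⟩
          · exact ((sub_DS b).2 hb).2
          · exact ((sub_DS b).2 hb).1
          · exact Or.inl ⟨o, rfl⟩
        · exact le_lo _ _ (Subring.subset_closure (sub_DS i).1)
    rw [heq]
    exact hch
  · push Not at hb
    set B : Set K := Set.range (algebraMap O K) with hB
    have hRB : IsRegularLocalRing (lo W.toSubring (Subring.closure B)) := by
      rw [hB, hcr]
      exact hbase.1
    have hch := chain_reg B hrW (tc a y W) htW (fun s => LF E y (s : Set ι)) hRB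
      Finset.univ (by
        intro s hs
        refine ⟨?_, fun i hi => tc_mem_L (hL _) (self_mem_LF hi)⟩
        rintro x ⟨o, rfl⟩
        exact hL _ o) (by
        intro s hs i hi his
        exact trans_iff.2 (tc_notMem (hL _) (ha i) (notMem_LF hy his))) _ le_rfl
    have heq : lo W.toSubring (Subring.closure (DS (CM a y) (ch a y W))) =
        lo W.toSubring (Subring.closure (B ∪ tc a y W '' (Finset.univ : Finset ι))) := by
      refine lo_closure_eq hDSW ?_ ?_ ?_
      · rintro x (hx | ⟨i, -, rfl⟩)
        · exact hrW hx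
        · exact htW i
      · refine DS_sub ?_ ha hy0 ?_ ?_
        · rintro x (hx | ⟨i, -, rfl⟩)
          · exact hrW hx
          · exact htW i
        · intro o
          exact Or.inl ⟨o, rfl⟩
        · intro i
          exact Or.inl ⟨hb i, Or.inr ⟨i, by simp, rfl⟩⟩
      · rintro x (⟨o, rfl⟩ | ⟨i, -, rfl⟩)
        · exact le_lo _ _ (Subring.subset_closure (Or.inl ⟨o, rfl⟩))
        · exact le_lo _ _ (Subring.subset_closure (sub_DS i).1)
    rw [heq]
    exact hch

end conic

end Pool.Agent.X269.KP
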