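import Pool.Agent.X269.KP.Conic

/-!
# Products of conics with the involutions `y ↦ a / y`: the fixed points
-/

set_option autoImplicit false

namespace Pool.Agent.X269.KP

open IsLocalRing Pool.Agent.Y223.INV Pool.Agent.W418.LU2 Pool.Agent.TH188.QS
  Pool.Agent.H918R2.Quad Pool.Agent.TH188.ARC Polynomial

variable {O K : Type} [CommRing O] [Field K] [Algebra O K] {ι : Type}
variable {a α b : ι → O} {y : ι → K} {W : ValuationSubring K}

lemma nu_of_not_mem {x : K} (h : x ∉ W) : NU W.toSubring x⁻¹ := by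
  rintro ⟨-, h1⟩
  rw [inv_inv] at h1
  exact h h1

lemma nu_mul_of_mem {x z : K} (hx : x ∈ W) (hz : NU W.toSubring z) : NU W.toSubring (x * z) :=
  NU.mul (A := W.toSubring) hx hz

lemma nu_add {x z : K} (hxW : x ∈ W) (hzW : z ∈ W) (hx : NU W.toSubring x)
    (hz : NU W.toSubring z) : NU W.toSubring (x + z) := by
  have h : ∀ w : W, NU W.toSubring (w : K) ↔ w ∈ maximalIdeal W := by
    intro w
    rw [mem_maximalIdeal, mem_nonunits_iff, NU, not_iff_not]
    constructor
    · rintro ⟨h2, h3⟩
      exact isUnit_iff_exists_inv.2 ⟨⟨_, h3⟩, Subtype.ext (mul_inv_cancel₀ h2)⟩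
    · intro h
      obtain ⟨v, hv⟩ := isUnit_iff_exists_inv.1 h
      have h2 : (w : K) * v = 1 := congrArg Subtype.val hv
      refine ⟨left_ne_zero_of_mul_eq_one h2, ?_⟩
      rw [← eq_inv_of_mul_eq_one_right h2]
      exact v.2
  have h1 := (h ⟨x, hxW⟩).1 hx
  have h2 := (h ⟨z, hzW⟩).1 hz
  exact (h _).2 (Ideal.add_mem _ h1 h2)

lemma not_nu_one : ¬ NU W.toSubring (1 : K) := by
  rw [nu_iff]
  exact ⟨one_ne_zero, by rw [inv_one]; exact W.one_mem⟩

variable [DecidableEq ι] [Fintype ι] [Nonempty ι]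

/-- The conditions at the points. -/
theorem conic_pt {E : Type} [Field E] [Algebra E K] [Algebra O E] [IsScalarTower O E K]
    [IsDedekindDomain O] (hO : Function.Injective (algebraMap O K)) (hy : AlgebraicIndependent E y)
    (hsq : ∀ i, ∀ 𝔭 : Ideal O, 𝔭.IsPrime → a i ∉ 𝔭 ^ 2)
    (hco : ∀ i j, i ≠ j → ∀ 𝔭 : Ideal O, 𝔭.IsPrime → a i ∈ 𝔭 → a j ∉ 𝔭)
    (hun : ∀ 𝔭 : Ideal O, 𝔭.IsPrime → (2 : O) ∈ 𝔭 → (2 : O) ∉ 𝔭 ^ 2)
    (ha2 : ∀ i, ∀ 𝔭 : Ideal O, 𝔭.IsPrime → (2 : O) ∈ 𝔭 → a i ∉ 𝔭)
    (hα : ∀ i, a i = α i ^ 2 + 4 * b i)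
    (σ : K ≃ₐ[O] K) (hσ : ∀ i, σ (y i) = algebraMap O K (a i) / y i)
    (hσσ : ∀ x, σ (σ x) = x)
    (hOW : ∀ o, algebraMap O K o ∈ W) (Q : Subring K)
    (hQ : Q = lo W.toSubring (Subring.closure (DS (CM a y) (ch a y W)))) :
    ∃ _ : IsRegularLocalRing Q,
      ∀ 𝔞 : Ideal Q, 𝔞 = Ideal.span {z : Q | ∃ i, ∃ n ∈ CN a α y i, (z : K) = n / ch a y W i} →
          (𝔞 ≠ ⊤ → 𝔞 = maximalIdeal Q) ∧
          (¬ IsUnit (2 : Q) → IsFixed σ Q → 𝔞 ≠ ⊤ ∧ NondegenerateWild σ Q 𝔞) := by
  classical
  have hreg : IsRegularLocalRing Q := by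
    rw [hQ]
    exact conic_reg hO hy hsq hco hOW
  refine ⟨hreg, ?_⟩
  intro 𝔞 h𝔞
  have ha0 : ∀ i, a i ≠ 0 := by
    intro i h
    refine hsq i ⊥ Ideal.isPrime_bot ?_
    rw [h]
    exact Ideal.zero_mem _
  have ha : ∀ i, algebraMap O K (a i) ≠ 0 := fun i h => ha0 i (hO (by rw [h, map_zero]))
  have hy0 : ∀ i, y i ≠ 0 := by
    intro i h
    exact notMem_LF hy (Set.notMem_empty i) (by rw [h]; exact (LF E y ∅).zero_mem)
  have hDSW : DS (CM a y) (ch a y W) ⊆ (W : Set K) := by
    rintro x (⟨o, rfl⟩ | ⟨i, x, hx, rfl⟩)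
    · exact hOW o
    · exact (ch_spec hOW i).2.2 x hx
  have hcW : Subring.closure (DS (CM a y) (ch a y W)) ≤ W.toSubring := Subring.closure_le.2 hDSW
  have hDQ : DS (CM a y) (ch a y W) ⊆ (Q : Set K) := by
    intro x hx
    rw [hQ]
    exact le_lo _ _ (Subring.subset_closure hx)
  have hOQ : ∀ o, algebraMap O K o ∈ Q := fun o => hDQ (Or.inl ⟨o, rfl⟩)
  have hMQ : ∀ i, ∀ x ∈ CM a y i, x / ch a y W i ∈ Q := fun i x hx => hDQ (Or.inr ⟨i, x, hx, rfl⟩)
  have hQW : Q ≤ W.toSubring := by rw [hQ]; exact lo_le hcW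
  have hIC : IC W.toSubring Q := by rw [hQ]; exact ic_lo hcW
  have hmax : ∀ z : Q, z ∈ maximalIdeal Q ↔ NU W.toSubring (z : K) := mem_max_iff hQW hIC
  have h𝔞n : ∀ i, ∀ n ∈ CN a α y i, Im 𝔞 (n / ch a y W i) := by
    intro i n hn
    refine ⟨⟨n / ch a y W i, hMQ i n (CN_le i hn)⟩, ?_, rfl⟩
    rw [h𝔞]
    exact Ideal.subset_span ⟨i, n, hn, rfl⟩
  have hNU : 𝔞 ≠ ⊤ → ∀ x, Im 𝔞 x → NU W.toSubring x := by
    intro h x hx
    have h1 := le_maximalIdeal h (hx.mk hx.mem)
    exact (hmax _).1 h1
  have mem1 : ∀ i, y i - algebraMap O K (α i) ∈ CN a α y i := fun i =>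
    Submodule.subset_span (by simp)
  have mem2 : ∀ i, algebraMap O K (a i) / y i - algebraMap O K (α i) ∈ CN a α y i := fun i =>
    Submodule.subset_span (by simp)
  have mem3 : ∀ i, (2 : K) ∈ CN a α y i := fun i => Submodule.subset_span (by simp)
  -- the charts
  have htype : (∀ i, ch a y W i = 1) → (∀ i, Im 𝔞 (y i - algebraMap O K (α i))) ∧
      (∀ i, Im 𝔞 (algebraMap O K (a i) / y i - algebraMap O K (α i))) ∧ Im 𝔞 (2 : K) := by
    intro h
    refine ⟨fun i => ?_, fun i => ?_, ?_⟩
    · have h1 := h𝔞n i _ (mem1 i)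
      rwa [h i, div_one] at h1
    · have h1 := h𝔞n i _ (mem2 i)
      rwa [h i, div_one] at h1
    · obtain ⟨i⟩ := ‹Nonempty ι›
      have h1 := h𝔞n i _ (mem3 i)
      rwa [h i, div_one] at h1
  have hα2 : ∀ i, algebraMap O K (a i) = algebraMap O K (α i) ^ 2 + 4 * algebraMap O K (b i) := by
    intro i
    rw [hα i, map_add, map_mul, map_pow, map_ofNat]
  constructor
  · intro hne
    have hch1 : ∀ i, ch a y W i = 1 := by
      intro i
      have h3 := hNU hne _ (h𝔞n i _ (mem1 i))
      have h4 := hNU hne _ (h𝔞n i _ (mem2 i))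
      by_cases h1 : y i ∈ W
      · by_cases h2 : algebraMap O K (a i) / y i ∈ W
        · rw [ch, if_pos h1, if_pos h2]
        · exfalso
          have hc : ch a y W i = algebraMap O K (a i) / y i := by rw [ch, if_pos h1, if_neg h2]
          rw [hc, sub_div, div_self (ne_zero_of_not h2)] at h4
          have h5 : NU W.toSubring (algebraMap O K (α i) / (algebraMap O K (a i) / y i)) := by
            rw [div_eq_mul_inv]
            exact nu_mul_of_mem (hOW _) (nu_of_not_mem h2)
          have h6 := nu_add (sub_mem W.one_mem (by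
            rw [div_eq_mul_inv]
            exact W.mul_mem _ _ (hOW _) (inv_mem_of_not h2))) (by
            rw [div_eq_mul_inv]
            exact W.mul_mem _ _ (hOW _) (inv_mem_of_not h2)) h4 h5
          rw [sub_add_cancel] at h6
          exact not_nu_one h6
      · exfalso
        have hc : ch a y W i = y i := by rw [ch, if_neg h1]
        rw [hc, sub_div, div_self (ne_zero_of_not h1)] at h3
        have h5 : NU W.toSubring (algebraMap O K (α i) / y i) := by
          rw [div_eq_mul_inv]
          exact nu_mul_of_mem (hOW _) (nu_of_not_mem h1)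
        have h6 := nu_add (sub_mem W.one_mem (by
          rw [div_eq_mul_inv]
          exact W.mul_mem _ _ (hOW _) (inv_mem_of_not h1))) (by
          rw [div_eq_mul_inv]
          exact W.mul_mem _ _ (hOW _) (inv_mem_of_not h1)) h3 h5
        rw [sub_add_cancel] at h6
        exact not_nu_one h6
    obtain ⟨e1, e2, e3⟩ := htype hch1
    have h2N : NU W.toSubring (2 : K) := hNU hne _ e3
    refine cen_max hDSW hQ (fun o => Or.inl ⟨o, rfl⟩) hne ?_ ?_
    · intro o ho
      obtain ⟨s, r, hsr, hs0, hsW⟩ := unram hOW hun h2N o ho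
      have hsQ : (algebraMap O K s)⁻¹ ∈ Q := hIC _ (hOQ s) hs0 hsW
      have h1 : algebraMap O K o = (algebraMap O K r * (algebraMap O K s)⁻¹) * 2 := by
        have h3 : algebraMap O K s * algebraMap O K o = 2 * algebraMap O K r := by
          rw [← map_mul, hsr, map_mul, map_ofNat]
        field_simp
        rw [mul_comm, h3, mul_comm]
      rw [h1]
      exact e3.mul_left (Q.mul_mem (hOQ r) hsQ)
    · rintro x (⟨o, rfl⟩ | ⟨i, x, hx, rfl⟩)
      · exact ⟨o, by rw [sub_self]; exact Im.zero⟩
      · rw [hch1 i, div_one]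
        revert x
        refine CM_ind ?_ ?_ ?_ ?_ ?_ ?_
        · exact ⟨0, by rw [map_zero, sub_zero]; exact Im.zero⟩
        · rintro x z ⟨o, ho⟩ ⟨o', ho'⟩
          refine ⟨o + o', ?_⟩
          rw [map_add, show x + z - (algebraMap O K o + algebraMap O K o') =
            (x - algebraMap O K o) + (z - algebraMap O K o') by ring]
          exact ho.add ho'
        · rintro r x ⟨o, ho⟩
          refine ⟨r * o, ?_⟩
          rw [map_mul, show algebraMap O K r * x - algebraMap O K r * algebraMap O K o =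
            algebraMap O K r * (x - algebraMap O K o) by ring]
          exact ho.mul_left (hOQ r)
        · exact ⟨1, by rw [map_one, sub_self]; exact Im.zero⟩
        · exact ⟨α i, e1 i⟩
        · exact ⟨α i, e2 i⟩
  · intro h2u hfix
    have h2N : NU W.toSubring (2 : K) := by
      have h1 : (2 : Q) ∈ maximalIdeal Q := (mem_maximalIdeal _).2 h2u
      exact (hmax 2).1 h1
    have hprime := pr_prime (O := O) W hOW
    have h2p : (2 : O) ∈ pr O W hOW := by
      rw [mem_pr, map_ofNat]
      exact h2N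
    have haU : ∀ i, (algebraMap O K (a i))⁻¹ ∈ W := by
      intro i
      have h1 := ha2 i _ hprime h2p
      rw [mem_pr, nu_iff] at h1
      exact h1.2
    have haQ : ∀ i, (algebraMap O K (a i))⁻¹ ∈ Q := fun i => hIC _ (hOQ _) (ha i) (haU i)
    have hfx : ∀ x ∈ Q, σ x ∈ Q ∧ NU W.toSubring (σ x - x) := by
      intro x hx
      obtain ⟨z, hz, hz'⟩ := hfix ⟨x, hx⟩
      have h1 : σ x ∈ Q := by rw [← hz]; exact z.2
      refine ⟨h1, ?_⟩
      have h3 : z - ⟨x, hx⟩ ∈ maximalIdeal Q := (mem_maximalIdeal _).2 hz'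
      have h4 := (hmax _).1 h3
      have h5 : ((z - ⟨x, hx⟩ : Q) : K) = σ x - x := by
        change (z : K) - x = σ x - x
        rw [hz]
      rwa [h5] at h4
    have hσa : ∀ i, σ (algebraMap O K (a i) / y i) = y i := by
      intro i
      rw [← hσ i, hσσ]
    -- all the charts are the first ones
    have hyy : ∀ i, y i ∈ W ∧ algebraMap O K (a i) / y i ∈ W := by
      intro i
      by_cases h1 : y i ∈ W
      · refine ⟨h1, ?_⟩
        by_contra h2
        have hc : ch a y W i = algebraMap O K (a i) / y i := by rw [ch, if_pos h1, if_neg h2]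
        have h3 := hMQ i _ (one_mem_CM i)
        rw [hc] at h3
        have h4 := (hfx _ h3).1
        rw [map_div₀, map_one, hσa] at h4
        apply h2
        rw [div_eq_mul_inv]
        rw [one_div] at h4
        exact W.mul_mem _ _ (hOW _) (hQW h4)
      · exfalso
        have hc : ch a y W i = y i := by rw [ch, if_neg h1]
        have h3 := hMQ i _ (one_mem_CM i)
        rw [hc] at h3
        have h4 := (hfx _ h3).1
        rw [map_div₀, map_one, hσ] at h4
        apply h1
        have h5 : y i = algebraMap O K (a i) * (1 / (algebraMap O K (a i) / y i)) := by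
          have := ha i
          have := hy0 i
          field_simp
        rw [h5]
        exact W.mul_mem _ _ (hOW _) (hQW h4)
    have hch1 : ∀ i, ch a y W i = 1 := fun i => by rw [ch, if_pos (hyy i).1, if_pos (hyy i).2]
    obtain ⟨e1, e2, e3⟩ := htype hch1
    have hyQ : ∀ i, y i ∈ Q := fun i => by
      have h1 := hMQ i _ (y_mem_CM i)
      rwa [hch1 i, div_one] at h1
    have hayQ : ∀ i, algebraMap O K (a i) / y i ∈ Q := fun i => by
      have h1 := hMQ i _ (ay_mem_CM i)
      rwa [hch1 i, div_one] at h1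
    have hyinv : ∀ i, (y i)⁻¹ ∈ Q := by
      intro i
      have h1 : (y i)⁻¹ = (algebraMap O K (a i) / y i) * (algebraMap O K (a i))⁻¹ := by
        have := ha i
        field_simp
      rw [h1]
      exact Q.mul_mem (hayQ i) (haQ i)
    -- `y - α` is not a unit
    have hz : ∀ i, NU W.toSubring (y i - algebraMap O K (α i)) := by
      intro i
      by_contra h
      rw [nu_iff] at h
      have h1 : NU W.toSubring ((y i - algebraMap O K (α i)) * (y i - algebraMap O K (α i))) := by
        have h3 : (y i - algebraMap O K (α i)) * (y i - algebraMap O K (α i)) =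
            (-y i) * (algebraMap O K (a i) / y i - y i) +
              (algebraMap O K (α i) ^ 2 + 2 * algebraMap O K (b i) - y i * algebraMap O K (α i)) * 2 := by
          have h4 : (-y i) * (algebraMap O K (a i) / y i - y i) = y i ^ 2 - algebraMap O K (a i) := by
            have := hy0 i
            field_simp
            ring
          rw [h4, hα2 i]
          ring
        rw [h3]
        have h5 := (hfx _ (hyQ i)).2
        rw [hσ] at h5
        have h6 : (-y i) ∈ W := W.neg_mem _ (hyy i).1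
        have h7 : (algebraMap O K (α i) ^ 2 + 2 * algebraMap O K (b i) -
            y i * algebraMap O K (α i)) ∈ W := by
          refine sub_mem (W.add_mem _ _ (pow_mem (hOW _) 2) (W.mul_mem _ _ ?_ (hOW _)))
            (W.mul_mem _ _ (hyy i).1 (hOW _))
          have h8 := hOW 2
          rwa [map_ofNat] at h8
        have h2W : (2 : K) ∈ W := by
          have h8 := hOW 2
          rwa [map_ofNat] at h8
        exact nu_add (W.mul_mem _ _ h6 (sub_mem (hyy i).2 (hyy i).1))
          (W.mul_mem _ _ h7 h2W) (nu_mul_of_mem h6 h5) (nu_mul_of_mem h7 h2N)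
      apply h1
      refine ⟨mul_ne_zero h.1 h.1, ?_⟩
      change _ ∈ W
      rw [mul_inv]
      exact W.mul_mem _ _ h.2 h.2
    have h𝔞ne : 𝔞 ≤ maximalIdeal Q := by
      rw [h𝔞, Ideal.span_le]
      rintro z ⟨i, n, hn, hzn⟩
      rw [SetLike.mem_coe, hmax, hzn, hch1 i, div_one]
      have key : ∀ n ∈ CN a α y i, n ∈ W ∧ NU W.toSubring n := by
        have hyW := (hyy i).1
        have hayW := (hyy i).2
        refine CN_ind ?_ ?_ ?_ ?_ ?_ ?_
        · refine ⟨W.zero_mem, ?_⟩
          rintro ⟨h0, -⟩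
          exact h0 rfl
        · intro x z hx hz
          exact ⟨W.add_mem _ _ hx.1 hz.1, nu_add hx.1 hz.1 hx.2 hz.2⟩
        · intro r x hx
          exact ⟨W.mul_mem _ _ (hOW r) hx.1, nu_mul_of_mem (hOW r) hx.2⟩
        · exact ⟨sub_mem hyW (hOW _), hz i⟩
        · refine ⟨sub_mem hayW (hOW _), ?_⟩
          have h3 : algebraMap O K (a i) / y i - algebraMap O K (α i) =
              (algebraMap O K (a i) / y i - y i) + (y i - algebraMap O K (α i)) := by ring
          rw [h3]
          have h5 := (hfx _ (hyQ i)).2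
          rw [hσ] at h5
          exact nu_add (sub_mem hayW hyW) (sub_mem hyW (hOW _)) h5 (hz i)
        · refine ⟨?_, h2N⟩
          have h8 := hOW 2
          rwa [map_ofNat] at h8
      exact (key n hn).2
    have hne : 𝔞 ≠ ⊤ := by
      intro h
      rw [h, top_le_iff] at h𝔞ne
      exact (maximalIdeal.isMaximal Q).ne_top h𝔞ne
    refine ⟨hne, ?_⟩
    have h2Q : (2 : K) ∈ Q := e3.mem
    have e3' : (2 : Q) ∈ 𝔞 := e3.mk h2Q
    have e4 : Im (𝔞 ^ 2) (4 : K) := by
      have := e3.sq e3
      rwa [show (2 : K) * 2 = 4 by norm_num] at this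
    -- `a - y ^ 2`
    have hay2 : ∀ i, Im (𝔞 ^ 2) (algebraMap O K (a i) - y i ^ 2) := by
      intro i
      have h3 : algebraMap O K (a i) - y i ^ 2 = algebraMap O K (b i) * 4 -
          (y i - algebraMap O K (α i)) * (y i - algebraMap O K (α i)) -
            algebraMap O K (α i) * (2 * (y i - algebraMap O K (α i))) := by
        rw [hα2 i]
        ring
      rw [h3]
      exact ((e4.mul_left (hOQ _)).sub ((e1 i).sq (e1 i))).sub
        ((e3.sq (e1 i)).mul_left (hOQ _))
    have hδy : ∀ i, Im (𝔞 ^ 2) (algebraMap O K (a i) / y i - y i) := by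
      intro i
      have h3 : algebraMap O K (a i) / y i - y i = (y i)⁻¹ * (algebraMap O K (a i) - y i ^ 2) := by
        have := hy0 i
        field_simp
      rw [h3]
      exact (hay2 i).mul_left (hyinv i)
    refine nondeg σ hσσ hreg (D := DS (CM a y) (ch a y W)) ?_ hDQ h𝔞ne e3'
      (fun x hx => (hfx x hx).1) ?_ (ι := ι)
      (fun i => ⟨y i - algebraMap O K (α i), (e1 i).mem⟩) (fun i => (e1 i).mk _) ?_ ?_
    · intro x hx
      rw [hQ] at hx
      obtain ⟨c, hc, d, hd, hd0, hdW, rfl⟩ := hx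
      exact ⟨c, hc, d, hd, d⁻¹, hIC d (by rw [hQ]; exact le_lo _ _ hd) hd0 hdW,
        mul_inv_cancel₀ hd0, rfl⟩
    · -- the image of the generators
      have key : ∀ x ∈ DS (CM a y) (ch a y W), Im (𝔞 ^ 2) (σ x - x) := by
        rintro x (⟨o, rfl⟩ | ⟨i, x, hx, rfl⟩)
        · rw [σ.commutes, sub_self]
          exact Im.zero
        · rw [hch1 i, div_one]
          revert x
          refine CM_ind ?_ ?_ ?_ ?_ ?_ ?_
          · rw [map_zero, sub_zero]; exact Im.zero
          · intro x z hx hz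
            rw [map_add, show σ x + σ z - (x + z) = (σ x - x) + (σ z - z) by ring]
            exact hx.add hz
          · intro r x hx
            rw [map_mul, σ.commutes, ← mul_sub]
            exact hx.mul_left (hOQ r)
          · rw [map_one, sub_self]; exact Im.zero
          · rw [hσ]; exact hδy i
          · rw [hσa, ← neg_sub]
            exact (hδy i).neg
      intro x hx
      exact (key x hx).mk _
    · -- generators of the centre
      refine h𝔞.le.trans ?_
      rw [Ideal.span_le]
      rintro z ⟨i, n, hn, hzn⟩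
      rw [hch1 i, div_one] at hzn
      set J : Ideal Q := Ideal.span {2} ⊔ Ideal.span (Set.range fun i =>
        (⟨y i - algebraMap O K (α i), (e1 i).mem⟩ : Q)) ⊔ 𝔞 ^ 2 with hJ
      have j2 : Im J (2 : K) := ⟨2, Ideal.mem_sup_left (Ideal.mem_sup_left
        (Ideal.mem_span_singleton_self _)), rfl⟩
      have jz : ∀ i, Im J (y i - algebraMap O K (α i)) := fun i =>
        ⟨⟨_, (e1 i).mem⟩, Ideal.mem_sup_left (Ideal.mem_sup_right
          (Ideal.subset_span ⟨i, rfl⟩)), rfl⟩
      have ja : 𝔞 ^ 2 ≤ J := le_sup_right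
      have key : ∀ n ∈ CN a α y i, Im J n := by
        refine CN_ind Im.zero (fun x z hx hz => hx.add hz) (fun r x hx => hx.mul_left (hOQ r))
          (jz i) ?_ j2
        have h3 : algebraMap O K (a i) / y i - algebraMap O K (α i) =
            (algebraMap O K (a i) / y i - y i) + (y i - algebraMap O K (α i)) := by ring
        rw [h3]
        exact ((hδy i).mono ja).add (jz i)
      have h4 := key n hn
      rw [← hzn] at h4
      exact h4.mk z.2
    · intro i
      set J : Ideal Q := Ideal.span {(2 : Q)} * 𝔞 ⊔ Ideal.span {w : Q | ∃ x ∈ 𝔞,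
        (w : K) = σ (x : K) - (x : K)} ⊔ 𝔞 ^ 3 with hJ
      have j2 : ∀ x, Im 𝔞 x → Im J (2 * x) := by
        intro x hx
        have h5 : Im (Ideal.span {(2 : Q)}) (2 : K) := ⟨2, Ideal.mem_span_singleton_self _, rfl⟩
        exact (h5.mul hx).mono (le_sup_left.trans le_sup_left)
      have jδ : Im J (algebraMap O K (a i) / y i - y i) := by
        refine ⟨⟨algebraMap O K (a i) / y i - y i, (hδy i).mem⟩, Ideal.mem_sup_left
          (Ideal.mem_sup_right (Ideal.subset_span ⟨⟨y i - algebraMap O K (α i), (e1 i).mem⟩,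
            (e1 i).mk _, ?_⟩)), rfl⟩
        change algebraMap O K (a i) / y i - y i = σ (y i - algebraMap O K (α i)) -
          (y i - algebraMap O K (α i))
        rw [map_sub, hσ, σ.commutes]
        ring
      have h3 : (y i - algebraMap O K (α i)) ^ 2 = algebraMap O K (b i) * (2 * 2) -
          algebraMap O K (α i) * (2 * (y i - algebraMap O K (α i))) -
            y i * (algebraMap O K (a i) / y i - y i) := by
        have h4 : y i * (algebraMap O K (a i) / y i - y i) = algebraMap O K (a i) - y i ^ 2 := by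
          have := hy0 i
          field_simp
        rw [h4, hα2 i]
        ring
      have h4 : Im J ((y i - algebraMap O K (α i)) ^ 2) := by
        rw [h3]
        exact (((j2 _ e3).mul_left (hOQ _)).sub ((j2 _ (e1 i)).mul_left (hOQ _))).sub
          (jδ.mul_left (hyQ i))
      exact h4.mk _

end Pool.Agent.X269.KP
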