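import Pool.Agent.X269.KP.ConicFin

/-!
# Regular proper models of the quotients of products of conics by the diagonal involution
-/

set_option autoImplicit false

namespace Pool.Agent.X269.KP

open IsLocalRing Pool.Agent.Y223.INV Pool.Agent.H918R2.Quad AlgebraicGeometry CategoryTheory

/-- A squarefree element is not in the square of a prime. -/
lemma notMem_sq {O : Type} [CommRing O] [IsDedekindDomain O] {a : O}
    (h : Squarefree (Ideal.span {a})) (𝔭 : Ideal O) (h𝔭 : 𝔭.IsPrime) : a ∉ 𝔭 ^ 2 := by
  intro ha
  have h1 : 𝔭 * 𝔭 ∣ Ideal.span {a} := by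
    rw [Ideal.dvd_iff_le, Ideal.span_singleton_le_iff_mem, ← pow_two]
    exact ha
  have h2 := h 𝔭 h1
  rw [Ideal.isUnit_iff] at h2
  exact h𝔭.ne_top h2

lemma notMem_coprime {O : Type} [CommRing O] {a b : O} (h : IsCoprime a b) (𝔭 : Ideal O)
    (h𝔭 : 𝔭.IsPrime) (ha : a ∈ 𝔭) : b ∉ 𝔭 := by
  intro hb
  obtain ⟨u, v, huv⟩ := h
  apply h𝔭.ne_top
  rw [Ideal.eq_top_iff_one, ← huv]
  exact 𝔭.add_mem (𝔭.mul_mem_left _ ha) (𝔭.mul_mem_left _ hb)

theorem conic_main (O E : Type) [CommRing O] [IsDedekindDomain O] [Module.Finite ℤ O] [Field E]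
    [Algebra O E] [IsFractionRing O E] (h2 : Squarefree (Ideal.span {(2 : O)}))
    {ι : Type} [Fintype ι] [DecidableEq ι] [Nonempty ι] (a α b : ι → O)
    (hsq : ∀ i, Squarefree (Ideal.span {a i})) (hco : ∀ i j, i ≠ j → IsCoprime (a i) (a j))
    (ha2 : ∀ i, IsCoprime (a i) 2) (hα : ∀ i, a i = α i ^ 2 + 4 * b i)
    (K : Type) [Field K] [Algebra E K] (y : ι → K) (hy : AlgebraicIndependent E y)
    (hK : IntermediateField.adjoin E (Set.range y) = ⊤) (σ : K ≃ₐ[E] K)
    (hσ : ∀ i, σ (y i) = algebraMap E K (algebraMap O E (a i)) / y i) {F : Type} [Field F]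
    [Algebra F K] (hF : ∀ x, σ x = x ↔ ∃ f : F, algebraMap F K f = x) :
    ∃ (X' : Scheme.{0}) (_ : IsIntegral X') (g : X' ⟶ Spec (CommRingCat.of ℤ)),
      IsProper g ∧
      (∀ x : X',
        (((Module.finrank (IsLocalRing.ResidueField (X'.presheaf.stalk x))
            (IsLocalRing.CotangentSpace (X'.presheaf.stalk x)) : ℕ∞)) : WithBot ℕ∞)
          = ringKrullDim (X'.presheaf.stalk x)) ∧
      Nonempty (X'.functionField ≃+* F) := by
  classical
  let _ : Algebra O K := ((algebraMap E K).comp (algebraMap O E)).toAlgebra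
  have hst : IsScalarTower O E K := IsScalarTower.of_algebraMap_eq fun o => rfl
  have hO : Function.Injective (algebraMap O K) :=
    (algebraMap E K).injective.comp (IsFractionRing.injective O E)
  -- the structure on `F`
  have hFO : ∀ o : O, ∃ f : F, algebraMap F K f = algebraMap O K o := fun o =>
    (hF _).1 (σ.commutes (algebraMap O E o))
  have hFinj : Function.Injective (algebraMap F K) := (algebraMap F K).injective
  choose φ hφ using hFO
  let φ' : O →+* F :=
    { toFun := φ
      map_one' := hFinj (by rw [hφ, map_one, map_one])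
      map_zero' := hFinj (by rw [hφ, map_zero, map_zero])
      map_mul' := fun x z => hFinj (by rw [hφ, map_mul, map_mul, hφ, hφ])
      map_add' := fun x z => hFinj (by rw [hφ, map_add, map_add, hφ, hφ]) }
  let _ : Algebra O F := φ'.toAlgebra
  have hst' : IsScalarTower O F K := IsScalarTower.of_algebraMap_eq fun o => (hφ o).symm
  have hinj : Function.Injective (algebraMap O F) := by
    intro c d hcd
    apply hO
    rw [IsScalarTower.algebraMap_apply O F K, IsScalarTower.algebraMap_apply O F K, hcd]
  have hnoe : IsNoetherianRing O := inferInstance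
  -- the involution
  let τ : K ≃ₐ[O] K := σ.restrictScalars O
  have hτ : ∀ x, τ x = σ x := fun x => rfl
  have hy0 : ∀ i, y i ≠ 0 := by
    intro i h
    exact notMem_LF (s := ∅) hy (Set.notMem_empty i) (by rw [h]; exact (LF E y ∅).zero_mem)
  have ha0 : ∀ i, algebraMap O K (a i) ≠ 0 := by
    intro i h
    refine notMem_sq (hsq i) ⊥ Ideal.isPrime_bot ?_
    have h1 : a i = 0 := hO (by rw [h, map_zero])
    rw [h1]
    exact Ideal.zero_mem _
  have hσσ : ∀ x, τ (τ x) = x := by
    have h1 : (σ * σ : K ≃ₐ[E] K).toAlgHom = AlgHom.id E K := by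
      have h3 : ∀ x ∈ (⊤ : IntermediateField E K), (σ * σ) x = x := by
        intro x hx
        rw [← hK] at hx
        induction hx using IntermediateField.adjoin_induction with
        | mem x hx =>
          obtain ⟨i, rfl⟩ := hx
          rw [AlgEquiv.mul_apply, hσ, map_div₀, σ.commutes, hσ]
          have h4 := hy0 i
          have h5 : algebraMap E K (algebraMap O E (a i)) ≠ 0 := ha0 i
          field_simp
        | algebraMap x => exact (σ * σ).commutes x
        | add x z _ _ hx hz => rw [map_add, hx, hz]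
        | inv x _ hx => rw [map_inv₀, hx]
        | mul x z _ _ hx hz => rw [map_mul, hx, hz]
      ext x
      exact h3 x trivial
    intro x
    exact DFunLike.congr_fun h1 x
  have hσ' : ∀ i, τ (y i) = algebraMap O K (a i) / y i := hσ
  have hσ1 : ∃ x, τ x ≠ x := by
    obtain ⟨i⟩ := ‹Nonempty ι›
    refine ⟨y i, fun h => ?_⟩
    rw [hσ', div_eq_iff (hy0 i)] at h
    have h1 : y i ∈ LF E y ∅ := by
      refine root_mem_LF (E := E) (x := y) (s := ∅)
        (Polynomial.X ^ 2 - Polynomial.C ⟨algebraMap O K (a i), by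
          rw [IsScalarTower.algebraMap_apply O E K]; exact algebraMap_mem_LF _⟩) ?_ ?_
      · exact Polynomial.X_pow_sub_C_ne_zero two_pos _
      · rw [map_sub, map_pow, Polynomial.aeval_X, Polynomial.aeval_C]
        change y i ^ 2 - algebraMap O K (a i) = 0
        rw [h]
        ring
    exact notMem_LF hy (Set.notMem_empty i) h1
  have hF' : ∀ x, τ x = x ↔ ∃ f : F, algebraMap F K f = x := hF
  have h20 : (2 : K) ≠ 0 := by
    intro h
    have h3 : (2 : O) = 0 := hO (by rw [map_ofNat, h, map_zero])
    refine notMem_sq h2 ⊥ Ideal.isPrime_bot ?_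
    rw [h3]
    exact Ideal.zero_mem _
  have hM : HasModule O F := by
    refine prod_module hO (CM a y) (CN a α y) τ hσσ hσ1 hF' ?_ one_mem_CM ?_ CN_le ?_ ?_ ?_ ?_
    · intro i
      exact Submodule.fg_span (by simp)
    · intro i
      have hσa : τ (algebraMap O K (a i) / y i) = y i := by
        rw [← hσ' i, hσσ]
      refine CM_ind ?_ ?_ ?_ ?_ ?_ ?_
      · rw [map_zero]; exact Submodule.zero_mem _
      · intro x z hx hz
        rw [map_add]; exact Submodule.add_mem _ hx hz
      · intro r x hx
        rw [map_mul, τ.commutes, ← Algebra.smul_def]; exact Submodule.smul_mem _ r hx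
      · rw [map_one]; exact one_mem_CM i
      · rw [hσ']; exact ay_mem_CM i
      · rw [hσa]; exact y_mem_CM i
    · intro i
      have hσa : τ (algebraMap O K (a i) / y i) = y i := by
        rw [← hσ' i, hσσ]
      refine CN_ind ?_ ?_ ?_ ?_ ?_ ?_
      · rw [map_zero]; exact Submodule.zero_mem _
      · intro x z hx hz
        rw [map_add]; exact Submodule.add_mem _ hx hz
      · intro r x hx
        rw [map_mul, τ.commutes, ← Algebra.smul_def]; exact Submodule.smul_mem _ r hx
      · rw [map_sub, hσ', τ.commutes]; exact Submodule.subset_span (by simp)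
      · rw [map_sub, hσa, τ.commutes]; exact Submodule.subset_span (by simp)
      · rw [map_ofNat]; exact Submodule.subset_span (by simp)
    · intro i
      exact ⟨2, Submodule.subset_span (by simp), h20⟩
    · -- generation
      rw [eq_top_iff]
      set L := Subfield.closure (Set.range (algebraMap O K) ∪ {x | ∃ i, x ∈ CM a y i}) with hL
      have hOL : ∀ o : O, algebraMap O K o ∈ L := fun o => Subfield.subset_closure (Or.inl ⟨o, rfl⟩)
      have hEL : ∀ e : E, algebraMap E K e ∈ L := by
        intro e
        obtain ⟨c, d, hd, rfl⟩ := IsFractionRing.div_surjective (A := O) e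
        rw [map_div₀]
        exact L.div_mem (hOL c) (hOL d)
      intro x _
      have hx : x ∈ IntermediateField.adjoin E (Set.range y) := by rw [hK]; trivial
      induction hx using IntermediateField.adjoin_induction with
      | mem x hx =>
        obtain ⟨i, rfl⟩ := hx
        exact Subfield.subset_closure (Or.inr ⟨i, y_mem_CM i⟩)
      | algebraMap x => exact hEL x
      | add x z _ _ hx hz => exact L.add_mem (hx trivial) (hz trivial)
      | inv x _ hx => exact L.inv_mem (hx trivial)
      | mul x z _ _ hx hz => exact L.mul_mem (hx trivial) (hz trivial)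
    · intro W hOW
      refine ⟨ch a y W, ch_spec hOW, fun Q hQ => ?_⟩
      exact conic_pt (b := b) hO hy (fun i => notMem_sq (hsq i))
        (fun i j hij => notMem_coprime (hco i j hij)) (fun 𝔭 h𝔭 _ => notMem_sq h2 𝔭 h𝔭)
        (fun i 𝔭 h𝔭 h => notMem_coprime (ha2 i).symm 𝔭 h𝔭 h) hα τ hσ' hσσ hOW Q hQ
  exact model_of_hasModule hinj hM

end Pool.Agent.X269.KP
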