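import Pool.Agent.X269.KP.ConicFin

/-!
# Products of elliptic curves: charts and regularity
-/

set_option autoImplicit false

namespace Pool.Agent.X269.KP

open IsLocalRing Pool.Agent.Y223.INV Pool.Agent.W418.LU2 Pool.Agent.TH188.QS
  Pool.Agent.H918R2.Quad Pool.Agent.TH188.ARC Polynomial

section one

variable {O K : Type} [CommRing O] [Field K] [Algebra O K]

/-- The point `(x, y)` is on the curve. -/
def Eqn (C : WeierstrassCurve O) (x y : K) : Prop :=
  y ^ 2 + algebraMap O K C.a₁ * x * y + algebraMap O K C.a₃ * y =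
    x ^ 3 + algebraMap O K C.a₂ * x ^ 2 + algebraMap O K C.a₄ * x + algebraMap O K C.a₆

variable {C : WeierstrassCurve O} {x y : K} {W : ValuationSubring K}

lemma unit_one_add {b : K} (hb : NU W.toSubring b) (hbW : b ∈ W) : 1 + b ≠ 0 ∧ (1 + b)⁻¹ ∈ W := by
  rw [← nu_iff]
  intro h
  have h1 : NU W.toSubring ((1 + b) + (-b)) :=
    nu_add (W.add_mem _ _ W.one_mem hbW) (W.neg_mem _ hbW) h (by
      rw [neg_eq_neg_one_mul]
      exact nu_mul_of_mem (W.neg_mem _ W.one_mem) hb)
  rw [add_neg_cancel_right] at h1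
  exact not_nu_one h1

lemma nu_of_inv_not_mem {b : K} (h : b⁻¹ ∉ W) : NU W.toSubring b := fun h1 => h h1.2

/-- The points at infinity. -/
lemma inf_spec (hOW : ∀ o, algebraMap O K o ∈ W) (h : Eqn C x y) (hn : ¬ (x ∈ W ∧ y ∈ W)) :
    y ∉ W ∧ x / y ∈ W ∧ NU W.toSubring (x / y) := by
  have hO := hOW
  unfold Eqn at h
  set A1 := algebraMap O K C.a₁
  set A2 := algebraMap O K C.a₂
  set A3 := algebraMap O K C.a₃
  set A4 := algebraMap O K C.a₄
  set A6 := algebraMap O K C.a₆
  have h1 : A1 ∈ W := hO _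
  have h2 : A2 ∈ W := hO _
  have h3 : A3 ∈ W := hO _
  have h4 : A4 ∈ W := hO _
  have h6 : A6 ∈ W := hO _
  -- `x` is not in `W`
  have hx : x ∉ W := by
    intro hx
    have hy : y ∉ W := fun hy => hn ⟨hx, hy⟩
    have hy0 := ne_zero_of_not hy
    have hi := inv_mem_of_not hy
    have hb : A1 * x + A3 ∈ W := W.add_mem _ _ (W.mul_mem _ _ h1 hx) h3
    have hu := unit_one_add (b := (A1 * x + A3) * y⁻¹) (nu_mul_of_mem hb (nu_of_not_mem hy))
      (W.mul_mem _ _ hb hi)
    apply hy
    have e1 : y = (x ^ 3 + A2 * x ^ 2 + A4 * x + A6) * y⁻¹ * (1 + (A1 * x + A3) * y⁻¹)⁻¹ := by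
      have e2 := hu.1
      rw [eq_mul_inv_iff_mul_eq₀ e2, ← h]
      field_simp
      ring
    rw [e1]
    refine W.mul_mem _ _ (W.mul_mem _ _ ?_ hi) hu.2
    exact W.add_mem _ _ (W.add_mem _ _ (W.add_mem _ _ (pow_mem hx 3) (W.mul_mem _ _ h2
      (pow_mem hx 2))) (W.mul_mem _ _ h4 hx)) h6
  have hx0 := ne_zero_of_not hx
  have hxi := inv_mem_of_not hx
  -- `y / x` is not in `W`
  have hr : y / x ∉ W := by
    intro hr
    apply hx
    have e1 : x = (y / x) ^ 2 + A1 * (y / x) + A3 * (y / x) * x⁻¹ - A2 - A4 * x⁻¹ -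
        A6 * x⁻¹ ^ 2 := by
      have e2 : x ^ 3 = y ^ 2 + A1 * x * y + A3 * y - (A2 * x ^ 2 + A4 * x + A6) := by
        rw [h]; ring
      field_simp
      linear_combination e2
    rw [e1]
    have hp : ∀ a b : K, a ∈ W → b ∈ W → a * b ∈ W := W.mul_mem
    exact sub_mem (sub_mem (sub_mem (W.add_mem _ _ (W.add_mem _ _ (pow_mem hr 2)
      (hp _ _ h1 hr)) (hp _ _ (hp _ _ h3 hr) hxi)) h2) (hp _ _ h4 hxi)) (hp _ _ h6 (pow_mem hxi 2))
  have hr' := inv_mem_of_not hr
  rw [inv_div] at hr'
  refine ⟨?_, hr', ?_⟩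
  · intro hy
    apply hr
    rw [div_eq_mul_inv]
    exact W.mul_mem _ _ hy hxi
  · have h7 := nu_of_not_mem hr
    rwa [inv_div] at h7

/-- The equation at infinity. -/
lemma eqn_inf (h : Eqn C x y) (hy : y ≠ 0) :
    algebraMap O K C.a₆ * (y⁻¹) ^ 3 + (algebraMap O K C.a₄ * (x / y) - algebraMap O K C.a₃) *
      (y⁻¹) ^ 2 + (algebraMap O K C.a₂ * (x / y) ^ 2 - algebraMap O K C.a₁ * (x / y) - 1) * y⁻¹ +
      (x / y) ^ 3 = 0 := by
  unfold Eqn at h
  field_simp
  linear_combination -h

/-- The point is smooth over the base. -/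
def Sm (C : WeierstrassCurve O) (x y : K) (W : ValuationSubring K) : Prop :=
  ¬ NU W.toSubring (2 * y + algebraMap O K C.a₁ * x + algebraMap O K C.a₃) ∨
    ¬ NU W.toSubring (3 * x ^ 2 + 2 * algebraMap O K C.a₂ * x + algebraMap O K C.a₄ -
      algebraMap O K C.a₁ * y)

/-- The local coordinates. -/
noncomputable def eg (x y : K) (W : ValuationSubring K) : Set K :=
  open Classical in if x ∈ W ∧ y ∈ W then {x, y} else {x / y, y⁻¹}

lemma eg_aff (h : x ∈ W ∧ y ∈ W) : eg x y W = {x, y} := by
  classical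
  rw [eg, if_pos h]

lemma eg_inf (h : ¬ (x ∈ W ∧ y ∈ W)) : eg x y W = {x / y, y⁻¹} := by
  classical
  rw [eg, if_neg h]

lemma eg_sub (hOW : ∀ o, algebraMap O K o ∈ W) (h : Eqn C x y) : eg x y W ⊆ (W : Set K) := by
  by_cases hn : x ∈ W ∧ y ∈ W
  · rw [eg_aff hn]
    rintro z (rfl | rfl)
    · exact hn.1
    · exact hn.2
  · rw [eg_inf hn]
    obtain ⟨h1, h2, -⟩ := inf_spec hOW h hn
    rintro z (rfl | rfl)
    · exact h2
    · exact inv_mem_of_not h1

lemma closure_two {S : Subring K} {a b : K} :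
    Subring.closure (insert b ((Subring.closure (insert a (S : Set K)) : Subring K) : Set K)) =
      Subring.closure ((S : Set K) ∪ {a, b}) := by
  rw [closure_insert']
  congr 1
  ext z
  simp only [Set.mem_insert_iff, Set.mem_union, SetLike.mem_coe, Set.mem_singleton_iff]
  tauto

lemma ev_der {R : Type} [CommRing R] (φ : R →+* K) (t : K) (f : R[X]) (g : K[X])
    (h : f.map φ = g) : eval₂ φ t f = g.eval t ∧ eval₂ φ t (derivative f) = (derivative g).eval t := by
  subst h
  exact ⟨eval₂_eq_eval_map φ, by rw [eval₂_eq_eval_map, derivative_map]⟩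

/-- Adjoining a smooth curve. -/
theorem ell_step (hOW : ∀ o, algebraMap O K o ∈ W) (h : Eqn C x y) {S : Subring K}
    (hS : S ≤ W.toSubring) (hOS : ∀ o, algebraMap O K o ∈ S)
    (hreg : IsRegularLocalRing (lo W.toSubring S)) (L : Subfield K) (hSL : ∀ z ∈ S, z ∈ L)
    (hx : Transcendental L x) (hy : Transcendental L y) (hxy : Transcendental L (x / y))
    (hsm : x ∈ W ∧ y ∈ W → Sm C x y W) :
    IsRegularLocalRing (lo W.toSubring (Subring.closure ((S : Set K) ∪ eg x y W))) := by
  have hcl : ∀ t ∈ W, Subring.closure (insert t (S : Set K)) ≤ W.toSubring := by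
    intro t ht
    rw [Subring.closure_le]
    rintro z (rfl | hz)
    · exact ht
    · exact hS hz
  have hOS' : ∀ t o, algebraMap O K o ∈ Subring.closure (insert t (S : Set K)) := fun t o =>
    Subring.subset_closure (Set.mem_insert_of_mem _ (hOS o))
  have htS' : ∀ t, t ∈ Subring.closure (insert t (S : Set K)) := fun t =>
    Subring.subset_closure (Set.mem_insert _ _)
  by_cases hn : x ∈ W ∧ y ∈ W
  · rw [eg_aff hn]
    rcases hsm hn with h1 | h1
    · -- the coordinate `x`
      have hR := trans_reg hS hreg L hSL hn.1 hx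
      rw [nu_iff] at h1
      set S' := Subring.closure (insert x (S : Set K)) with hS'
      have hSW := hcl x hn.1
      let i : ∀ z ∈ S', lo W.toSubring S' := fun z hz => ⟨z, le_lo _ _ hz⟩
      let B := i (algebraMap O K C.a₁ * x + algebraMap O K C.a₃)
        (S'.add_mem (S'.mul_mem (hOS' x _) (htS' x)) (hOS' x _))
      let D := i (x ^ 3 + algebraMap O K C.a₂ * x ^ 2 + algebraMap O K C.a₄ * x +
        algebraMap O K C.a₆) (S'.add_mem (S'.add_mem (S'.add_mem (S'.pow_mem (htS' x) 3)
          (S'.mul_mem (hOS' x _) (S'.pow_mem (htS' x) 2))) (S'.mul_mem (hOS' x _) (htS' x)))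
          (hOS' x _))
      have hBv : (lo W.toSubring S').subtype B = algebraMap O K C.a₁ * x + algebraMap O K C.a₃ := rfl
      have hDv : (lo W.toSubring S').subtype D = x ^ 3 + algebraMap O K C.a₂ * x ^ 2 +
        algebraMap O K C.a₄ * x + algebraMap O K C.a₆ := rfl
      obtain ⟨v0, v1⟩ := ev_der (lo W.toSubring S').subtype y
        (X ^ 2 + Polynomial.C B * X - Polynomial.C D)
        (X ^ 2 + Polynomial.C (algebraMap O K C.a₁ * x + algebraMap O K C.a₃) * X -
          Polynomial.C (x ^ 3 + algebraMap O K C.a₂ * x ^ 2 + algebraMap O K C.a₄ * x +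
            algebraMap O K C.a₆)) (by
        rw [Polynomial.map_sub, Polynomial.map_add, Polynomial.map_mul, Polynomial.map_pow,
          Polynomial.map_X, Polynomial.map_C, Polynomial.map_C, hBv, hDv])
      have hd : eval₂ (lo W.toSubring S').subtype y (derivative
          (X ^ 2 + Polynomial.C B * X - Polynomial.C D)) =
          2 * y + algebraMap O K C.a₁ * x + algebraMap O K C.a₃ := by
        rw [v1]
        simp only [derivative_sub, derivative_add, derivative_mul, derivative_X_pow, derivative_C,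
          derivative_X, eval_sub, eval_add, eval_mul, eval_X, eval_C, eval_pow, eval_zero, eval_one]
        norm_num
        ring
      have h2 := root_deriv (loc_V W) hSW hR hn.2 (X ^ 2 + Polynomial.C B * X - Polynomial.C D) (by
        rw [v0]
        simp only [eval_sub, eval_add, eval_mul, eval_X, eval_C, eval_pow]
        unfold Eqn at h
        linear_combination h) (by rw [hd]; exact h1.1) (by rw [hd]; exact h1.2)
      rwa [closure_two] at h2
    · -- the coordinate `y`
      have hR := trans_reg hS hreg L hSL hn.2 hy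
      rw [nu_iff] at h1
      set S' := Subring.closure (insert y (S : Set K)) with hS'
      have hSW := hcl y hn.2
      let i : ∀ z ∈ S', lo W.toSubring S' := fun z hz => ⟨z, le_lo _ _ hz⟩
      let B2 := i (algebraMap O K C.a₂) (hOS' y _)
      let B1 := i (algebraMap O K C.a₄ - algebraMap O K C.a₁ * y)
        (S'.sub_mem (hOS' y _) (S'.mul_mem (hOS' y _) (htS' y)))
      let B0 := i (algebraMap O K C.a₆ - y ^ 2 - algebraMap O K C.a₃ * y)
        (S'.sub_mem (S'.sub_mem (hOS' y _) (S'.pow_mem (htS' y) 2))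
          (S'.mul_mem (hOS' y _) (htS' y)))
      have e2 : (lo W.toSubring S').subtype B2 = algebraMap O K C.a₂ := rfl
      have e1 : (lo W.toSubring S').subtype B1 = algebraMap O K C.a₄ - algebraMap O K C.a₁ * y := rfl
      have e0 : (lo W.toSubring S').subtype B0 =
        algebraMap O K C.a₆ - y ^ 2 - algebraMap O K C.a₃ * y := rfl
      obtain ⟨v0, v1⟩ := ev_der (lo W.toSubring S').subtype x
        (X ^ 3 + Polynomial.C B2 * X ^ 2 + Polynomial.C B1 * X + Polynomial.C B0)
        (X ^ 3 + Polynomial.C (algebraMap O K C.a₂) * X ^ 2 +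
          Polynomial.C (algebraMap O K C.a₄ - algebraMap O K C.a₁ * y) * X +
          Polynomial.C (algebraMap O K C.a₆ - y ^ 2 - algebraMap O K C.a₃ * y)) (by
        simp only [Polynomial.map_add, Polynomial.map_mul, Polynomial.map_pow,
          Polynomial.map_X, Polynomial.map_C, e2, e1, e0])
      have hd : eval₂ (lo W.toSubring S').subtype x (derivative (X ^ 3 + Polynomial.C B2 * X ^ 2 +
          Polynomial.C B1 * X + Polynomial.C B0)) = 3 * x ^ 2 + 2 * algebraMap O K C.a₂ * x +
          algebraMap O K C.a₄ - algebraMap O K C.a₁ * y := by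
        rw [v1]
        simp only [derivative_sub, derivative_add, derivative_mul, derivative_X_pow, derivative_C,
          derivative_X, eval_sub, eval_add, eval_mul, eval_X, eval_C, eval_pow, eval_zero, eval_one]
        norm_num
        ring
      have h2 := root_deriv (loc_V W) hSW hR hn.1 (X ^ 3 + Polynomial.C B2 * X ^ 2 +
          Polynomial.C B1 * X + Polynomial.C B0) (by
        rw [v0]
        simp only [eval_sub, eval_add, eval_mul, eval_X, eval_C, eval_pow]
        unfold Eqn at h
        linear_combination -h) (by rw [hd]; exact h1.1) (by rw [hd]; exact h1.2)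
      rw [closure_two] at h2
      rwa [Set.pair_comm]
  · rw [eg_inf hn]
    obtain ⟨hyW, hzW, hzN⟩ := inf_spec hOW h hn
    have hy0 := ne_zero_of_not hyW
    have hwW := inv_mem_of_not hyW
    have hwN := nu_of_not_mem hyW
    have heq := eqn_inf h hy0
    have hR := trans_reg hS hreg L hSL hzW hxy
    set z := x / y with hz
    set w := y⁻¹ with hw
    set S' := Subring.closure (insert z (S : Set K)) with hS'
    have hSW := hcl z hzW
    let i : ∀ t ∈ S', lo W.toSubring S' := fun t ht => ⟨t, le_lo _ _ ht⟩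
    let B3 := i (algebraMap O K C.a₆) (hOS' z _)
    let B2 := i (algebraMap O K C.a₄ * z - algebraMap O K C.a₃)
      (S'.sub_mem (S'.mul_mem (hOS' z _) (htS' z)) (hOS' z _))
    let B1 := i (algebraMap O K C.a₂ * z ^ 2 - algebraMap O K C.a₁ * z - 1)
      (S'.sub_mem (S'.sub_mem (S'.mul_mem (hOS' z _) (S'.pow_mem (htS' z) 2))
        (S'.mul_mem (hOS' z _) (htS' z))) S'.one_mem)
    let B0 := i (z ^ 3) (S'.pow_mem (htS' z) 3)
    have e3 : (lo W.toSubring S').subtype B3 = algebraMap O K C.a₆ := rfl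
    have e2 : (lo W.toSubring S').subtype B2 = algebraMap O K C.a₄ * z - algebraMap O K C.a₃ := rfl
    have e1 : (lo W.toSubring S').subtype B1 =
      algebraMap O K C.a₂ * z ^ 2 - algebraMap O K C.a₁ * z - 1 := rfl
    have e0 : (lo W.toSubring S').subtype B0 = z ^ 3 := rfl
    obtain ⟨v0, v1⟩ := ev_der (lo W.toSubring S').subtype w
      (Polynomial.C B3 * X ^ 3 + Polynomial.C B2 * X ^ 2 + Polynomial.C B1 * X + Polynomial.C B0)
      (Polynomial.C (algebraMap O K C.a₆) * X ^ 3 +
        Polynomial.C (algebraMap O K C.a₄ * z - algebraMap O K C.a₃) * X ^ 2 +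
        Polynomial.C (algebraMap O K C.a₂ * z ^ 2 - algebraMap O K C.a₁ * z - 1) * X +
        Polynomial.C (z ^ 3)) (by
      simp only [Polynomial.map_add, Polynomial.map_mul, Polynomial.map_pow,
        Polynomial.map_X, Polynomial.map_C, e3, e2, e1, e0])
    have hd : eval₂ (lo W.toSubring S').subtype w (derivative (Polynomial.C B3 * X ^ 3 +
        Polynomial.C B2 * X ^ 2 + Polynomial.C B1 * X + Polynomial.C B0)) =
        -(1 + ((algebraMap O K C.a₁ - algebraMap O K C.a₂ * z) * z +
          (-3 * algebraMap O K C.a₆ * w - 2 * (algebraMap O K C.a₄ * z -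
            algebraMap O K C.a₃)) * w)) := by
      rw [v1]
      simp only [derivative_sub, derivative_add, derivative_mul, derivative_X_pow, derivative_C,
        derivative_X, eval_sub, eval_add, eval_mul, eval_X, eval_C, eval_pow, eval_zero, eval_one]
      norm_num
      ring
    have hmul : ∀ a b : K, a ∈ W → b ∈ W → a * b ∈ W := W.mul_mem
    have h3W : (-3 : K) ∈ W := by
      have h8 := hOW (-3)
      rwa [map_neg, map_ofNat] at h8
    have h2W : (2 : K) ∈ W := by
      have h8 := hOW 2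
      rwa [map_ofNat] at h8
    have hc1 : algebraMap O K C.a₁ - algebraMap O K C.a₂ * z ∈ W :=
      sub_mem (hOW _) (hmul _ _ (hOW _) hzW)
    have hc2 : -3 * algebraMap O K C.a₆ * w - 2 * (algebraMap O K C.a₄ * z -
        algebraMap O K C.a₃) ∈ W :=
      sub_mem (hmul _ _ (hmul _ _ h3W (hOW _)) hwW)
        (hmul _ _ h2W (sub_mem (hmul _ _ (hOW _) hzW) (hOW _)))
    have hu := unit_one_add (W := W) (nu_add (hmul _ _ hc1 hzW) (hmul _ _ hc2 hwW)
      (nu_mul_of_mem hc1 hzN) (nu_mul_of_mem hc2 hwN))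
      (W.add_mem _ _ (hmul _ _ hc1 hzW) (hmul _ _ hc2 hwW))
    have h2 := root_deriv (loc_V W) hSW hR hwW (Polynomial.C B3 * X ^ 3 +
        Polynomial.C B2 * X ^ 2 + Polynomial.C B1 * X + Polynomial.C B0) (by
      rw [v0]
      simp only [eval_sub, eval_add, eval_mul, eval_X, eval_C, eval_pow]
      linear_combination heq) (by rw [hd]; exact neg_ne_zero.2 hu.1) (by
      rw [hd, inv_neg]
      exact W.neg_mem _ hu.2)
    rwa [closure_two] at h2

end one

end Pool.Agent.X269.KP
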