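import Pool.Agent.X269.KP.EllReg

/-!
# Products of elliptic curves: regularity, continued
-/

set_option autoImplicit false

namespace Pool.Agent.X269.KP

open IsLocalRing Pool.Agent.Y223.INV Pool.Agent.W418.LU2 Pool.Agent.TH188.QS
  Pool.Agent.H918R2.Quad Pool.Agent.TH188.ARC Polynomial

variable {O K : Type} [CommRing O] [Field K] [Algebra O K] {ι : Type}
  {C : ι → WeierstrassCurve O} {x y : ι → K} {W : ValuationSubring K}

/-- The discriminant at a singular point with `a₆` in the square of the prime. -/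
lemma disc_sq (D : WeierstrassCurve O) (𝔭 : Ideal O) (h3 : D.a₃ ∈ 𝔭) (h4 : D.a₄ ∈ 𝔭)
    (h6 : D.a₆ ∈ 𝔭 ^ 2) : D.Δ ∈ 𝔭 ^ 2 := by
  have m : ∀ a b : O, a ∈ 𝔭 → b ∈ 𝔭 → a * b ∈ 𝔭 ^ 2 := fun a b ha hb => by
    rw [pow_two]; exact Ideal.mul_mem_mul ha hb
  have e : D.Δ = -(D.b₂ ^ 2) * ((D.a₁ ^ 2 + 4 * D.a₂) * D.a₆ + (-D.a₁) * (D.a₃ * D.a₄) +
      D.a₂ * (D.a₃ * D.a₃) - D.a₄ * D.a₄) - 8 * D.b₄ *
      ((2 * D.a₄ + D.a₁ * D.a₃) * (2 * D.a₄ + D.a₁ * D.a₃)) +
      (9 * D.b₂ * D.b₄ - 27 * D.b₆) * (D.a₃ * D.a₃ + 4 * D.a₆) := by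
    rw [WeierstrassCurve.Δ, WeierstrassCurve.b₈, WeierstrassCurve.b₂, WeierstrassCurve.b₄,
      WeierstrassCurve.b₆]
    ring
  have hb4 : 2 * D.a₄ + D.a₁ * D.a₃ ∈ 𝔭 :=
    𝔭.add_mem (𝔭.mul_mem_left _ h4) (𝔭.mul_mem_left _ h3)
  rw [e]
  refine Ideal.add_mem _ (Ideal.sub_mem _ (Ideal.mul_mem_left _ _ ?_) (Ideal.mul_mem_left _ _ ?_))
    (Ideal.mul_mem_left _ _ ?_)
  · exact Ideal.sub_mem _ (Ideal.add_mem _ (Ideal.add_mem _ (Ideal.mul_mem_left _ _ h6)
      (Ideal.mul_mem_left _ _ (m _ _ h3 h4))) (Ideal.mul_mem_left _ _ (m _ _ h3 h3)))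
      (m _ _ h4 h4)
  · exact m _ _ hb4 hb4
  · exact Ideal.add_mem _ (m _ _ h3 h3) (Ideal.mul_mem_left _ _ h6)

/-- The translate of the curve by a point. -/
def tr (D : WeierstrassCurve O) (x₀ y₀ : O) : WeierstrassCurve O where
  a₁ := D.a₁
  a₂ := D.a₂ + 3 * x₀
  a₃ := D.a₃ + x₀ * D.a₁ + 2 * y₀
  a₄ := D.a₄ + 2 * x₀ * D.a₂ - y₀ * D.a₁ + 3 * x₀ ^ 2
  a₆ := D.a₆ + x₀ * D.a₄ + x₀ ^ 2 * D.a₂ + x₀ ^ 3 - y₀ * D.a₃ - y₀ ^ 2 - x₀ * y₀ * D.a₁

lemma tr_Δ (D : WeierstrassCurve O) (x₀ y₀ : O) : (tr D x₀ y₀).Δ = D.Δ := by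
  simp only [WeierstrassCurve.Δ, WeierstrassCurve.b₈, WeierstrassCurve.b₂, WeierstrassCurve.b₄,
    WeierstrassCurve.b₆, tr]
  ring

lemma tr_eqn {D : WeierstrassCurve O} {x y : K} (x₀ y₀ : O) (h : Eqn D x y) :
    Eqn (tr D x₀ y₀) (x - algebraMap O K x₀) (y - algebraMap O K y₀) := by
  unfold Eqn at h ⊢
  simp only [tr, map_add, map_sub, map_mul, map_pow, map_ofNat]
  linear_combination h

/-- The singular point. -/
theorem bad_reg [IsDedekindDomain O] (hO : Function.Injective (algebraMap O K))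
    (hfin : ∀ 𝔭 : Ideal O, 𝔭.IsPrime → 𝔭 ≠ ⊥ → Finite (O ⧸ 𝔭))
    (hOW : ∀ o, algebraMap O K o ∈ W) {D : WeierstrassCurve O} {x y : K} (h : Eqn D x y)
    (hx : x ∈ W) (hy : y ∈ W) (hsq : ∀ 𝔭 : Ideal O, 𝔭.IsPrime → D.Δ ∉ 𝔭 ^ 2)
    (hs : ¬ Sm D x y W) (L : Subfield K) (hOL : ∀ o, algebraMap O K o ∈ L)
    (hxL : Transcendental L x) :
    IsRegularLocalRing (lo W.toSubring (Subring.closure
      (Set.range (algebraMap O K) ∪ {x, y}))) := by
  have hprime := pr_prime (O := O) W hOW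
  have hΔ0 : D.Δ ≠ 0 := by
    intro h1
    exact hsq ⊥ Ideal.isPrime_bot (by rw [h1]; exact Ideal.zero_mem _)
  obtain ⟨hΔ, x₀, y₀, hx₀, hy₀⟩ := sing_rat hfin hOW h hx hy hΔ0 hs
  have h' := tr_eqn x₀ y₀ h
  set D' := tr D x₀ y₀ with hD'
  set u := x - algebraMap O K x₀ with hu
  set v := y - algebraMap O K y₀ with hv
  have huW : u ∈ W := sub_mem hx (hOW _)
  have hvW : v ∈ W := sub_mem hy (hOW _)
  have hD'1 : D'.a₁ = D.a₁ := rfl
  have h2W : (2 : K) ∈ W := by
    have h8 := hOW 2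
    rwa [map_ofNat] at h8
  have hmul : ∀ a b : K, a ∈ W → b ∈ W → a * b ∈ W := W.mul_mem
  unfold Sm at hs
  push Not at hs
  -- the coefficients
  have ha3 : D'.a₃ ∈ pr O W hOW := by
    rw [mem_pr]
    have e1 : algebraMap O K D'.a₃ = (2 * y + algebraMap O K D.a₁ * x + algebraMap O K D.a₃) +
        (-2 * v + (-algebraMap O K D.a₁) * u) := by
      simp only [hD', tr, map_add, map_mul, map_ofNat, hu, hv]
      ring
    rw [e1]
    have hm2 : (-2 : K) ∈ W := W.neg_mem _ h2W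
    have hma : -algebraMap O K D.a₁ ∈ W := W.neg_mem _ (hOW _)
    refine nu_add ?_ ?_ hs.1 (nu_add (hmul _ _ hm2 hvW) (hmul _ _ hma huW)
      (nu_mul_of_mem hm2 hy₀) (nu_mul_of_mem hma hx₀))
    · exact W.add_mem _ _ (W.add_mem _ _ (hmul _ _ h2W hy) (hmul _ _ (hOW _) hx)) (hOW _)
    · exact W.add_mem _ _ (hmul _ _ hm2 hvW) (hmul _ _ hma huW)
  have h3W : (3 : K) ∈ W := by
    have h8 := hOW 3
    rwa [map_ofNat] at h8
  have ha4 : D'.a₄ ∈ pr O W hOW := by
    rw [mem_pr]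
    have e1 : algebraMap O K D'.a₄ = (3 * x ^ 2 + 2 * algebraMap O K D.a₂ * x +
        algebraMap O K D.a₄ - algebraMap O K D.a₁ * y) +
        ((-(3 * (x + algebraMap O K x₀) + 2 * algebraMap O K D.a₂)) * u +
          algebraMap O K D.a₁ * v) := by
      simp only [hD', tr, map_add, map_sub, map_mul, map_pow, map_ofNat, hu, hv]
      ring
    rw [e1]
    have hc : -(3 * (x + algebraMap O K x₀) + 2 * algebraMap O K D.a₂) ∈ W :=
      W.neg_mem _ (W.add_mem _ _ (hmul _ _ h3W (W.add_mem _ _ hx (hOW _))) (hmul _ _ h2W (hOW _)))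
    refine nu_add ?_ ?_ hs.2 (nu_add (hmul _ _ hc huW) (hmul _ _ (hOW _) hvW)
      (nu_mul_of_mem hc hx₀) (nu_mul_of_mem (hOW _) hy₀))
    · exact sub_mem (W.add_mem _ _ (W.add_mem _ _ (hmul _ _ h3W (pow_mem hx 2))
        (hmul _ _ (hmul _ _ h2W (hOW _)) hx)) (hOW _)) (hmul _ _ (hOW _) hy)
    · exact W.add_mem _ _ (hmul _ _ hc huW) (hmul _ _ (hOW _) hvW)
  have ha6 : D'.a₆ ∈ pr O W hOW := by
    rw [mem_pr]
    have h'' := h'
    unfold Eqn at h''
    have e1 : algebraMap O K D'.a₆ = (v + algebraMap O K D'.a₁ * u + algebraMap O K D'.a₃) * v +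
        (-(u ^ 2 + algebraMap O K D'.a₂ * u + algebraMap O K D'.a₄)) * u := by
      linear_combination -h''
    rw [e1]
    have hc : -(u ^ 2 + algebraMap O K D'.a₂ * u + algebraMap O K D'.a₄) ∈ W :=
      W.neg_mem _ (W.add_mem _ _ (W.add_mem _ _ (pow_mem huW 2) (hmul _ _ (hOW _) huW)) (hOW _))
    have hd : v + algebraMap O K D'.a₁ * u + algebraMap O K D'.a₃ ∈ W :=
      W.add_mem _ _ (W.add_mem _ _ hvW (hmul _ _ (hOW _) huW)) (hOW _)
    exact nu_add (hmul _ _ hd hvW) (hmul _ _ hc huW) (nu_mul_of_mem hd hy₀) (nu_mul_of_mem hc hx₀)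
  have hc2 : D'.a₆ ∉ pr O W hOW ^ 2 := by
    intro h1
    apply hsq _ hprime
    rw [← tr_Δ D x₀ y₀]
    exact disc_sq _ _ ha3 ha4 h1
  -- the base
  have hR0 := (base_reg hO W hOW).2 D'.a₆ ha6 hc2
  have hS0 : (algebraMap O K).range ≤ W.toSubring := by
    rintro _ ⟨o, rfl⟩
    exact hOW o
  have huL : Transcendental L u := by
    intro h1
    apply hxL
    have h2 : x = u + algebraMap O K x₀ := by rw [hu]; ring
    rw [h2]
    exact h1.add (isAlgebraic_algebraMap (⟨algebraMap O K x₀, hOL x₀⟩ : L))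
  have hR1 := trans_step hS0 hR0 L (by
    rintro _ ⟨o, rfl⟩
    exact hOL o) huW huL
  set S1 : Subring K := Subring.closure (insert u ((algebraMap O K).range : Set K)) with hS1
  have hS1W : S1 ≤ W.toSubring := by
    rw [hS1, Subring.closure_le]
    rintro t (rfl | ht)
    · exact huW
    · exact hS0 ht
  have hOS1 : ∀ o, algebraMap O K o ∈ S1 := fun o =>
    Subring.subset_closure (Set.mem_insert_of_mem _ ⟨o, rfl⟩)
  have huS1 : u ∈ S1 := Subring.subset_closure (Set.mem_insert _ _)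
  let i : ∀ z ∈ S1, lo W.toSubring S1 := fun z hz => ⟨z, le_lo _ _ hz⟩
  let U := i u huS1
  let A1 := i _ (hOS1 D'.a₁)
  let A2 := i _ (hOS1 D'.a₂)
  let A3 := i _ (hOS1 D'.a₃)
  let A4 := i _ (hOS1 D'.a₄)
  let A6 := i _ (hOS1 D'.a₆)
  have hlo : ∀ z (hz : z ∈ S1), (lo W.toSubring S1).subtype (i z hz) = z := fun z hz => rfl
  have hR2 := root_const (loc_V W) hS1W hR1 hvW
    (C A6 + (C U * C U * C U + C A2 * (C U * C U) + C A4 * C U) - X * X -
      (C A1 * (C U * X) + C A3 * X)) (by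
    simp only [eval₂_sub, eval₂_add, eval₂_mul, eval₂_C, eval₂_X]
    rw [show (lo W.toSubring S1).subtype U = u from rfl,
      show (lo W.toSubring S1).subtype A1 = algebraMap O K D'.a₁ from rfl,
      show (lo W.toSubring S1).subtype A2 = algebraMap O K D'.a₂ from rfl,
      show (lo W.toSubring S1).subtype A3 = algebraMap O K D'.a₃ from rfl,
      show (lo W.toSubring S1).subtype A4 = algebraMap O K D'.a₄ from rfl,
      show (lo W.toSubring S1).subtype A6 = algebraMap O K D'.a₆ from rfl]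
    unfold Eqn at h'
    linear_combination -h') (Sum.inl ()) (by
    have ad := adj_closure (loc_V W) hS1W hvW
    have hloc1 : IsLocalRing (lo W.toSubring S1) := hR1.reg.toIsLocalRing
    have e1 : (C A6 + (C U * C U * C U + C A2 * (C U * C U) + C A4 * C U) - X * X -
      (C A1 * (C U * X) + C A3 * X) : (lo W.toSubring S1)[X]) -
        C ⟨_, hR1.mem (Sum.inl ())⟩ = C U * (C U * C U) + C A2 * (C U * C U) + C A4 * C U - X * X -
      (C A1 * (C U * X) + C A3 * X) := by
      change (C A6 + (C U * C U * C U + C A2 * (C U * C U) + C A4 * C U) - X * X -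
      (C A1 * (C U * X) + C A3 * X) : (lo W.toSubring S1)[X]) - C A6 = _
      ring
    have hCm : ∀ z : lo W.toSubring S1, NU W.toSubring (z : K) → C z ∈ ad.P := by
      intro z hz
      have h1 : z ∈ ad.P.comap C := by
        rw [ad.comap_P, mem_maximalIdeal, mem_nonunits_iff, isUnit_lo_iff hS1W]
        exact hz
      exact h1
    have hU : C U ∈ ad.P := hCm _ hx₀
    have hA3 : C A3 ∈ ad.P := hCm _ (mem_pr.1 ha3)
    have hA4 : C A4 ∈ ad.P := hCm _ (mem_pr.1 ha4)
    have hX : X ∈ ad.P := by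
      rw [ad.X_mem]
      exact hy₀
    have m : ∀ a b : (lo W.toSubring S1)[X], a ∈ ad.P → b ∈ ad.P → a * b ∈ ad.P ^ 2 :=
      fun a b ha hb => by rw [pow_two]; exact Ideal.mul_mem_mul ha hb
    rw [e1]
    refine Ideal.sub_mem _ (Ideal.sub_mem _ (Ideal.add_mem _ (Ideal.add_mem _ ?_ ?_) ?_) ?_)
      (Ideal.add_mem _ ?_ ?_)
    · exact Ideal.mul_mem_left _ _ (m _ _ hU hU)
    · exact Ideal.mul_mem_left _ _ (m _ _ hU hU)
    · exact m _ _ hA4 hU
    · exact m _ _ hX hX
    · exact Ideal.mul_mem_left _ _ (m _ _ hU hX)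
    · exact m _ _ hA3 hX)
  have hcl : Subring.closure (insert v (S1 : Set K)) =
      Subring.closure (Set.range (algebraMap O K) ∪ {x, y}) := by
    rw [hS1, closure_insert']
    apply le_antisymm
    · rw [Subring.closure_le]
      have hO' : ∀ o, algebraMap O K o ∈ Subring.closure (Set.range (algebraMap O K) ∪ {x, y}) :=
        fun o => Subring.subset_closure (Or.inl ⟨o, rfl⟩)
      rintro t (rfl | rfl | ⟨o, rfl⟩)
      · exact Subring.sub_mem _ (Subring.subset_closure (by simp)) (hO' _)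
      · exact Subring.sub_mem _ (Subring.subset_closure (by simp)) (hO' _)
      · exact hO' o
    · rw [Subring.closure_le]
      have hO' : ∀ o, algebraMap O K o ∈ Subring.closure (insert v (insert u
          ((algebraMap O K).range : Set K))) :=
        fun o => Subring.subset_closure (Or.inr (Or.inr ⟨o, rfl⟩))
      have hu' : u ∈ Subring.closure (insert v (insert u ((algebraMap O K).range : Set K))) :=
        Subring.subset_closure (by simp)
      have hv' : v ∈ Subring.closure (insert v (insert u ((algebraMap O K).range : Set K))) :=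
        Subring.subset_closure (by simp)
      rintro t (⟨o, rfl⟩ | rfl | rfl)
      · exact hO' o
      · have h1 := Subring.add_mem _ hu' (hO' x₀)
        rwa [hu, sub_add_cancel] at h1
      · have h1 := Subring.add_mem _ hv' (hO' y₀)
        rwa [hv, sub_add_cancel] at h1
  rwa [hcl] at hR2

variable {E : Type} [Field E] [Algebra E K]

/-- Adjoining smooth curves. -/
theorem ell_chain [DecidableEq ι] (hE : ∀ i, Eqn (C i) (x i) (y i))
    (hOW : ∀ o, algebraMap O K o ∈ W) (hOE : ∀ s o, algebraMap O K o ∈ LF E x s)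
    (hx : AlgebraicIndependent E x) (s₀ : Finset ι) (B : Set K) (hBW : B ⊆ (W : Set K))
    (hOB : Set.range (algebraMap O K) ⊆ B) (hBL : ∀ s, s₀ ⊆ s → ∀ z ∈ B, z ∈ LF E x s)
    (hreg : IsRegularLocalRing (lo W.toSubring (Subring.closure B)))
    (hsm : ∀ i, i ∉ s₀ → x i ∈ W ∧ y i ∈ W → Sm (C i) (x i) (y i) W) (J : Finset ι) :
    (∀ i ∈ J, i ∉ s₀) → IsRegularLocalRing (lo W.toSubring (Subring.closure
      (B ∪ {t | ∃ i ∈ J, t ∈ eg (x i) (y i) W}))) := by
  induction J using Finset.induction_on with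
  | empty =>
    intro _
    have h1 : (B ∪ {t | ∃ i ∈ (∅ : Finset ι), t ∈ eg (x i) (y i) W}) = B := by
      ext t
      simp
    rw [h1]
    exact hreg
  | insert i J hi ih =>
    intro hJ
    have hJ' : ∀ j ∈ J, j ∉ s₀ := fun j hj => hJ j (Finset.mem_insert_of_mem hj)
    have hi0 : i ∉ s₀ := hJ i (Finset.mem_insert_self _ _)
    have h1 := ih hJ'
    set S := Subring.closure (B ∪ {t | ∃ i ∈ J, t ∈ eg (x i) (y i) W}) with hS
    have hSW : S ≤ W.toSubring := by
      rw [hS, Subring.closure_le]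
      rintro t (ht | ⟨j, -, ht⟩)
      · exact hBW ht
      · exact eg_sub hOW (hE j) ht
    set L := LF E x (s₀ ∪ J : Finset ι) with hL
    have hLalg : ∀ t, IsAlgebraic L t → t ∈ L := fun t ht => LF_alg ht
    have hyL : ∀ j ∈ J, x j ∈ L ∧ y j ∈ L := by
      intro j hj
      have h2 : x j ∈ L := self_mem_LF (by simp [hj])
      exact ⟨h2, y_mem_L hLalg (hOE _) (hE j) h2⟩
    have hSL : ∀ z ∈ S, z ∈ L := by
      have h2 : S ≤ L.toSubring := by
        rw [hS, Subring.closure_le]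
        rintro t (ht | ⟨j, hj, ht⟩)
        · exact hBL _ (by simp) t ht
        · obtain ⟨h3, h4⟩ := hyL j hj
          by_cases hn : x j ∈ W ∧ y j ∈ W
          · rw [eg_aff hn] at ht
            rcases ht with rfl | rfl
            · exact h3
            · exact h4
          · rw [eg_inf hn] at ht
            rcases ht with rfl | rfl
            · exact L.div_mem h3 h4
            · exact L.inv_mem h4
      exact fun z hz => h2 hz
    have hiL : i ∉ ((s₀ ∪ J : Finset ι) : Set ι) := by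
      simp only [Finset.coe_union, Set.mem_union, Finset.mem_coe, not_or]
      exact ⟨hi0, hi⟩
    have hxL : x i ∉ L := notMem_LF hx hiL
    have hyL' : y i ∉ L := fun h => hxL (x_mem_L hLalg (hOE _) (hE i) h)
    have hx0 : x i ≠ 0 := fun h => hxL (by rw [h]; exact L.zero_mem)
    have hy0 : y i ≠ 0 := fun h => hyL' (by rw [h]; exact L.zero_mem)
    have hzL : x i / y i ∉ L := fun h => hxL (xy_mem_L hLalg (hOE _) (hE i) hx0 hy0 h)
    have h2 := ell_step hOW (hE i) hSW (fun o => Subring.subset_closure (Or.inl (hOB ⟨o, rfl⟩)))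
      h1 L hSL (trans_iff.2 hxL) (trans_iff.2 hyL') (trans_iff.2 hzL) (hsm i hi0)
    have h3 : Subring.closure ((S : Set K) ∪ eg (x i) (y i) W) = Subring.closure
        (B ∪ {t | ∃ j ∈ insert i J, t ∈ eg (x j) (y j) W}) := by
      apply le_antisymm
      · rw [Subring.closure_le]
        rintro t (ht | ht)
        · refine (Subring.closure_mono ?_ : S ≤ _) ht
          rintro t (ht | ⟨j, hj, ht⟩)
          · exact Or.inl ht
          · exact Or.inr ⟨j, Finset.mem_insert_of_mem hj, ht⟩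
        · exact Subring.subset_closure (Or.inr ⟨i, Finset.mem_insert_self _ _, ht⟩)
      · rw [Subring.closure_le]
        rintro t (ht | ⟨j, hj, ht⟩)
        · exact Subring.subset_closure (Or.inl (Subring.subset_closure (Or.inl ht)))
        · rw [Finset.mem_insert] at hj
          rcases hj with rfl | hj
          · exact Subring.subset_closure (Or.inr ht)
          · exact Subring.subset_closure (Or.inl (Subring.subset_closure (Or.inr ⟨j, hj, ht⟩)))
    rwa [h3] at h2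

/-- The product of the curves is regular. -/
theorem ell_reg [DecidableEq ι] [Fintype ι] [IsDedekindDomain O] [Algebra O E]
    [IsScalarTower O E K] (hO : Function.Injective (algebraMap O K))
    (hfin : ∀ 𝔭 : Ideal O, 𝔭.IsPrime → 𝔭 ≠ ⊥ → Finite (O ⧸ 𝔭))
    (hx : AlgebraicIndependent E x) (hE : ∀ i, Eqn (C i) (x i) (y i))
    (hsq : ∀ i, ∀ 𝔭 : Ideal O, 𝔭.IsPrime → (C i).Δ ∉ 𝔭 ^ 2)
    (hco : ∀ i j, i ≠ j → ∀ 𝔭 : Ideal O, 𝔭.IsPrime → (C i).Δ ∈ 𝔭 → (C j).Δ ∉ 𝔭)
    (hOW : ∀ o, algebraMap O K o ∈ W) :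
    IsRegularLocalRing (lo W.toSubring (Subring.closure (GS O x y W))) := by
  classical
  have hprime := pr_prime (O := O) W hOW
  have hOE : ∀ s o, algebraMap O K o ∈ LF E x s := by
    intro s o
    rw [IsScalarTower.algebraMap_apply O E K]
    exact algebraMap_mem_LF _
  have hcr : Subring.closure (Set.range (algebraMap O K)) = (algebraMap O K).range := by
    rw [← RingHom.coe_range]
    exact Subring.closure_eq _
  by_cases hb : ∃ b, (x b ∈ W ∧ y b ∈ W) ∧ ¬ Sm (C b) (x b) (y b) W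
  · obtain ⟨b, ⟨hbx, hby⟩, hb⟩ := hb
    have hΔb : (C b).Δ ∈ pr O W hOW := by
      by_contra h1
      exact hb (sm_of_disc hOW (hE b) hbx hby h1)
    have hreg := bad_reg hO hfin hOW (hE b) hbx hby (hsq b) hb (LF E x ∅) (hOE _)
      (trans_iff.2 (notMem_LF hx (Set.notMem_empty b)))
    have h1 := ell_chain hE hOW hOE hx {b} (Set.range (algebraMap O K) ∪ {x b, y b}) (by
      rintro t (⟨o, rfl⟩ | rfl | rfl)
      · exact hOW o
      · exact hbx
      · exact hby) Set.subset_union_left (by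
      intro s hs
      have h2 : x b ∈ LF E x s := self_mem_LF (hs (Finset.mem_singleton_self b))
      rintro t (⟨o, rfl⟩ | rfl | rfl)
      · exact hOE _ o
      · exact h2
      · exact y_mem_L (fun t ht => LF_alg ht) (hOE _) (hE b) h2) hreg (by
      intro i hi hxy
      refine sm_of_disc hOW (hE i) hxy.1 hxy.2 (hco b i ?_ _ hprime hΔb)
      rintro rfl
      exact hi (Finset.mem_singleton_self _)) (Finset.univ.erase b) (by
      intro i hi
      rw [Finset.mem_singleton]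
      exact Finset.ne_of_mem_erase hi)
    have h2 : (Set.range (algebraMap O K) ∪ {x b, y b} ∪
        {t | ∃ i ∈ Finset.univ.erase b, t ∈ eg (x i) (y i) W}) = GS O x y W := by
      ext t
      constructor
      · rintro ((ht | ht) | ⟨i, -, ht⟩)
        · exact Or.inl ht
        · exact Or.inr ⟨b, by rw [eg_aff ⟨hbx, hby⟩]; exact ht⟩
        · exact Or.inr ⟨i, ht⟩
      · rintro (ht | ⟨i, ht⟩)
        · exact Or.inl (Or.inl ht)
        · by_cases hi : i = b
          · subst hi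
            rw [eg_aff ⟨hbx, hby⟩] at ht
            exact Or.inl (Or.inr ht)
          · exact Or.inr ⟨i, Finset.mem_erase.2 ⟨hi, Finset.mem_univ _⟩, ht⟩
    rwa [h2] at h1
  · push Not at hb
    have h1 := ell_chain hE hOW hOE hx ∅ (Set.range (algebraMap O K)) (by
      rintro _ ⟨o, rfl⟩
      exact hOW o) le_rfl (by
      rintro s - _ ⟨o, rfl⟩
      exact hOE _ o) (by rw [hcr]; exact (base_reg hO W hOW).1) (fun i _ hxy => hb i hxy)
      Finset.univ (by simp)
    have h2 : (Set.range (algebraMap O K) ∪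
        {t | ∃ i ∈ Finset.univ, t ∈ eg (x i) (y i) W}) = GS O x y W := by
      ext t
      simp [GS]
    rwa [h2] at h1

end Pool.Agent.X269.KP
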