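import Pool.Agent.X269.KP.EllChain

/-!
# Products of elliptic curves: the fixed points
-/

set_option autoImplicit false

namespace Pool.Agent.X269.KP

open IsLocalRing Pool.Agent.Y223.INV Pool.Agent.W418.LU2 Pool.Agent.TH188.QS
  Pool.Agent.H918R2.Quad Pool.Agent.TH188.ARC Polynomial

variable {O K : Type} [CommRing O] [Field K] [Algebra O K]

section one

variable {C : WeierstrassCurve O} {x y : K} {W : ValuationSubring K} {Q : Subring K}

lemma not_nu_add {a b : K} (ha : a ∈ W) (hb : b ∈ W) (h : ¬ NU W.toSubring a)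
    (hbN : NU W.toSubring b) : ¬ NU W.toSubring (a + b) := by
  intro h1
  apply h
  have h2 : NU W.toSubring ((a + b) + (-b)) :=
    nu_add (W.add_mem _ _ ha hb) (W.neg_mem _ hb) h1 (by
      rw [neg_eq_neg_one_mul]
      exact nu_mul_of_mem (W.neg_mem _ W.one_mem) hbN)
  rwa [add_neg_cancel_right] at h2

lemma not_nu_mul {a b : K} (h : ¬ NU W.toSubring a) (hab : NU W.toSubring (a * b)) :
    NU W.toSubring b := by
  by_contra h1
  rw [nu_iff] at h h1
  apply hab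
  refine ⟨mul_ne_zero h.1 h1.1, ?_⟩
  change _ ∈ W
  rw [mul_inv]
  exact W.mul_mem _ _ h.2 h1.2

/-- The analysis of a fixed point. -/
theorem ell_local (hOW : ∀ o, algebraMap O K o ∈ W) (hE : Eqn C x y) (hQW : Q ≤ W.toSubring)
    (hIC : IC W.toSubring Q) (hOQ : ∀ o, algebraMap O K o ∈ Q) (hgQ : eg x y W ⊆ (Q : Set K))
    (ha1 : ¬ NU W.toSubring (algebraMap O K C.a₁)) (ha4 : ¬ NU W.toSubring (algebraMap O K C.a₄))
    {c3 c6 : O} (hc3 : C.a₃ = 4 * c3) (hc6 : C.a₆ = 4 * c6) (σ : K ≃ₐ[O] K) (hσx : σ x = x)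
    (hσy : σ y = -y - algebraMap O K C.a₁ * x - algebraMap O K C.a₃)
    (h2N : NU W.toSubring (2 : K)) (hfx : ∀ x ∈ Q, σ x ∈ Q ∧ NU W.toSubring (σ x - x)) :
    ∃ z w : K, (∀ t, t ∈ eg x y W ↔ t = z ∨ t = w) ∧ z ∈ Q ∧ w ∈ Q ∧ NU W.toSubring z ∧
      NU W.toSubring w ∧ ∀ 𝔞 : Ideal Q, Im 𝔞 z → Im 𝔞 w → Im 𝔞 2 →
        Im (𝔞 ^ 2) w ∧ Im (𝔞 ^ 2) (σ z - z) ∧ Im (𝔞 ^ 2) (σ w - w) ∧
        ∃ p q s : K, p ∈ Q ∧ Im 𝔞 q ∧ Im (𝔞 ^ 3) s ∧ z ^ 2 = p * (σ z - z) + 2 * q + s := by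
  set A1 := algebraMap O K C.a₁ with hA1
  set A2 := algebraMap O K C.a₂ with hA2
  set A3 := algebraMap O K C.a₃ with hA3
  set A4 := algebraMap O K C.a₄ with hA4
  set A6 := algebraMap O K C.a₆ with hA6
  have hA3' : A3 = 4 * algebraMap O K c3 := by rw [hA3, hc3, map_mul, map_ofNat]
  have hA6' : A6 = 4 * algebraMap O K c6 := by rw [hA6, hc6, map_mul, map_ofNat]
  have q1 : A1 ∈ Q := hOQ _
  have q2 : A2 ∈ Q := hOQ _
  have q3 : A3 ∈ Q := hOQ _
  have q4 : A4 ∈ Q := hOQ _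
  have q6 : A6 ∈ Q := hOQ _
  have qt : (2 : K) ∈ Q := by
    have h := hOQ 2
    rwa [map_ofNat] at h
  have qf : (4 : K) ∈ Q := by
    have h := hOQ 4
    rwa [map_ofNat] at h
  have mulW : ∀ a b : K, a ∈ W → b ∈ W → a * b ∈ W := W.mul_mem
  have mulQ : ∀ a b : K, a ∈ Q → b ∈ Q → a * b ∈ Q := fun a b => Q.mul_mem
  have addQ : ∀ a b : K, a ∈ Q → b ∈ Q → a + b ∈ Q := fun a b => Q.add_mem
  have subQ : ∀ a b : K, a ∈ Q → b ∈ Q → a - b ∈ Q := fun a b => Q.sub_mem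
  have QW : ∀ a ∈ Q, a ∈ W := fun a ha => hQW ha
  have nuM : ∀ a b : K, a ∈ Q → NU W.toSubring b → NU W.toSubring (a * b) := fun a b ha hb =>
    nu_mul_of_mem (QW a ha) hb
  have invQ : ∀ a ∈ Q, ¬ NU W.toSubring a → a ≠ 0 ∧ a⁻¹ ∈ Q := by
    intro a ha h
    rw [nu_iff] at h
    exact ⟨h.1, hIC a ha h.1 h.2⟩
  obtain ⟨hA10, hA1i⟩ := invQ A1 q1 ha1
  have h4N : NU W.toSubring (4 : K) := by
    have h := nuM 2 2 qt h2N
    rwa [show (2 : K) * 2 = 4 by norm_num] at h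
  have h3N : NU W.toSubring A3 := by
    rw [hA3', mul_comm]
    exact nuM _ _ (hOQ _) h4N
  have hE' := hE
  unfold Eqn at hE'
  by_cases hn : x ∈ W ∧ y ∈ W
  · -- the affine chart
    have hset := eg_aff hn
    have hx : x ∈ Q := hgQ (by rw [hset]; simp)
    have hy : y ∈ Q := hgQ (by rw [hset]; simp)
    have hδy : σ y - y = -2 * y - A1 * x - A3 := by rw [hσy]; ring
    have hxN : NU W.toSubring x := by
      refine not_nu_mul ha1 ?_
      have h1 : A1 * x = (-1) * (σ y - y) + (y * (-2) - A3) := by rw [hδy]; ring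
      have hm1 : (-1 : K) ∈ Q := Q.neg_mem Q.one_mem
      have hm2 : NU W.toSubring (-2 : K) := by
        rw [show (-2 : K) = (-1) * 2 by norm_num]
        exact nuM _ _ hm1 h2N
      have h3N' : NU W.toSubring (-A3) := by
        rw [neg_eq_neg_one_mul]
        exact nuM _ _ hm1 h3N
      rw [h1, sub_eq_add_neg (y * (-2))]
      have hδQ := (Q.sub_mem (hfx y hy).1 hy)
      have hm2Q : (-2 : K) ∈ Q := Q.neg_mem qt
      exact nu_add (QW _ (mulQ _ _ hm1 hδQ)) (QW _ (addQ _ _ (mulQ _ _ hy hm2Q) (Q.neg_mem q3)))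
        (nuM _ _ hm1 (hfx y hy).2) (nu_add (QW _ (mulQ _ _ hy hm2Q)) (QW _ (Q.neg_mem q3))
          (nuM _ _ hy hm2) h3N')
    have hyN : NU W.toSubring y := by
      by_contra h
      apply h
      refine not_nu_mul h ?_
      have h1 : y * y = (x ^ 2 + A2 * x + A4 - A1 * y) * x + (A6 - y * A3) := by
        linear_combination hE'
      have h6N : NU W.toSubring A6 := by
        rw [hA6', mul_comm]
        exact nuM _ _ (hOQ _) h4N
      have h5 : x ^ 2 + A2 * x + A4 - A1 * y ∈ Q :=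
        subQ _ _ (addQ _ _ (addQ _ _ (Q.pow_mem hx 2) (mulQ _ _ q2 hx)) q4) (mulQ _ _ q1 hy)
      have h7N : NU W.toSubring ((-y) * A3) := nuM _ _ (Q.neg_mem hy) h3N
      rw [h1, show A6 - y * A3 = A6 + (-y) * A3 by ring]
      exact nu_add (QW _ (mulQ _ _ h5 hx)) (QW _ (addQ _ _ q6 (mulQ _ _ (Q.neg_mem hy) q3)))
        (nuM _ _ h5 hxN) (nu_add (QW _ q6) (QW _ (mulQ _ _ (Q.neg_mem hy) q3)) h6N h7N)
    -- the unit
    have hb : (A2 + x) * x + (-A1) * y ∈ Q :=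
      addQ _ _ (mulQ _ _ (addQ _ _ q2 hx) hx) (mulQ _ _ (Q.neg_mem q1) hy)
    have hbN : NU W.toSubring ((A2 + x) * x + (-A1) * y) :=
      nu_add (QW _ (mulQ _ _ (addQ _ _ q2 hx) hx)) (QW _ (mulQ _ _ (Q.neg_mem q1) hy))
        (nuM _ _ (addQ _ _ q2 hx) hxN) (nuM _ _ (Q.neg_mem q1) hyN)
    have he := invQ _ (addQ _ _ q4 hb) (not_nu_add (QW _ q4) (QW _ hb) ha4 hbN)
    set e := A4 + ((A2 + x) * x + (-A1) * y) with he'
    obtain ⟨he0, hei⟩ := he
    have heQ : e ∈ Q := addQ _ _ q4 hb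
    have hex : e * x = y ^ 2 + A3 * y - A6 := by
      rw [he']
      linear_combination -hE'
    refine ⟨y, x, ?_, hy, hx, hyN, hxN, ?_⟩
    · intro t
      rw [hset]
      simp only [Set.mem_insert_iff, Set.mem_singleton_iff]
      tauto
    intro 𝔞 iy ix i2
    have i4 : Im (𝔞 ^ 2) (4 : K) := by
      have := i2.sq i2
      rwa [show (2 : K) * 2 = 4 by norm_num] at this
    have hx2 : Im (𝔞 ^ 2) x := by
      have h1 : x = e⁻¹ * (y * y + y * algebraMap O K c3 * 4 - algebraMap O K c6 * 4) := by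
        rw [eq_inv_mul_iff_mul_eq₀ he0, hex, hA3', hA6']
        ring
      rw [h1]
      exact (((iy.sq iy).add (i4.mul_left (mulQ _ _ hy (hOQ _)))).sub
        (i4.mul_left (hOQ _))).mul_left hei
    refine ⟨hx2, ?_, ?_, -(e * A1⁻¹), -(e * A1⁻¹) * (y + algebraMap O K c3 * 2) -
      (algebraMap O K c3 * y) * 2 + algebraMap O K c6 * 2, 0, ?_, ?_, Im.zero, ?_⟩
    · have h1 : σ y - y = (-1) * (2 * y) - A1 * x - algebraMap O K c3 * 4 := by
        rw [hδy, hA3']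
        ring
      rw [h1]
      exact (((i2.sq iy).mul_left (Q.neg_mem Q.one_mem)).sub (hx2.mul_left q1)).sub
        (i4.mul_left (hOQ _))
    · rw [hσx, sub_self]
      exact Im.zero
    · exact Q.neg_mem (mulQ _ _ heQ hA1i)
    · exact (((iy.add (i2.mul_left (hOQ _))).mul_left (Q.neg_mem (mulQ _ _ heQ hA1i))).sub
        (i2.mul_left (mulQ _ _ (hOQ _) hy))).add (i2.mul_left (hOQ _))
    · rw [hδy]
      have h1 : e * x = e * A1⁻¹ * (A1 * x) := by
        field_simp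
      have h2 : y ^ 2 = e * A1⁻¹ * (A1 * x) - A3 * y + A6 := by
        rw [← h1, hex]
        ring
      rw [h2, hA3', hA6']
      ring
  · -- the point at infinity
    have hset := eg_inf hn
    obtain ⟨hyW, hzW, hzN⟩ := inf_spec hOW hE hn
    have hy0 := ne_zero_of_not hyW
    have hwN := nu_of_not_mem hyW
    have hz : x / y ∈ Q := hgQ (by rw [hset]; simp)
    have hw : y⁻¹ ∈ Q := hgQ (by rw [hset]; simp)
    have heq := eqn_inf hE hy0
    rw [← hA1, ← hA2, ← hA3, ← hA4, ← hA6] at heq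
    set z := x / y with hzdef
    set w := y⁻¹ with hwdef
    -- the first unit
    have hbQ : A1 * z + A3 * w ∈ Q := addQ _ _ (mulQ _ _ q1 hz) (mulQ _ _ q3 hw)
    have hbN : NU W.toSubring (A1 * z + A3 * w) :=
      nu_add (QW _ (mulQ _ _ q1 hz)) (QW _ (mulQ _ _ q3 hw)) (nuM _ _ q1 hzN) (nuM _ _ q3 hwN)
    set b := A1 * z + A3 * w with hbdef
    obtain ⟨hb0, hbi⟩ := invQ _ (addQ _ _ Q.one_mem hbQ)
      (not_nu_add W.one_mem (QW _ hbQ) not_nu_one hbN)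
    -- the second unit
    have hcQ : (A1 - A2 * z - A4 * w) * z + (A3 - A6 * w) * w ∈ Q :=
      addQ _ _ (mulQ _ _ (subQ _ _ (subQ _ _ q1 (mulQ _ _ q2 hz)) (mulQ _ _ q4 hw)) hz)
        (mulQ _ _ (subQ _ _ q3 (mulQ _ _ q6 hw)) hw)
    have hcN : NU W.toSubring ((A1 - A2 * z - A4 * w) * z + (A3 - A6 * w) * w) :=
      nu_add (QW _ (mulQ _ _ (subQ _ _ (subQ _ _ q1 (mulQ _ _ q2 hz)) (mulQ _ _ q4 hw)) hz))
        (QW _ (mulQ _ _ (subQ _ _ q3 (mulQ _ _ q6 hw)) hw))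
        (nuM _ _ (subQ _ _ (subQ _ _ q1 (mulQ _ _ q2 hz)) (mulQ _ _ q4 hw)) hzN)
        (nuM _ _ (subQ _ _ q3 (mulQ _ _ q6 hw)) hwN)
    set c := (A1 - A2 * z - A4 * w) * z + (A3 - A6 * w) * w with hcdef
    obtain ⟨hc0, hci⟩ := invQ _ (addQ _ _ Q.one_mem hcQ)
      (not_nu_add W.one_mem (QW _ hcQ) not_nu_one hcN)
    have hwz : (1 + c) * w = z ^ 3 := by
      rw [hcdef]
      linear_combination -heq
    have hσz : σ z = -z * (1 + b)⁻¹ := by
      rw [eq_mul_inv_iff_mul_eq₀ hb0, hzdef, map_div₀, hσx, hσy]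
      have h1 : -y - A1 * x - A3 = -(y * (1 + b)) := by
        rw [hbdef, hzdef, hwdef]
        field_simp
        ring
      rw [h1]
      field_simp
    have hσw : σ w = -w * (1 + b)⁻¹ := by
      rw [eq_mul_inv_iff_mul_eq₀ hb0, hwdef, map_inv₀, hσy]
      have h1 : -y - A1 * x - A3 = -(y * (1 + b)) := by
        rw [hbdef, hzdef, hwdef]
        field_simp
        ring
      rw [h1]
      field_simp
    refine ⟨z, w, ?_, hz, hw, hzN, hwN, ?_⟩
    · intro t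
      rw [hset]
      simp only [Set.mem_insert_iff, Set.mem_singleton_iff]
    intro 𝔞 iz iw i2
    have iz2 := iz.sq iz
    have iw3 : Im (𝔞 ^ 3) w := by
      have h1 : w = (1 + c)⁻¹ * (z * (z * z)) := by
        rw [eq_inv_mul_iff_mul_eq₀ hc0, hwz]
        ring
      rw [h1, pow_succ' 𝔞 2]
      exact (iz.mul iz2).mul_left hci
    have iw2 : Im (𝔞 ^ 2) w := iw3.mono (Ideal.pow_le_pow_right (by norm_num))
    have ib : Im 𝔞 b := (iz.mul_left q1).add (iw.mul_left q3)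
    refine ⟨iw2, ?_, ?_, -(A1⁻¹ * (1 + b)), -A1⁻¹ * z, -(A1⁻¹ * A3 * z) * w, ?_, ?_, ?_, ?_⟩
    · have h1 : σ z - z = -(1 + b)⁻¹ * (z * (2 + b)) := by
        rw [hσz]
        field_simp
        ring
      rw [h1]
      exact (iz.sq (i2.add ib)).mul_left (Q.neg_mem hbi)
    · have h1 : σ w - w = -(1 + b)⁻¹ * (w * (2 + b)) := by
        rw [hσw]
        field_simp
        ring
      rw [h1]
      exact (iw.sq (i2.add ib)).mul_left (Q.neg_mem hbi)
    · exact Q.neg_mem (mulQ _ _ hA1i (addQ _ _ Q.one_mem hbQ))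
    · exact iz.mul_left (Q.neg_mem hA1i)
    · exact iw3.mul_left (Q.neg_mem (mulQ _ _ (mulQ _ _ hA1i q3) hz))
    · rw [hσz]
      have h1 : -(A1⁻¹ * (1 + b)) * (-z * (1 + b)⁻¹ - z) = A1⁻¹ * (z * (2 + b)) := by
        field_simp
        ring
      rw [h1, hbdef]
      field_simp
      ring

end one

end Pool.Agent.X269.KP
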