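import Pool.Agent.X269.KP.EllMain

/-!
# Regular proper models of the Kummer varieties of products of elliptic curves: general equations
-/

set_option autoImplicit false

namespace Pool.Agent.X269.KP

open IsLocalRing Pool.Agent.Y223.INV Pool.Agent.H918R2.Quad AlgebraicGeometry CategoryTheory

/-- Translation of algebraically independent elements. -/
lemma indep_sub {E K ι : Type} [Field E] [Field K] [Algebra E K] {x : ι → K}
    (hx : AlgebraicIndependent E x) (c : ι → E) :
    AlgebraicIndependent E fun i => x i - algebraMap E K (c i) := by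
  rw [algebraicIndependent_iff] at hx ⊢
  intro p hp
  have h1 : MvPolynomial.aeval x (MvPolynomial.aeval
      (fun i => MvPolynomial.X i - MvPolynomial.C (c i)) p : MvPolynomial ι E) = 0 := by
    have h2 : (MvPolynomial.aeval x).comp (MvPolynomial.aeval
        (fun i => (MvPolynomial.X i - MvPolynomial.C (c i) : MvPolynomial ι E))) =
        MvPolynomial.aeval (fun i => x i - algebraMap E K (c i)) := by
      apply MvPolynomial.algHom_ext
      intro i
      rw [AlgHom.comp_apply, MvPolynomial.aeval_X, MvPolynomial.aeval_X, map_sub,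
        MvPolynomial.aeval_X, MvPolynomial.aeval_C]
    rw [← AlgHom.comp_apply, h2]
    exact hp
  have h3 := hx _ h1
  have h4 := congrArg (MvPolynomial.aeval
    (fun i => (MvPolynomial.X i + MvPolynomial.C (c i) : MvPolynomial ι E))) h3
  have h5 : (MvPolynomial.aeval
      (fun i => (MvPolynomial.X i + MvPolynomial.C (c i) : MvPolynomial ι E))).comp
      (MvPolynomial.aeval (fun i => (MvPolynomial.X i - MvPolynomial.C (c i) :
        MvPolynomial ι E))) = AlgHom.id E _ := by
    apply MvPolynomial.algHom_ext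
    intro i
    rw [AlgHom.comp_apply, MvPolynomial.aeval_X, map_sub, MvPolynomial.aeval_X,
      AlgHom.id_apply]
    have h6 : MvPolynomial.aeval
      (fun i => (MvPolynomial.X i + MvPolynomial.C (c i) : MvPolynomial ι E))
        (MvPolynomial.C (c i)) = MvPolynomial.C (c i) := by
      rw [MvPolynomial.aeval_C]
      rfl
    rw [h6, add_sub_cancel_right]
  rw [← AlgHom.comp_apply, h5, map_zero] at h4
  exact h4

theorem ell_general (O E : Type) [CommRing O] [IsDedekindDomain O] [Module.Finite ℤ O] [Field E]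
    [CharZero E] [Algebra O E] [IsFractionRing O E]
    (hfin : ∀ 𝔭 : Ideal O, 𝔭.IsPrime → 𝔭 ≠ ⊥ → Finite (O ⧸ 𝔭))
    (h2 : Squarefree (Ideal.span {(2 : O)}))
    {ι : Type} [Fintype ι] [DecidableEq ι] [Nonempty ι] (C : ι → WeierstrassCurve O)
    (hsq : ∀ i, Squarefree (Ideal.span {(C i).Δ}))
    (hco : ∀ i j, i ≠ j → IsCoprime (C i).Δ (C j).Δ)
    (ha2 : ∀ i, IsCoprime (C i).a₁ 2) (hs : ∀ i, ∃ s : O, 4 ∣ (C i).Δ - s ^ 2)
    (K : Type) [Field K] [Algebra E K] (x y : ι → K) (hx : AlgebraicIndependent E x)
    (hE : ∀ i, y i ^ 2 + algebraMap E K (algebraMap O E (C i).a₁) * x i * y i +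
      algebraMap E K (algebraMap O E (C i).a₃) * y i = x i ^ 3 +
      algebraMap E K (algebraMap O E (C i).a₂) * x i ^ 2 +
      algebraMap E K (algebraMap O E (C i).a₄) * x i + algebraMap E K (algebraMap O E (C i).a₆))
    (hK : IntermediateField.adjoin E (Set.range x ∪ Set.range y) = ⊤) (σ : K ≃ₐ[E] K)
    (hσx : ∀ i, σ (x i) = x i)
    (hσy : ∀ i, σ (y i) = -y i - algebraMap E K (algebraMap O E (C i).a₁) * x i -
      algebraMap E K (algebraMap O E (C i).a₃)) {F : Type} [Field F]
    [Algebra F K] (hF : ∀ x, σ x = x ↔ ∃ f : F, algebraMap F K f = x) :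
    ∃ (X' : Scheme.{0}) (_ : IsIntegral X') (g : X' ⟶ Spec (CommRingCat.of ℤ)),
      IsProper g ∧
      (∀ x : X',
        (((Module.finrank (IsLocalRing.ResidueField (X'.presheaf.stalk x))
            (IsLocalRing.CotangentSpace (X'.presheaf.stalk x)) : ℕ∞)) : WithBot ℕ∞)
          = ringKrullDim (X'.presheaf.stalk x)) ∧
      Nonempty (X'.functionField ≃+* F) := by
  have hn : ∀ i, ∃ r t : O, 4 ∣ (tr (C i) r t).a₃ ∧ 4 ∣ (tr (C i) r t).a₆ := by
    intro i
    obtain ⟨s, hs⟩ := hs i
    exact norm_curve (C i) (ha2 i) hs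
  choose r t h3 h6 using hn
  have hE' : ∀ i, (y i - algebraMap E K (algebraMap O E (t i))) ^ 2 +
      algebraMap E K (algebraMap O E (tr (C i) (r i) (t i)).a₁) *
        (x i - algebraMap E K (algebraMap O E (r i))) *
        (y i - algebraMap E K (algebraMap O E (t i))) +
      algebraMap E K (algebraMap O E (tr (C i) (r i) (t i)).a₃) *
        (y i - algebraMap E K (algebraMap O E (t i))) =
      (x i - algebraMap E K (algebraMap O E (r i))) ^ 3 +
      algebraMap E K (algebraMap O E (tr (C i) (r i) (t i)).a₂) *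
        (x i - algebraMap E K (algebraMap O E (r i))) ^ 2 +
      algebraMap E K (algebraMap O E (tr (C i) (r i) (t i)).a₄) *
        (x i - algebraMap E K (algebraMap O E (r i))) +
      algebraMap E K (algebraMap O E (tr (C i) (r i) (t i)).a₆) := by
    intro i
    simp only [tr, map_add, map_sub, map_mul, map_pow, map_ofNat]
    linear_combination hE i
  refine ell_main O E hfin h2 (fun i => tr (C i) (r i) (t i)) (fun i => by
    simp only [tr_Δ]
    exact hsq i) (fun i j hij => by
    simp only [tr_Δ]
    exact hco i j hij) (fun i => ha2 i) (fun i => by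
    obtain ⟨c, hc⟩ := h3 i
    exact ⟨c, hc⟩) (fun i => by
    obtain ⟨c, hc⟩ := h6 i
    exact ⟨c, hc⟩) K (fun i => x i - algebraMap E K (algebraMap O E (r i)))
    (fun i => y i - algebraMap E K (algebraMap O E (t i))) (indep_sub hx _) hE' ?_ σ ?_ ?_ hF
  · rw [eq_top_iff, ← hK, IntermediateField.adjoin_le_iff]
    set L := IntermediateField.adjoin E (Set.range (fun i => x i -
      algebraMap E K (algebraMap O E (r i))) ∪ Set.range (fun i => y i -
      algebraMap E K (algebraMap O E (t i)))) with hL
    rintro z (⟨i, rfl⟩ | ⟨i, rfl⟩)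
    · have h1 : x i - algebraMap E K (algebraMap O E (r i)) ∈ L :=
        IntermediateField.subset_adjoin _ _ (Or.inl ⟨i, rfl⟩)
      have h4 := L.add_mem h1 (L.algebraMap_mem (algebraMap O E (r i)))
      rwa [sub_add_cancel] at h4
    · have h1 : y i - algebraMap E K (algebraMap O E (t i)) ∈ L :=
        IntermediateField.subset_adjoin _ _ (Or.inr ⟨i, rfl⟩)
      have h4 := L.add_mem h1 (L.algebraMap_mem (algebraMap O E (t i)))
      rwa [sub_add_cancel] at h4
  · intro i
    rw [map_sub, σ.commutes, hσx]
  · intro i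
    rw [map_sub, σ.commutes, hσy]
    simp only [tr, map_add, map_mul, map_ofNat]
    ring

end Pool.Agent.X269.KP
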