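import Pool.Agent.X269.KP.EllPt
import Pool.Agent.X269.KP.ConicMain

/-!
# Regular proper models of the Kummer varieties of products of elliptic curves
-/

set_option autoImplicit false

namespace Pool.Agent.X269.KP

open IsLocalRing Pool.Agent.Y223.INV Pool.Agent.H918R2.Quad AlgebraicGeometry CategoryTheory

section norm

variable {O : Type} [CommRing O]

lemma tr_tr (D : WeierstrassCurve O) (r t r' t' : O) :
    tr (tr D r t) r' t' = tr D (r + r') (t + t') := by
  ext <;> simp only [tr] <;> ring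

/-- The second step of the normalisation. -/
lemma norm_two (D : WeierstrassCurve O) {c k i s m : O} (h3 : D.a₃ = 4 * c)
    (h1 : i * D.a₁ = 1 + 4 * k) (hs : D.Δ = s ^ 2 + 4 * m) :
    ∃ r t : O, 4 ∣ (tr D r t).a₃ ∧ 4 ∣ (tr D r t).a₆ := by
  obtain ⟨a1, a2, a3, a4, a6⟩ := D
  simp only [WeierstrassCurve.Δ, WeierstrassCurve.b₈, WeierstrassCurve.b₂, WeierstrassCurve.b₄,
    WeierstrassCurve.b₆] at hs h3 h1
  subst h3
  have h14 : (i * a1) ^ 4 = (1 + 4 * k) ^ 4 := by rw [h1]
  have h16 : (i * a1) ^ 6 = (1 + 4 * k) ^ 6 := by rw [h1]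
  -- the discriminant modulo `4`
  obtain ⟨q, hq⟩ : ∃ q : O, a1 ^ 4 * (a4 ^ 2 - a1 ^ 2 * a6) = s ^ 2 + 4 * q := by
    refine ⟨m + ((2 * a1 ^ 2 * a2 + 4 * a2 ^ 2) * (a1 ^ 2 * a6 - a4 ^ 2 +
      4 * (a2 * a6 - a1 * c * a4 + 4 * a2 * c ^ 2)) +
      a1 ^ 4 * (a2 * a6 - a1 * c * a4 + 4 * a2 * c ^ 2)) + 2 * (2 * a4 + a1 * (4 * c)) ^ 3 +
      108 * (4 * c ^ 2 + a6) ^ 2 - 9 * (a1 ^ 2 + 4 * a2) * (2 * a4 + a1 * (4 * c)) *
      (4 * c ^ 2 + a6), ?_⟩
    linear_combination hs
  refine ⟨-2 * i * (i * a4 + i ^ 3 * s), i * a4 + i ^ 3 * s, ?_, ?_⟩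
  · refine ⟨c - 2 * (i * a4 + i ^ 3 * s) * k, ?_⟩
    simp only [tr]
    linear_combination (-2 * (i * a4 + i ^ 3 * s)) * h1
  · refine ⟨i ^ 2 * (i * a4 + i ^ 3 * s) ^ 2 * a2 - 2 * i ^ 3 * (i * a4 + i ^ 3 * s) ^ 3 -
      (i * a4 + i ^ 3 * s) * c + 2 * k * (i * a4 + i ^ 3 * s) ^ 2 - i ^ 6 * q +
      (4 * k + 24 * k ^ 2 + 64 * k ^ 3 + 64 * k ^ 4) * (i ^ 2 * a4 ^ 2) -
      (6 * k + 60 * k ^ 2 + 320 * k ^ 3 + 960 * k ^ 4 + 1536 * k ^ 5 + 1024 * k ^ 6) * a6, ?_⟩
    simp only [tr]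
    linear_combination (2 * (i * a4 + i ^ 3 * s) ^ 2) * h1 - i ^ 6 * hq + (i ^ 2 * a4 ^ 2) * h14 -
      a6 * h16

/-- The normalisation of a curve whose discriminant is a square modulo `4`. -/
lemma norm_curve (D : WeierstrassCurve O) (h1 : IsCoprime D.a₁ 2) {s : O}
    (hs : 4 ∣ D.Δ - s ^ 2) : ∃ r t : O, 4 ∣ (tr D r t).a₃ ∧ 4 ∣ (tr D r t).a₆ := by
  have h4 : IsCoprime D.a₁ 4 := by
    rw [show (4 : O) = 2 * 2 by norm_num]
    exact h1.mul_right h1
  obtain ⟨i, k, hik⟩ := h4
  obtain ⟨m, hm⟩ := hs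
  obtain ⟨r, t, h3, h6⟩ := norm_two (tr D (-i * D.a₃) 0) (c := k * D.a₃) (k := -k) (i := i)
    (s := s) (m := m) (by
      simp only [tr]
      linear_combination (-D.a₃) * hik) (by
      simp only [tr]
      linear_combination hik) (by
      rw [tr_Δ]
      linear_combination hm)
  rw [tr_tr] at h3 h6
  exact ⟨_, _, h3, h6⟩

end norm

section stable

variable {O K : Type} [CommRing O] [Field K] [Algebra O K] {ι : Type}
  {C : ι → WeierstrassCurve O} {x y : ι → K}

lemma EM_stable (σ : K ≃ₐ[O] K) (hσx : ∀ i, σ (x i) = x i)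
    (hσy : ∀ i, σ (y i) = -y i - algebraMap O K (C i).a₁ * x i - algebraMap O K (C i).a₃)
    (i : ι) : ∀ z ∈ EM O x y i, σ z ∈ EM O x y i := by
  obtain ⟨m1, m2, m3, m4, m5, m6⟩ := EM_mem (O := O) (x := x) (y := y) i
  have sm : ∀ (r : O) z, z ∈ EM O x y i → algebraMap O K r * z ∈ EM O x y i := by
    intro r z hz
    rw [← Algebra.smul_def]
    exact Submodule.smul_mem _ r hz
  refine EM_ind ?_ ?_ ?_ ?_ ?_ ?_ ?_ ?_ ?_
  · rw [map_zero]; exact Submodule.zero_mem _
  · intro x z hx hz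
    rw [map_add]; exact Submodule.add_mem _ hx hz
  · intro r x hx
    rw [map_mul, σ.commutes]; exact sm r _ hx
  · rw [map_one]; exact m1
  · rw [hσx]; exact m2
  · rw [hσy]
    have h := Submodule.sub_mem _ (Submodule.sub_mem _ (Submodule.neg_mem _ m3) (sm (C i).a₁ _ m2))
      (sm (C i).a₃ _ m1)
    rwa [mul_one] at h
  · rw [map_pow, hσx]; exact m4
  · rw [map_mul, hσx, hσy]
    have h := Submodule.sub_mem _ (Submodule.sub_mem _ (Submodule.neg_mem _ m5) (sm (C i).a₁ _ m4))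
      (sm (C i).a₃ _ m2)
    convert h using 1
    ring
  · rw [map_pow, hσy]
    have h := Submodule.add_mem _ (Submodule.add_mem _ (Submodule.add_mem _ m6
      (sm ((C i).a₁ ^ 2) _ m4)) (Submodule.add_mem _ (sm ((C i).a₃ ^ 2) _ m1)
        (sm (2 * (C i).a₁) _ m5))) (Submodule.add_mem _ (sm (2 * (C i).a₃) _ m3)
          (sm (2 * (C i).a₁ * (C i).a₃) _ m2))
    convert h using 1
    simp only [map_mul, map_pow, map_ofNat]
    ring

lemma EN_stable (σ : K ≃ₐ[O] K) (hσx : ∀ i, σ (x i) = x i)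
    (hσy : ∀ i, σ (y i) = -y i - algebraMap O K (C i).a₁ * x i - algebraMap O K (C i).a₃)
    (h3 : ∀ i, ∃ c3, (C i).a₃ = 4 * c3) (i : ι) : ∀ z ∈ EN O x y i, σ z ∈ EN O x y i := by
  obtain ⟨m2, m3, m4, m5, m1, m6⟩ := EN_mem (O := O) (x := x) (y := y) i
  have sm : ∀ (r : O) z, z ∈ EN O x y i → algebraMap O K r * z ∈ EN O x y i := by
    intro r z hz
    rw [← Algebra.smul_def]
    exact Submodule.smul_mem _ r hz
  obtain ⟨c, hc⟩ := h3 i
  have hc' : algebraMap O K (C i).a₃ = 4 * algebraMap O K c := by rw [hc, map_mul, map_ofNat]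
  refine EN_ind ?_ ?_ ?_ ?_ ?_ ?_ ?_ ?_ ?_
  · rw [map_zero]; exact Submodule.zero_mem _
  · intro x z hx hz
    rw [map_add]; exact Submodule.add_mem _ hx hz
  · intro r x hx
    rw [map_mul, σ.commutes]; exact sm r _ hx
  · rw [hσx]; exact m2
  · rw [hσy]
    have h := Submodule.sub_mem _ (Submodule.sub_mem _ (Submodule.neg_mem _ m3) (sm (C i).a₁ _ m2))
      (sm (2 * c) _ m1)
    convert h using 1
    rw [hc', map_mul, map_ofNat]
    ring
  · rw [map_pow, hσx]; exact m4
  · rw [map_mul, hσx, hσy]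
    have h := Submodule.sub_mem _ (Submodule.sub_mem _ (Submodule.neg_mem _ m5) (sm (C i).a₁ _ m4))
      (sm (C i).a₃ _ m2)
    convert h using 1
    ring
  · rw [map_ofNat]; exact m1
  · rw [map_mul, map_ofNat, map_pow, hσy]
    have h := Submodule.add_mem _ (Submodule.add_mem _ (Submodule.add_mem _ m6
      (sm (2 * (C i).a₁ ^ 2) _ m4)) (Submodule.add_mem _ (sm ((C i).a₃ ^ 2) _ m1)
        (sm (4 * (C i).a₁) _ m5))) (Submodule.add_mem _ (sm (4 * (C i).a₃) _ m3)
          (sm (4 * (C i).a₁ * (C i).a₃) _ m2))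
    convert h using 1
    simp only [map_mul, map_pow, map_ofNat]
    ring

end stable

theorem ell_main (O E : Type) [CommRing O] [IsDedekindDomain O] [Module.Finite ℤ O] [Field E]
    [CharZero E] [Algebra O E] [IsFractionRing O E]
    (hfin : ∀ 𝔭 : Ideal O, 𝔭.IsPrime → 𝔭 ≠ ⊥ → Finite (O ⧸ 𝔭))
    (h2 : Squarefree (Ideal.span {(2 : O)}))
    {ι : Type} [Fintype ι] [DecidableEq ι] [Nonempty ι] (C : ι → WeierstrassCurve O)
    (hsq : ∀ i, Squarefree (Ideal.span {(C i).Δ}))
    (hco : ∀ i j, i ≠ j → IsCoprime (C i).Δ (C j).Δ)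
    (ha2 : ∀ i, IsCoprime (C i).a₁ 2) (h3 : ∀ i, ∃ c3, (C i).a₃ = 4 * c3)
    (h6 : ∀ i, ∃ c6, (C i).a₆ = 4 * c6)
    (K : Type) [Field K] [Algebra E K] (x y : ι → K) (hx : AlgebraicIndependent E x)
    (hE : ∀ i, y i ^ 2 + algebraMap E K (algebraMap O E (C i).a₁) * x i * y i +
      algebraMap E K (algebraMap O E (C i).a₃) * y i = x i ^ 3 +
      algebraMap E K (algebraMap O E (C i).a₂) * x i ^ 2 +
      algebraMap E K (algebraMap O E (C i).a₄) * x i + algebraMap E K (algebraMap O E (C i).a₆))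
    (hK : IntermediateField.adjoin E (Set.range x ∪ Set.range y) = ⊤) (σ : K ≃ₐ[E] K)
    (hσx : ∀ i, σ (x i) = x i)
    (hσy : ∀ i, σ (y i) = -y i - algebraMap E K (algebraMap O E (C i).a₁) * x i -
      algebraMap E K (algebraMap O E (C i).a₃)) {F : Type} [Field F]
    [Algebra F K] (hF : ∀ x, σ x = x ↔ ∃ f : F, algebraMap F K f = x) :
    ∃ (X' : Scheme.{0}) (_ : IsIntegral X') (g : X' ⟶ Spec (CommRingCat.of ℤ)),
      IsProper g ∧
      (∀ x : X',
        (((Module.finrank (IsLocalRing.ResidueField (X'.presheaf.stalk x))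
            (IsLocalRing.CotangentSpace (X'.presheaf.stalk x)) : ℕ∞)) : WithBot ℕ∞)
          = ringKrullDim (X'.presheaf.stalk x)) ∧
      Nonempty (X'.functionField ≃+* F) := by
  classical
  let _ : Algebra O K := ((algebraMap E K).comp (algebraMap O E)).toAlgebra
  have hst : IsScalarTower O E K := IsScalarTower.of_algebraMap_eq fun o => rfl
  have hO : Function.Injective (algebraMap O K) :=
    (algebraMap E K).injective.comp (IsFractionRing.injective O E)
  -- the structure on `F`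
  have hFO : ∀ o : O, ∃ f : F, algebraMap F K f = algebraMap O K o := fun o =>
    (hF _).1 (σ.commutes (algebraMap O E o))
  have hFinj : Function.Injective (algebraMap F K) := (algebraMap F K).injective
  choose φ hφ using hFO
  let φ' : O →+* F :=
    { toFun := φ
      map_one' := hFinj (by rw [hφ, map_one, map_one])
      map_zero' := hFinj (by rw [hφ, map_zero, map_zero])
      map_mul' := fun x z => hFinj (by rw [hφ, map_mul, map_mul, hφ, hφ])
      map_add' := fun x z => hFinj (by rw [hφ, map_add, map_add, hφ, hφ]) }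
  let _ : Algebra O F := φ'.toAlgebra
  have hst' : IsScalarTower O F K := IsScalarTower.of_algebraMap_eq fun o => (hφ o).symm
  have hinj : Function.Injective (algebraMap O F) := by
    intro c d hcd
    apply hO
    rw [IsScalarTower.algebraMap_apply O F K, IsScalarTower.algebraMap_apply O F K, hcd]
  have hnoe : IsNoetherianRing O := inferInstance
  have hE' : ∀ i, Eqn (C i) (x i) (y i) := hE
  -- the involution
  let τ : K ≃ₐ[O] K := σ.restrictScalars O
  have hσx' : ∀ i, τ (x i) = x i := hσx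
  have hσy' : ∀ i, τ (y i) = -y i - algebraMap O K (C i).a₁ * x i - algebraMap O K (C i).a₃ := hσy
  have hσσ : ∀ x, τ (τ x) = x := by
    have h1 : (σ * σ : K ≃ₐ[E] K).toAlgHom = AlgHom.id E K := by
      have h3 : ∀ z ∈ (⊤ : IntermediateField E K), (σ * σ) z = z := by
        intro z hz
        rw [← hK] at hz
        induction hz using IntermediateField.adjoin_induction with
        | mem z hz =>
          rcases hz with ⟨i, rfl⟩ | ⟨i, rfl⟩
          · rw [AlgEquiv.mul_apply, hσx, hσx]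
          · rw [AlgEquiv.mul_apply, hσy, map_sub, map_sub, map_neg, map_mul, σ.commutes,
              σ.commutes, hσx, hσy]
            ring
        | algebraMap x => exact (σ * σ).commutes x
        | add x z _ _ hx hz => rw [map_add, hx, hz]
        | inv x _ hx => rw [map_inv₀, hx]
        | mul x z _ _ hx hz => rw [map_mul, hx, hz]
      ext x
      exact h3 x trivial
    intro x
    exact DFunLike.congr_fun h1 x
  have hKC : CharZero K := charZero_of_injective_algebraMap (algebraMap E K).injective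
  have hOE : ∀ s o, algebraMap O K o ∈ LF E x s := by
    intro s o
    rw [IsScalarTower.algebraMap_apply O E K]
    exact algebraMap_mem_LF _
  have hσ1 : ∃ x, τ x ≠ x := by
    obtain ⟨i⟩ := ‹Nonempty ι›
    refine ⟨y i, fun h => ?_⟩
    rw [hσy'] at h
    have h1 : x i ∈ LF E x ∅ := by
      have e1 := hE' i
      unfold Eqn at e1
      set A1 := algebraMap O K (C i).a₁
      set A2 := algebraMap O K (C i).a₂
      set A3 := algebraMap O K (C i).a₃
      set A4 := algebraMap O K (C i).a₄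
      set A6 := algebraMap O K (C i).a₆
      have m1 : A1 ∈ LF E x ∅ := hOE _ _
      have m2 : A2 ∈ LF E x ∅ := hOE _ _
      have m3 : A3 ∈ LF E x ∅ := hOE _ _
      have m4 : A4 ∈ LF E x ∅ := hOE _ _
      have m6 : A6 ∈ LF E x ∅ := hOE _ _
      have q2 : (2 : K) ∈ LF E x ∅ := by
        have h := hOE ∅ 2
        rwa [map_ofNat] at h
      have q4 : (4 : K) ∈ LF E x ∅ := by
        have h := hOE ∅ 4
        rwa [map_ofNat] at h
      refine cub_mem (L := LF E x ∅) (fun t ht => LF_alg ht) (a := (A1 ^ 2 + 4 * A2) / 4)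
        (b := (4 * A4 + 2 * A1 * A3) / 4) (c := (A3 ^ 2 + 4 * A6) / 4)
        (Subfield.div_mem _ (Subfield.add_mem _ (pow_mem m1 2) (Subfield.mul_mem _ q4 m2)) q4)
        (Subfield.div_mem _ (Subfield.add_mem _ (Subfield.mul_mem _ q4 m4)
          (Subfield.mul_mem _ (Subfield.mul_mem _ q2 m1) m3)) q4)
        (Subfield.div_mem _ (Subfield.add_mem _ (pow_mem m3 2) (Subfield.mul_mem _ q4 m6)) q4) ?_
      have h4 : (4 : K) ≠ 0 := by norm_num
      have h5 : 2 * y i + A1 * x i + A3 = 0 := by linear_combination -h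
      have h6 : 4 * (x i ^ 3 + (A1 ^ 2 + 4 * A2) / 4 * x i ^ 2 + (4 * A4 + 2 * A1 * A3) / 4 * x i +
          (A3 ^ 2 + 4 * A6) / 4) = 0 := by
        field_simp
        linear_combination (-4) * e1 + (2 * y i + A1 * x i + A3) * h5
      exact (mul_eq_zero.1 h6).resolve_left h4
    exact notMem_LF hx (Set.notMem_empty i) h1
  have hF' : ∀ x, τ x = x ↔ ∃ f : F, algebraMap F K f = x := hF
  have h20 : (2 : K) ≠ 0 := by norm_num
  have hM : HasModule O F := by
    refine prod_module hO (EM O x y) (EN O x y) τ hσσ hσ1 hF' ?_ (fun i => (EM_mem i).1)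
      (EM_stable τ hσx' hσy') EN_le (EN_stable τ hσx' hσy' h3) ?_ ?_ ?_
    · intro i
      exact Submodule.fg_span (by simp)
    · intro i
      exact ⟨2, (EN_mem i).2.2.2.2.1, h20⟩
    · -- generation
      rw [eq_top_iff]
      set L := Subfield.closure (Set.range (algebraMap O K) ∪ {z | ∃ i, z ∈ EM O x y i}) with hL
      have hOL : ∀ o : O, algebraMap O K o ∈ L := fun o => Subfield.subset_closure (Or.inl ⟨o, rfl⟩)
      have hEL : ∀ e : E, algebraMap E K e ∈ L := by
        intro e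
        obtain ⟨c, d, hd, rfl⟩ := IsFractionRing.div_surjective (A := O) e
        rw [map_div₀]
        exact L.div_mem (hOL c) (hOL d)
      intro z _
      have hz : z ∈ IntermediateField.adjoin E (Set.range x ∪ Set.range y) := by rw [hK]; trivial
      induction hz using IntermediateField.adjoin_induction with
      | mem z hz =>
        rcases hz with ⟨i, rfl⟩ | ⟨i, rfl⟩
        · exact Subfield.subset_closure (Or.inr ⟨i, (EM_mem i).2.1⟩)
        · exact Subfield.subset_closure (Or.inr ⟨i, (EM_mem i).2.2.1⟩)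
      | algebraMap x => exact hEL x
      | add x z _ _ hx hz => exact L.add_mem (hx trivial) (hz trivial)
      | inv x _ hx => exact L.inv_mem (hx trivial)
      | mul x z _ _ hx hz => exact L.mul_mem (hx trivial) (hz trivial)
    · intro W hOW
      refine ⟨eh x y W, eh_spec hE' hOW, fun Q hQ => ?_⟩
      exact ell_pt hO hfin hx hE' (fun i => notMem_sq (hsq i))
        (fun i j hij => notMem_coprime (hco i j hij)) (fun 𝔭 h𝔭 _ => notMem_sq h2 𝔭 h𝔭)
        (fun i 𝔭 h𝔭 h => notMem_coprime (ha2 i).symm 𝔭 h𝔭 h) h3 h6 τ hσx' hσy' hσσ hOW hQ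
  exact model_of_hasModule hinj hM

end Pool.Agent.X269.KP
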