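import Pool.Agent.X269.KP.EllFin

/-!
# Products of elliptic curves: the conditions at the points
-/

set_option autoImplicit false

namespace Pool.Agent.X269.KP

open IsLocalRing Pool.Agent.Y223.INV Pool.Agent.W418.LU2 Pool.Agent.TH188.QS
  Pool.Agent.H918R2.Quad Pool.Agent.TH188.ARC Polynomial

variable {O K : Type} [CommRing O] [Field K] [Algebra O K] {ι : Type}
  {C : ι → WeierstrassCurve O} {x y : ι → K} {W : ValuationSubring K} {Q : Subring K}

lemma EN_gen {𝔞 : Ideal Q} {i : ι} (hy : ¬ (x i ∈ W ∧ y i ∈ W) → y i ≠ 0)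
    (h : ∀ n ∈ EN O x y i, Im 𝔞 (n / eh x y W i)) :
    (∀ t ∈ eg (x i) (y i) W, Im 𝔞 t) ∧ Im 𝔞 2 := by
  obtain ⟨m1, m2, m3, m4, m5, m6⟩ := EN_mem (O := O) (x := x) (y := y) i
  by_cases hn : x i ∈ W ∧ y i ∈ W
  · have h1 := h _ m1
    have h2 := h _ m2
    have h3 := h _ m5
    rw [eh_aff hn, div_one] at h1 h2 h3
    refine ⟨?_, h3⟩
    rw [eg_aff hn]
    rintro t (rfl | rfl)
    · exact h1
    · exact h2
  · have hy0 := hy hn
    have h1 := h _ m4
    have h2 := h _ m2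
    have h3 := h _ m6
    rw [eh_inf hn] at h1 h2 h3
    rw [show x i * y i / y i ^ 2 = x i / y i by field_simp] at h1
    rw [show y i / y i ^ 2 = (y i)⁻¹ by field_simp] at h2
    rw [show 2 * y i ^ 2 / y i ^ 2 = 2 by field_simp] at h3
    refine ⟨?_, h3⟩
    rw [eg_inf hn]
    rintro t (rfl | rfl)
    · exact h1
    · exact h2

lemma EN_div {J : Ideal Q} (hOQ : ∀ o, algebraMap O K o ∈ Q) {i : ι}
    (hgQ : eg (x i) (y i) W ⊆ (Q : Set K)) (hy : ¬ (x i ∈ W ∧ y i ∈ W) → y i ≠ 0)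
    (h : ∀ t ∈ eg (x i) (y i) W, Im J t) (h2 : Im J 2) :
    ∀ n ∈ EN O x y i, Im J (n / eh x y W i) := by
  by_cases hn : x i ∈ W ∧ y i ∈ W
  · rw [eh_aff hn]
    rw [eg_aff hn] at h hgQ
    have ix := h (x i) (by simp)
    have iy := h (y i) (by simp)
    have hx : x i ∈ Q := hgQ (by simp)
    have hy' : y i ∈ Q := hgQ (by simp)
    refine EN_ind ?_ ?_ ?_ ?_ ?_ ?_ ?_ ?_ ?_
    · rw [zero_div]; exact Im.zero
    · intro x z hx hz
      rw [add_div]; exact hx.add hz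
    · intro r x hx
      rw [mul_div_assoc]; exact hx.mul_left (hOQ r)
    · rw [div_one]; exact ix
    · rw [div_one]; exact iy
    · rw [div_one, pow_two]; exact ix.mul_left hx
    · rw [div_one]; exact iy.mul_left hx
    · rw [div_one]; exact h2
    · rw [div_one]; exact h2.mul_right (Q.pow_mem hy' 2)
  · rw [eh_inf hn]
    rw [eg_inf hn] at h hgQ
    have hy0 := hy hn
    have iz := h (x i / y i) (by simp)
    have iw := h (y i)⁻¹ (by simp)
    have hz : x i / y i ∈ Q := hgQ (by simp)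
    have hw : (y i)⁻¹ ∈ Q := hgQ (by simp)
    refine EN_ind ?_ ?_ ?_ ?_ ?_ ?_ ?_ ?_ ?_
    · rw [zero_div]; exact Im.zero
    · intro x z hx hz
      rw [add_div]; exact hx.add hz
    · intro r x hx
      rw [mul_div_assoc]; exact hx.mul_left (hOQ r)
    · rw [show x i / y i ^ 2 = x i / y i * (y i)⁻¹ by field_simp]
      exact iw.mul_left hz
    · rw [show y i / y i ^ 2 = (y i)⁻¹ by field_simp]
      exact iw
    · rw [show x i ^ 2 / y i ^ 2 = x i / y i * (x i / y i) by field_simp]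
      exact iz.mul_left hz
    · rw [show x i * y i / y i ^ 2 = x i / y i by field_simp]
      exact iz
    · rw [show (2 : K) / y i ^ 2 = (y i)⁻¹ * (y i)⁻¹ * 2 by field_simp]
      exact h2.mul_left (Q.mul_mem hw hw)
    · rw [show 2 * y i ^ 2 / y i ^ 2 = 2 by field_simp]
      exact h2

variable [DecidableEq ι] [Fintype ι] [Nonempty ι]

/-- The conditions at the points. -/
theorem ell_pt {E : Type} [Field E] [Algebra E K] [Algebra O E] [IsScalarTower O E K]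
    [IsDedekindDomain O] (hO : Function.Injective (algebraMap O K))
    (hfin : ∀ 𝔭 : Ideal O, 𝔭.IsPrime → 𝔭 ≠ ⊥ → Finite (O ⧸ 𝔭))
    (hx : AlgebraicIndependent E x) (hE : ∀ i, Eqn (C i) (x i) (y i))
    (hsq : ∀ i, ∀ 𝔭 : Ideal O, 𝔭.IsPrime → (C i).Δ ∉ 𝔭 ^ 2)
    (hco : ∀ i j, i ≠ j → ∀ 𝔭 : Ideal O, 𝔭.IsPrime → (C i).Δ ∈ 𝔭 → (C j).Δ ∉ 𝔭)
    (hun : ∀ 𝔭 : Ideal O, 𝔭.IsPrime → (2 : O) ∈ 𝔭 → (2 : O) ∉ 𝔭 ^ 2)
    (ha1 : ∀ i, ∀ 𝔭 : Ideal O, 𝔭.IsPrime → (2 : O) ∈ 𝔭 → (C i).a₁ ∉ 𝔭)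
    (hc3 : ∀ i, ∃ c3, (C i).a₃ = 4 * c3) (hc6 : ∀ i, ∃ c6, (C i).a₆ = 4 * c6)
    (σ : K ≃ₐ[O] K) (hσx : ∀ i, σ (x i) = x i)
    (hσy : ∀ i, σ (y i) = -y i - algebraMap O K (C i).a₁ * x i - algebraMap O K (C i).a₃)
    (hσσ : ∀ x, σ (σ x) = x)
    (hOW : ∀ o, algebraMap O K o ∈ W)
    (hQ : Q = lo W.toSubring (Subring.closure (DS (EM O x y) (eh x y W)))) :
    ∃ _ : IsRegularLocalRing Q,
      ∀ 𝔞 : Ideal Q, 𝔞 = Ideal.span {z : Q | ∃ i, ∃ n ∈ EN O x y i, (z : K) = n / eh x y W i} →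
          (𝔞 ≠ ⊤ → 𝔞 = maximalIdeal Q) ∧
          (¬ IsUnit (2 : Q) → IsFixed σ Q → 𝔞 ≠ ⊤ ∧ NondegenerateWild σ Q 𝔞) := by
  classical
  rw [closure_DS hE hOW] at hQ
  have hreg : IsRegularLocalRing Q := by
    rw [hQ]
    exact ell_reg hO hfin hx hE hsq hco hOW
  refine ⟨hreg, ?_⟩
  intro 𝔞 h𝔞
  have hGW : GS O x y W ⊆ (W : Set K) := GS_sub hE hOW
  have hcW : Subring.closure (GS O x y W) ≤ W.toSubring := Subring.closure_le.2 hGW
  have hGQ : GS O x y W ⊆ (Q : Set K) := by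
    intro x hx
    rw [hQ]
    exact le_lo _ _ (Subring.subset_closure hx)
  have hOQ : ∀ o, algebraMap O K o ∈ Q := fun o => hGQ (Or.inl ⟨o, rfl⟩)
  have hgQ : ∀ i, eg (x i) (y i) W ⊆ (Q : Set K) := fun i t ht => hGQ (Or.inr ⟨i, ht⟩)
  have hy0 : ∀ i, ¬ (x i ∈ W ∧ y i ∈ W) → y i ≠ 0 := fun i hn =>
    ne_zero_of_not (inf_spec hOW (hE i) hn).1
  have hMQ : ∀ i, ∀ z ∈ EM O x y i, z / eh x y W i ∈ Q := fun i =>
    EM_div (T := Q) hOQ (hy0 i) (hgQ i)
  have hQW : Q ≤ W.toSubring := by rw [hQ]; exact lo_le hcW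
  have hIC : IC W.toSubring Q := by rw [hQ]; exact ic_lo hcW
  have hmax : ∀ z : Q, z ∈ maximalIdeal Q ↔ NU W.toSubring (z : K) := mem_max_iff hQW hIC
  have h𝔞n : ∀ i, ∀ n ∈ EN O x y i, Im 𝔞 (n / eh x y W i) := by
    intro i n hn
    refine ⟨⟨n / eh x y W i, hMQ i n (EN_le i hn)⟩, ?_, rfl⟩
    rw [h𝔞]
    exact Ideal.subset_span ⟨i, n, hn, rfl⟩
  have hNU : 𝔞 ≠ ⊤ → ∀ x, Im 𝔞 x → NU W.toSubring x := by
    intro h x hx
    have h1 := le_maximalIdeal h (hx.mk hx.mem)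
    exact (hmax _).1 h1
  have hgen : ∀ i, (∀ t ∈ eg (x i) (y i) W, Im 𝔞 t) ∧ Im 𝔞 2 := fun i =>
    EN_gen (hy0 i) (h𝔞n i)
  have e3 : Im 𝔞 (2 : K) := by
    obtain ⟨i⟩ := ‹Nonempty ι›
    exact (hgen i).2
  constructor
  · intro hne
    have h2N : NU W.toSubring (2 : K) := hNU hne _ e3
    refine cen_max hGW hQ (fun o => Or.inl ⟨o, rfl⟩) hne ?_ ?_
    · intro o ho
      obtain ⟨s, r, hsr, hs0, hsW⟩ := unram hOW hun h2N o ho
      have hsQ : (algebraMap O K s)⁻¹ ∈ Q := hIC _ (hOQ s) hs0 hsW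
      have h1 : algebraMap O K o = (algebraMap O K r * (algebraMap O K s)⁻¹) * 2 := by
        have h3 : algebraMap O K s * algebraMap O K o = 2 * algebraMap O K r := by
          rw [← map_mul, hsr, map_mul, map_ofNat]
        field_simp
        rw [mul_comm, h3, mul_comm]
      rw [h1]
      exact e3.mul_left (Q.mul_mem (hOQ r) hsQ)
    · rintro t (⟨o, rfl⟩ | ⟨i, ht⟩)
      · exact ⟨o, by rw [sub_self]; exact Im.zero⟩
      · exact ⟨0, by rw [map_zero, sub_zero]; exact (hgen i).1 t ht⟩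
  · intro h2u hfix
    have h2N : NU W.toSubring (2 : K) := by
      have h1 : (2 : Q) ∈ maximalIdeal Q := (mem_maximalIdeal _).2 h2u
      exact (hmax 2).1 h1
    have hprime := pr_prime (O := O) W hOW
    have h2p : (2 : O) ∈ pr O W hOW := by
      rw [mem_pr, map_ofNat]
      exact h2N
    have h4p : (4 : O) ∈ pr O W hOW ^ 2 := by
      rw [show (4 : O) = 2 * 2 by norm_num, pow_two]
      exact Ideal.mul_mem_mul h2p h2p
    have hfx : ∀ x ∈ Q, σ x ∈ Q ∧ NU W.toSubring (σ x - x) := by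
      intro x hx
      obtain ⟨z, hz, hz'⟩ := hfix ⟨x, hx⟩
      have h1 : σ x ∈ Q := by rw [← hz]; exact z.2
      refine ⟨h1, ?_⟩
      have h3 : z - ⟨x, hx⟩ ∈ maximalIdeal Q := (mem_maximalIdeal _).2 hz'
      have h4 := (hmax _).1 h3
      have h5 : ((z - ⟨x, hx⟩ : Q) : K) = σ x - x := by
        change (z : K) - x = σ x - x
        rw [hz]
      rwa [h5] at h4
    have hu1 : ∀ i, ¬ NU W.toSubring (algebraMap O K (C i).a₁) := by
      intro i
      rw [← mem_pr (hOW := hOW)]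
      exact ha1 i _ hprime h2p
    have hu4 : ∀ i, ¬ NU W.toSubring (algebraMap O K (C i).a₄) := by
      intro i h4
      rw [← mem_pr (hOW := hOW)] at h4
      obtain ⟨c3, h3⟩ := hc3 i
      obtain ⟨c6, h6⟩ := hc6 i
      refine hsq i _ hprime (disc_sq _ _ ?_ h4 ?_)
      · rw [h3]
        exact Ideal.mul_mem_right _ _ (Ideal.pow_le_self two_ne_zero h4p)
      · rw [h6]
        exact Ideal.mul_mem_right _ _ h4p
    choose c3 hc3 using hc3
    choose c6 hc6 using hc6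
    have hloc := fun i => ell_local hOW (hE i) hQW hIC hOQ (hgQ i) (hu1 i) (hu4 i) (hc3 i) (hc6 i)
      σ (hσx i) (hσy i) h2N hfx
    choose z w hg hz hw hzN hwN hloc using hloc
    have h𝔞ne : 𝔞 ≤ maximalIdeal Q := by
      rw [h𝔞, Ideal.span_le]
      rintro t ⟨i, n, hn, htn⟩
      have h1 : Im (maximalIdeal Q) (n / eh x y W i) := by
        refine EN_div hOQ (hgQ i) (hy0 i) ?_ ?_ n hn
        · intro t ht
          have htQ := hgQ i ht
          refine ⟨⟨t, htQ⟩, (hmax _).2 ?_, rfl⟩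
          rcases (hg i t).1 ht with rfl | rfl
          · exact hzN i
          · exact hwN i
        · exact ⟨2, (mem_maximalIdeal _).2 h2u, rfl⟩
      rw [← htn] at h1
      exact h1.mk t.2
    have hne : 𝔞 ≠ ⊤ := by
      intro h
      rw [h, top_le_iff] at h𝔞ne
      exact (maximalIdeal.isMaximal Q).ne_top h𝔞ne
    refine ⟨hne, ?_⟩
    have h2Q : (2 : K) ∈ Q := e3.mem
    have e3' : (2 : Q) ∈ 𝔞 := e3.mk h2Q
    have iz : ∀ i, Im 𝔞 (z i) := fun i => (hgen i).1 _ ((hg i _).2 (Or.inl rfl))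
    have iw : ∀ i, Im 𝔞 (w i) := fun i => (hgen i).1 _ ((hg i _).2 (Or.inr rfl))
    have hL := fun i => hloc i 𝔞 (iz i) (iw i) e3
    refine nondeg σ hσσ hreg (D := GS O x y W) ?_ hGQ h𝔞ne e3'
      (fun x hx => (hfx x hx).1) ?_ (ι := ι)
      (fun i => ⟨z i, hz i⟩) (fun i => (iz i).mk _) ?_ ?_
    · intro x hx
      rw [hQ] at hx
      obtain ⟨c, hc, d, hd, hd0, hdW, rfl⟩ := hx
      exact ⟨c, hc, d, hd, d⁻¹, hIC d (by rw [hQ]; exact le_lo _ _ hd) hd0 hdW,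
        mul_inv_cancel₀ hd0, rfl⟩
    · -- the image of the generators
      have key : ∀ t ∈ GS O x y W, Im (𝔞 ^ 2) (σ t - t) := by
        rintro t (⟨o, rfl⟩ | ⟨i, ht⟩)
        · rw [σ.commutes, sub_self]
          exact Im.zero
        · rcases (hg i t).1 ht with rfl | rfl
          · exact (hL i).2.1
          · exact (hL i).2.2.1
      intro x hx
      exact (key x hx).mk _
    · -- generators of the centre
      refine h𝔞.le.trans ?_
      rw [Ideal.span_le]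
      rintro t ⟨i, n, hn, htn⟩
      set J : Ideal Q := Ideal.span {2} ⊔ Ideal.span (Set.range fun i =>
        (⟨z i, hz i⟩ : Q)) ⊔ 𝔞 ^ 2 with hJ
      have j2 : Im J (2 : K) := ⟨2, Ideal.mem_sup_left (Ideal.mem_sup_left
        (Ideal.mem_span_singleton_self _)), rfl⟩
      have jz : ∀ i, Im J (z i) := fun i =>
        ⟨⟨_, hz i⟩, Ideal.mem_sup_left (Ideal.mem_sup_right
          (Ideal.subset_span ⟨i, rfl⟩)), rfl⟩
      have ja : 𝔞 ^ 2 ≤ J := le_sup_right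
      have h1 : Im J (n / eh x y W i) := by
        refine EN_div hOQ (hgQ i) (hy0 i) ?_ j2 n hn
        intro t ht
        rcases (hg i t).1 ht with rfl | rfl
        · exact jz i
        · exact (hL i).1.mono ja
      rw [← htn] at h1
      exact h1.mk t.2
    · intro i
      set J : Ideal Q := Ideal.span {(2 : Q)} * 𝔞 ⊔ Ideal.span {w : Q | ∃ x ∈ 𝔞,
        (w : K) = σ (x : K) - (x : K)} ⊔ 𝔞 ^ 3 with hJ
      obtain ⟨p, q, s, hp, hq, hs, hpqs⟩ := (hL i).2.2.2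
      have j2 : Im J (2 * q) := by
        have h5 : Im (Ideal.span {(2 : Q)}) (2 : K) := ⟨2, Ideal.mem_span_singleton_self _, rfl⟩
        exact (h5.mul hq).mono (le_sup_left.trans le_sup_left)
      have js : Im J s := hs.mono le_sup_right
      have jδ : Im J (σ (z i) - z i) := by
        refine ⟨⟨σ (z i) - z i, (hL i).2.1.mem⟩, Ideal.mem_sup_left
          (Ideal.mem_sup_right (Ideal.subset_span ⟨⟨z i, hz i⟩, (iz i).mk _, rfl⟩)), rfl⟩
      have h4 : Im J (z i ^ 2) := by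
        rw [hpqs]
        exact ((jδ.mul_left hp).add j2).add js
      exact h4.mk _

end Pool.Agent.X269.KP
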