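import Pool.Agent.X269.KP.EllSm

/-!
# Products of elliptic curves: regularity
-/

set_option autoImplicit false

namespace Pool.Agent.X269.KP

open IsLocalRing Pool.Agent.Y223.INV Pool.Agent.W418.LU2 Pool.Agent.TH188.QS
  Pool.Agent.H918R2.Quad Pool.Agent.TH188.ARC Polynomial

section alg

variable {K : Type} [Field K]

/-- A root of a monic cubic polynomial. -/
lemma cub_mem {L : Subfield K} (hL : ∀ t, IsAlgebraic L t → t ∈ L) {a b c t : K} (ha : a ∈ L)
    (hb : b ∈ L) (hc : c ∈ L) (h : t ^ 3 + a * t ^ 2 + b * t + c = 0) : t ∈ L := by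
  refine hL t ⟨X ^ 3 + C (⟨a, ha⟩ : L) * X ^ 2 + C (⟨b, hb⟩ : L) * X + C (⟨c, hc⟩ : L), ?_, ?_⟩
  · intro h0
    have h1 := congrArg (fun p => coeff p 3) h0
    simp at h1
  · simp only [map_add, map_mul, map_pow, aeval_X, aeval_C]
    exact h

/-- A root of a cubic polynomial with a nonzero constant term. -/
lemma cub_mem' {L : Subfield K} (hL : ∀ t, IsAlgebraic L t → t ∈ L) {a b c d t : K} (ha : a ∈ L)
    (hb : b ∈ L) (hc : c ∈ L) (hd : d ∈ L) (hc0 : c ≠ 0)
    (h : d * t ^ 3 + a * t ^ 2 + b * t + c = 0) : t ∈ L := by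
  have ht : t ≠ 0 := by
    rintro rfl
    apply hc0
    linear_combination h
  have h1 : t⁻¹ ∈ L := by
    refine cub_mem hL (a := b / c) (b := a / c) (c := d / c) (L.div_mem hb hc) (L.div_mem ha hc)
      (L.div_mem hd hc) ?_
    field_simp
    linear_combination h
  have h2 := L.inv_mem h1
  rwa [inv_inv] at h2

/-- A root of a monic quadratic polynomial. -/
lemma quad_mem {L : Subfield K} (hL : ∀ t, IsAlgebraic L t → t ∈ L) {b c t : K}
    (hb : b ∈ L) (hc : c ∈ L) (h : t ^ 2 + b * t + c = 0) : t ∈ L := by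
  refine hL t ⟨X ^ 2 + C (⟨b, hb⟩ : L) * X + C (⟨c, hc⟩ : L), ?_, ?_⟩
  · intro h0
    have h1 := congrArg (fun p => coeff p 2) h0
    simp at h1
  · simp only [map_add, map_mul, map_pow, aeval_X, aeval_C]
    exact h

variable {O : Type} [CommRing O] [Algebra O K] {C : WeierstrassCurve O} {x y : K}

lemma y_mem_L {L : Subfield K} (hL : ∀ t, IsAlgebraic L t → t ∈ L)
    (hO : ∀ o, algebraMap O K o ∈ L) (h : Eqn C x y) (hx : x ∈ L) : y ∈ L := by
  unfold Eqn at h
  refine quad_mem hL (b := algebraMap O K C.a₁ * x + algebraMap O K C.a₃)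
    (c := -(x ^ 3 + algebraMap O K C.a₂ * x ^ 2 + algebraMap O K C.a₄ * x + algebraMap O K C.a₆))
    (L.add_mem (L.mul_mem (hO _) hx) (hO _))
    (L.neg_mem (L.add_mem (L.add_mem (L.add_mem (pow_mem hx 3) (L.mul_mem (hO _) (pow_mem hx 2)))
      (L.mul_mem (hO _) hx)) (hO _))) ?_
  linear_combination h

lemma x_mem_L {L : Subfield K} (hL : ∀ t, IsAlgebraic L t → t ∈ L)
    (hO : ∀ o, algebraMap O K o ∈ L) (h : Eqn C x y) (hy : y ∈ L) : x ∈ L := by
  unfold Eqn at h
  refine cub_mem hL (a := algebraMap O K C.a₂) (b := algebraMap O K C.a₄ - algebraMap O K C.a₁ * y)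
    (c := algebraMap O K C.a₆ - y ^ 2 - algebraMap O K C.a₃ * y) (hO _)
    (L.sub_mem (hO _) (L.mul_mem (hO _) hy))
    (L.sub_mem (L.sub_mem (hO _) (pow_mem hy 2)) (L.mul_mem (hO _) hy)) ?_
  linear_combination -h

lemma xy_mem_L {L : Subfield K} (hL : ∀ t, IsAlgebraic L t → t ∈ L)
    (hO : ∀ o, algebraMap O K o ∈ L) (h : Eqn C x y) (hx0 : x ≠ 0) (hy0 : y ≠ 0)
    (hz : x / y ∈ L) : x ∈ L := by
  have h1 := eqn_inf h hy0
  have h2 : y⁻¹ ∈ L := by
    refine cub_mem' hL (d := algebraMap O K C.a₆)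
      (a := algebraMap O K C.a₄ * (x / y) - algebraMap O K C.a₃)
      (b := algebraMap O K C.a₂ * (x / y) ^ 2 - algebraMap O K C.a₁ * (x / y) - 1)
      (c := (x / y) ^ 3) (L.sub_mem (L.mul_mem (hO _) hz) (hO _))
      (L.sub_mem (L.sub_mem (L.mul_mem (hO _) (pow_mem hz 2)) (L.mul_mem (hO _) hz)) L.one_mem)
      (pow_mem hz 3) (hO _) (pow_ne_zero _ (div_ne_zero hx0 hy0)) h1
  have h3 := L.div_mem hz h2
  rwa [div_inv_eq_mul, div_mul_cancel₀ _ hy0] at h3

end alg

section mods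

variable {O K : Type} [CommRing O] [Field K] [Algebra O K] {ι : Type}

/-- The quadratic forms on the curve. -/
def EM (O : Type) [CommRing O] [Algebra O K] (x y : ι → K) (i : ι) : Submodule O K :=
  Submodule.span O {1, x i, y i, x i ^ 2, x i * y i, y i ^ 2}

/-- The quadratic forms which vanish at the fixed points modulo `2`. -/
def EN (O : Type) [CommRing O] [Algebra O K] (x y : ι → K) (i : ι) : Submodule O K :=
  Submodule.span O {x i, y i, x i ^ 2, x i * y i, 2, 2 * y i ^ 2}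

variable {x y : ι → K}

lemma EM_ind {i : ι} {p : K → Prop} (h0 : p 0) (hadd : ∀ x z, p x → p z → p (x + z))
    (hsm : ∀ (r : O) x, p x → p (algebraMap O K r * x)) (h1 : p 1) (h2 : p (x i)) (h3 : p (y i))
    (h4 : p (x i ^ 2)) (h5 : p (x i * y i)) (h6 : p (y i ^ 2)) : ∀ z ∈ EM O x y i, p z := by
  intro z hz
  induction hz using Submodule.span_induction with
  | mem z hz =>
    rcases hz with rfl | rfl | rfl | rfl | rfl | rfl
    · exact h1
    · exact h2
    · exact h3
    · exact h4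
    · exact h5
    · exact h6
  | zero => exact h0
  | add x z _ _ hx hz => exact hadd x z hx hz
  | smul r x _ hx => rw [Algebra.smul_def]; exact hsm r x hx

lemma EN_ind {i : ι} {p : K → Prop} (h0 : p 0) (hadd : ∀ x z, p x → p z → p (x + z))
    (hsm : ∀ (r : O) x, p x → p (algebraMap O K r * x)) (h2 : p (x i)) (h3 : p (y i))
    (h4 : p (x i ^ 2)) (h5 : p (x i * y i)) (h1 : p 2) (h6 : p (2 * y i ^ 2)) :
    ∀ z ∈ EN O x y i, p z := by
  intro z hz
  induction hz using Submodule.span_induction with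
  | mem z hz =>
    rcases hz with rfl | rfl | rfl | rfl | rfl | rfl
    · exact h2
    · exact h3
    · exact h4
    · exact h5
    · exact h1
    · exact h6
  | zero => exact h0
  | add x z _ _ hx hz => exact hadd x z hx hz
  | smul r x _ hx => rw [Algebra.smul_def]; exact hsm r x hx

lemma EM_mem (i : ι) : (1 : K) ∈ EM O x y i ∧ x i ∈ EM O x y i ∧ y i ∈ EM O x y i ∧
    x i ^ 2 ∈ EM O x y i ∧ x i * y i ∈ EM O x y i ∧ y i ^ 2 ∈ EM O x y i :=
  ⟨Submodule.subset_span (by simp), Submodule.subset_span (by simp),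
    Submodule.subset_span (by simp), Submodule.subset_span (by simp),
    Submodule.subset_span (by simp), Submodule.subset_span (by simp)⟩

lemma EN_mem (i : ι) : x i ∈ EN O x y i ∧ y i ∈ EN O x y i ∧
    x i ^ 2 ∈ EN O x y i ∧ x i * y i ∈ EN O x y i ∧ 2 ∈ EN O x y i ∧ 2 * y i ^ 2 ∈ EN O x y i :=
  ⟨Submodule.subset_span (by simp), Submodule.subset_span (by simp),
    Submodule.subset_span (by simp), Submodule.subset_span (by simp),
    Submodule.subset_span (by simp), Submodule.subset_span (by simp)⟩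

lemma EN_le (i : ι) : EN O x y i ≤ EM O x y i := by
  obtain ⟨h1, h2, h3, h4, h5, h6⟩ := EM_mem (O := O) (x := x) (y := y) i
  have h : ∀ z, z ∈ EM O x y i → 2 * z ∈ EM O x y i := by
    intro z hz
    have h := (EM O x y i).smul_mem (2 : O) hz
    rwa [Algebra.smul_def, map_ofNat] at h
  refine EN_ind (Submodule.zero_mem _) (fun x z => Submodule.add_mem _) (fun r x hx => ?_)
    h2 h3 h4 h5 ?_ (h _ h6)
  · rw [← Algebra.smul_def]
    exact Submodule.smul_mem _ _ hx
  · have := h _ h1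
    rwa [mul_one] at this

/-- The chart. -/
noncomputable def eh (x y : ι → K) (W : ValuationSubring K) (i : ι) : K :=
  open Classical in if x i ∈ W ∧ y i ∈ W then 1 else y i ^ 2

variable {W : ValuationSubring K}

lemma eh_aff {i : ι} (h : x i ∈ W ∧ y i ∈ W) : eh x y W i = 1 := by
  classical
  rw [eh, if_pos h]

lemma eh_inf {i : ι} (h : ¬ (x i ∈ W ∧ y i ∈ W)) : eh x y W i = y i ^ 2 := by
  classical
  rw [eh, if_neg h]

lemma EM_div {T : Subring K} (hO : ∀ r, algebraMap O K r ∈ T) {i : ι}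
    (hy : ¬ (x i ∈ W ∧ y i ∈ W) → y i ≠ 0) (h : eg (x i) (y i) W ⊆ (T : Set K)) :
    ∀ z ∈ EM O x y i, z / eh x y W i ∈ T := by
  have hmul : ∀ a b : K, a ∈ T → b ∈ T → a * b ∈ T := fun a b => T.mul_mem
  by_cases hn : x i ∈ W ∧ y i ∈ W
  · rw [eg_aff hn] at h
    rw [eh_aff hn]
    have hx : x i ∈ T := h (by simp)
    have hy : y i ∈ T := h (by simp)
    refine EM_ind ?_ ?_ ?_ ?_ ?_ ?_ ?_ ?_ ?_
    · rw [zero_div]; exact T.zero_mem
    · intro x z hx hz
      rw [add_div]; exact T.add_mem hx hz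
    · intro r x hx
      rw [mul_div_assoc]; exact T.mul_mem (hO r) hx
    · rw [div_one]; exact T.one_mem
    · rw [div_one]; exact hx
    · rw [div_one]; exact hy
    · rw [div_one]; exact T.pow_mem hx 2
    · rw [div_one]; exact T.mul_mem hx hy
    · rw [div_one]; exact T.pow_mem hy 2
  · rw [eg_inf hn] at h
    rw [eh_inf hn]
    have hy0 := hy hn
    have hz : x i / y i ∈ T := h (by simp)
    have hw : (y i)⁻¹ ∈ T := h (by simp)
    refine EM_ind ?_ ?_ ?_ ?_ ?_ ?_ ?_ ?_ ?_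
    · rw [zero_div]; exact T.zero_mem
    · intro x z hx hz
      rw [add_div]; exact T.add_mem hx hz
    · intro r x hx
      rw [mul_div_assoc]; exact T.mul_mem (hO r) hx
    · rw [show (1 : K) / y i ^ 2 = (y i)⁻¹ * (y i)⁻¹ by field_simp]
      exact hmul _ _ hw hw
    · rw [show x i / y i ^ 2 = x i / y i * (y i)⁻¹ by field_simp]
      exact hmul _ _ hz hw
    · rw [show y i / y i ^ 2 = (y i)⁻¹ by field_simp]
      exact hw
    · rw [show x i ^ 2 / y i ^ 2 = x i / y i * (x i / y i) by field_simp]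
      exact hmul _ _ hz hz
    · rw [show x i * y i / y i ^ 2 = x i / y i by field_simp]
      exact hz
    · rw [div_self (pow_ne_zero _ hy0)]
      exact T.one_mem

/-- The generators of the chart. -/
def GS (O : Type) [CommRing O] [Algebra O K] (x y : ι → K) (W : ValuationSubring K) : Set K :=
  Set.range (algebraMap O K) ∪ {t | ∃ i, t ∈ eg (x i) (y i) W}

variable {C : ι → WeierstrassCurve O}

lemma eh_spec (hE : ∀ i, Eqn (C i) (x i) (y i)) (hOW : ∀ o, algebraMap O K o ∈ W) (i : ι) :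
    eh x y W i ∈ EM O x y i ∧ eh x y W i ≠ 0 ∧ ∀ z ∈ EM O x y i, z / eh x y W i ∈ W := by
  have h1 : ¬ (x i ∈ W ∧ y i ∈ W) → y i ≠ 0 := fun hn =>
    ne_zero_of_not (inf_spec hOW (hE i) hn).1
  refine ⟨?_, ?_, EM_div (T := W.toSubring) hOW h1 (eg_sub hOW (hE i))⟩
  · by_cases hn : x i ∈ W ∧ y i ∈ W
    · rw [eh_aff hn]
      exact (EM_mem i).1
    · rw [eh_inf hn]
      exact (EM_mem i).2.2.2.2.2
  · by_cases hn : x i ∈ W ∧ y i ∈ W
    · rw [eh_aff hn]
      exact one_ne_zero
    · rw [eh_inf hn]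
      exact pow_ne_zero _ (h1 hn)

lemma GS_sub (hE : ∀ i, Eqn (C i) (x i) (y i)) (hOW : ∀ o, algebraMap O K o ∈ W) :
    GS O x y W ⊆ (W : Set K) := by
  rintro t (⟨o, rfl⟩ | ⟨i, hi⟩)
  · exact hOW o
  · exact eg_sub hOW (hE i) hi

/-- The two sets of generators. -/
lemma closure_DS (hE : ∀ i, Eqn (C i) (x i) (y i)) (hOW : ∀ o, algebraMap O K o ∈ W) :
    Subring.closure (DS (EM O x y) (eh x y W)) = Subring.closure (GS O x y W) := by
  have h1 : ∀ i, ¬ (x i ∈ W ∧ y i ∈ W) → y i ≠ 0 := fun i hn =>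
    ne_zero_of_not (inf_spec hOW (hE i) hn).1
  apply le_antisymm
  · rw [Subring.closure_le]
    rintro t (⟨o, rfl⟩ | ⟨i, z, hz, rfl⟩)
    · exact Subring.subset_closure (Or.inl ⟨o, rfl⟩)
    · refine EM_div (T := Subring.closure (GS O x y W))
        (fun r => Subring.subset_closure (Or.inl ⟨r, rfl⟩)) (h1 i) ?_ z hz
      intro t ht
      exact Subring.subset_closure (Or.inr ⟨i, ht⟩)
  · rw [Subring.closure_le]
    rintro t (⟨o, rfl⟩ | ⟨i, hi⟩)
    · exact Subring.subset_closure (Or.inl ⟨o, rfl⟩)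
    · obtain ⟨m1, m2, m3, m4, m5, m6⟩ := EM_mem (O := O) (x := x) (y := y) i
      have hmem : ∀ z ∈ EM O x y i, z / eh x y W i ∈
          Subring.closure (DS (EM O x y) (eh x y W)) := fun z hz =>
        Subring.subset_closure (Or.inr ⟨i, z, hz, rfl⟩)
      by_cases hn : x i ∈ W ∧ y i ∈ W
      · rw [eg_aff hn] at hi
        have h2 := hmem _ m2
        have h3 := hmem _ m3
        rw [eh_aff hn, div_one] at h2 h3
        rcases hi with rfl | rfl
        · exact h2
        · exact h3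
      · rw [eg_inf hn] at hi
        have h2 := hmem _ m5
        have h3 := hmem _ m3
        have hy0 := h1 i hn
        rw [eh_inf hn] at h2 h3
        rw [show x i * y i / y i ^ 2 = x i / y i by field_simp] at h2
        rw [show y i / y i ^ 2 = (y i)⁻¹ by field_simp] at h3
        rcases hi with rfl | rfl
        · exact h2
        · exact h3

end mods

end Pool.Agent.X269.KP
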