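import Pool.Agent.X269.KP.Ell

/-!
# Products of elliptic curves: smooth and singular points
-/

set_option autoImplicit false

namespace Pool.Agent.X269.KP

open IsLocalRing Pool.Agent.Y223.INV Pool.Agent.W418.LU2 Pool.Agent.TH188.QS
  Pool.Agent.H918R2.Quad Pool.Agent.TH188.ARC Polynomial

section frob

/-- The elements of a finite subfield are the fixed points of a power of the Frobenius. -/
lemma fin_fixed {k κ : Type} [Field k] [Finite k] [Field κ] (j : k →+* κ) {t : κ}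
    (ht : t ^ (Nat.card k) = t) : ∃ a, j a = t := by
  classical
  have _ := Fintype.ofFinite k
  have hcard : Nat.card k = Fintype.card k := Nat.card_eq_fintype_card
  have h1 : (X ^ Fintype.card k - X : k[X]).roots = Finset.univ.val :=
    FiniteField.roots_X_pow_card_sub_X k
  have hd : (X ^ Fintype.card k - X : k[X]).natDegree = Fintype.card k :=
    FiniteField.X_pow_card_sub_X_natDegree_eq k Fintype.one_lt_card
  have hm : (X ^ Fintype.card k - X : k[X]).Monic := by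
    apply monic_X_pow_sub
    rw [degree_X]
    exact_mod_cast Fintype.one_lt_card
  have h2 := prod_multiset_X_sub_C_of_monic_of_roots_card_eq hm (by
    rw [h1, hd]
    rfl)
  rw [h1] at h2
  have h3 := congrArg (eval₂ j t) h2
  rw [eval₂_sub, eval₂_X_pow, eval₂_X, ← hcard, ht, sub_self] at h3
  change eval₂ j t (∏ a : k, (X - Polynomial.C a)) = 0 at h3
  rw [eval₂_finsetProd, Finset.prod_eq_zero_iff] at h3
  obtain ⟨a, -, ha⟩ := h3
  rw [eval₂_sub, eval₂_X, eval₂_C, sub_eq_zero] at ha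
  exact ⟨a, ha.symm⟩

/-- A singular point of a cubic is unique. -/
lemma sing_unique {κ : Type} [Field κ] {a1 a2 a3 a4 a6 x y x' y' : κ}
    (h : y ^ 2 + a1 * x * y + a3 * y = x ^ 3 + a2 * x ^ 2 + a4 * x + a6)
    (h1 : 2 * y + a1 * x + a3 = 0) (h2 : 3 * x ^ 2 + 2 * a2 * x + a4 - a1 * y = 0)
    (h' : y' ^ 2 + a1 * x' * y' + a3 * y' = x' ^ 3 + a2 * x' ^ 2 + a4 * x' + a6)
    (h1' : 2 * y' + a1 * x' + a3 = 0) (h2' : 3 * x' ^ 2 + 2 * a2 * x' + a4 - a1 * y' = 0) :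
    x' = x ∧ y' = y := by
  have e1 : (x' - x) ^ 3 = 0 := by
    linear_combination 2 * (h' - h - (y' - y) * h1) + 2 * (x' - x) * h2 -
      (x' - x) * (h2 - h2') - (y' - y) * (h1' - h1)
  have e2 : x' = x := sub_eq_zero.1 (pow_eq_zero_iff (by norm_num) |>.1 e1)
  subst e2
  refine ⟨rfl, ?_⟩
  have e3 : (y' - y) ^ 2 = 0 := by
    linear_combination (h' - h) - (y' - y) * h1
  exact sub_eq_zero.1 (pow_eq_zero_iff (by norm_num) |>.1 e3)

end frob

section sm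

variable {O K : Type} [CommRing O] [Field K] [Algebra O K] {W : ValuationSubring K}
  {C : WeierstrassCurve O} {x y : K}

/-- The map of the base to the residue field. -/
noncomputable def rO (W : ValuationSubring K) (hOW : ∀ o, algebraMap O K o ∈ W) :
    O →+* ResidueField W :=
  (residue W).comp ((algebraMap O K).codRestrict W.toSubring hOW)

lemma nu_res {x : K} (hx : x ∈ W) : NU W.toSubring x ↔ residue W ⟨x, hx⟩ = 0 := by
  rw [residue_eq_zero_iff, mem_maximalIdeal, mem_nonunits_iff, NU, not_iff_not]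
  constructor
  · rintro ⟨h2, h3⟩
    exact isUnit_iff_exists_inv.2 ⟨⟨_, h3⟩, Subtype.ext (mul_inv_cancel₀ h2)⟩
  · intro h
    obtain ⟨v, hv⟩ := isUnit_iff_exists_inv.1 h
    have h2 : x * (v : K) = 1 := congrArg Subtype.val hv
    refine ⟨left_ne_zero_of_mul_eq_one h2, ?_⟩
    change x⁻¹ ∈ W
    rw [← eq_inv_of_mul_eq_one_right h2]
    exact v.2

/-- The reduction of the equation. -/
lemma red_eqn (hOW : ∀ o, algebraMap O K o ∈ W) (h : Eqn C x y) (hx : x ∈ W) (hy : y ∈ W) :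
    residue W ⟨y, hy⟩ ^ 2 + rO W hOW C.a₁ * residue W ⟨x, hx⟩ * residue W ⟨y, hy⟩ +
      rO W hOW C.a₃ * residue W ⟨y, hy⟩ = residue W ⟨x, hx⟩ ^ 3 +
      rO W hOW C.a₂ * residue W ⟨x, hx⟩ ^ 2 + rO W hOW C.a₄ * residue W ⟨x, hx⟩ +
      rO W hOW C.a₆ := by
  let φ : O →+* W := (algebraMap O K).codRestrict W.toSubring hOW
  have h1 : (⟨y, hy⟩ : W) ^ 2 + φ C.a₁ * ⟨x, hx⟩ * ⟨y, hy⟩ + φ C.a₃ * ⟨y, hy⟩ =
      ⟨x, hx⟩ ^ 3 + φ C.a₂ * ⟨x, hx⟩ ^ 2 + φ C.a₄ * ⟨x, hx⟩ + φ C.a₆ := Subtype.ext h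
  have h2 := congrArg (residue W) h1
  simp only [map_add, map_mul, map_pow] at h2
  exact h2

lemma red_dy (hOW : ∀ o, algebraMap O K o ∈ W) (hx : x ∈ W) (hy : y ∈ W) :
    NU W.toSubring (2 * y + algebraMap O K C.a₁ * x + algebraMap O K C.a₃) ↔
      2 * residue W ⟨y, hy⟩ + rO W hOW C.a₁ * residue W ⟨x, hx⟩ + rO W hOW C.a₃ = 0 := by
  let φ : O →+* W := (algebraMap O K).codRestrict W.toSubring hOW
  have h2 : ((2 * ⟨y, hy⟩ + φ C.a₁ * ⟨x, hx⟩ + φ C.a₃ : W) : K) =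
      2 * y + algebraMap O K C.a₁ * x + algebraMap O K C.a₃ := rfl
  rw [← h2, nu_res (Subtype.property _)]
  rw [show (⟨((2 * ⟨y, hy⟩ + φ C.a₁ * ⟨x, hx⟩ + φ C.a₃ : W) : K), Subtype.property _⟩ : W) =
    2 * ⟨y, hy⟩ + φ C.a₁ * ⟨x, hx⟩ + φ C.a₃ from rfl, map_add, map_add, map_mul, map_mul,
    map_ofNat]
  rfl

lemma red_dx (hOW : ∀ o, algebraMap O K o ∈ W) (hx : x ∈ W) (hy : y ∈ W) :
    NU W.toSubring (3 * x ^ 2 + 2 * algebraMap O K C.a₂ * x + algebraMap O K C.a₄ -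
      algebraMap O K C.a₁ * y) ↔
      3 * residue W ⟨x, hx⟩ ^ 2 + 2 * rO W hOW C.a₂ * residue W ⟨x, hx⟩ + rO W hOW C.a₄ -
        rO W hOW C.a₁ * residue W ⟨y, hy⟩ = 0 := by
  let φ : O →+* W := (algebraMap O K).codRestrict W.toSubring hOW
  have h2 : ((3 * ⟨x, hx⟩ ^ 2 + 2 * φ C.a₂ * ⟨x, hx⟩ + φ C.a₄ - φ C.a₁ * ⟨y, hy⟩ : W) : K) =
      3 * x ^ 2 + 2 * algebraMap O K C.a₂ * x + algebraMap O K C.a₄ -
        algebraMap O K C.a₁ * y := rfl
  rw [← h2, nu_res (Subtype.property _)]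
  rw [show (⟨((3 * ⟨x, hx⟩ ^ 2 + 2 * φ C.a₂ * ⟨x, hx⟩ + φ C.a₄ - φ C.a₁ * ⟨y, hy⟩ : W) : K),
    Subtype.property _⟩ : W) = 3 * ⟨x, hx⟩ ^ 2 + 2 * φ C.a₂ * ⟨x, hx⟩ + φ C.a₄ -
      φ C.a₁ * ⟨y, hy⟩ from rfl, map_sub, map_add, map_add, map_mul, map_mul, map_mul, map_mul,
    map_pow, map_ofNat, map_ofNat]
  rfl

/-- Good reduction. -/
lemma sm_of_disc (hOW : ∀ o, algebraMap O K o ∈ W) (h : Eqn C x y) (hx : x ∈ W) (hy : y ∈ W)
    (hΔ : C.Δ ∉ pr O W hOW) : Sm C x y W := by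
  have h1 : (C.map (rO W hOW)).Δ ≠ 0 := by
    rw [WeierstrassCurve.map_Δ]
    intro h
    apply hΔ
    rw [mem_pr, nu_res (hOW _)]
    exact h
  have h2 : (C.map (rO W hOW)).toAffine.Equation (residue W ⟨x, hx⟩) (residue W ⟨y, hy⟩) := by
    rw [WeierstrassCurve.Affine.equation_iff]
    exact red_eqn hOW h hx hy
  have h3 := (WeierstrassCurve.Affine.equation_iff_nonsingular_of_Δ_ne_zero h1).1 h2
  rw [WeierstrassCurve.Affine.nonsingular_iff'] at h3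
  rcases h3.2 with h4 | h4
  · right
    rw [red_dx hOW hx hy]
    intro h5
    apply h4
    change rO W hOW C.a₁ * residue W ⟨y, hy⟩ - (3 * residue W ⟨x, hx⟩ ^ 2 +
      2 * rO W hOW C.a₂ * residue W ⟨x, hx⟩ + rO W hOW C.a₄) = 0
    linear_combination -h5
  · left
    rw [red_dy hOW hx hy]
    exact h4

/-- A singular point is rational. -/
lemma sing_rat [IsDomain O] (hfin : ∀ 𝔭 : Ideal O, 𝔭.IsPrime → 𝔭 ≠ ⊥ → Finite (O ⧸ 𝔭))
    (hOW : ∀ o, algebraMap O K o ∈ W) (h : Eqn C x y) (hx : x ∈ W) (hy : y ∈ W)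
    (hΔ0 : C.Δ ≠ 0) (hs : ¬ Sm C x y W) :
    C.Δ ∈ pr O W hOW ∧ ∃ x₀ y₀ : O, NU W.toSubring (x - algebraMap O K x₀) ∧
      NU W.toSubring (y - algebraMap O K y₀) := by
  have hΔ : C.Δ ∈ pr O W hOW := by
    by_contra h1
    exact hs (sm_of_disc hOW h hx hy h1)
  refine ⟨hΔ, ?_⟩
  have hprime : (pr O W hOW).IsPrime := pr_prime W hOW
  have hne : pr O W hOW ≠ ⊥ := by
    intro h1
    rw [h1, Ideal.mem_bot] at hΔ
    exact hΔ0 hΔ
  have hfinp := hfin _ hprime hne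
  have hmax : (pr O W hOW).IsMaximal := by
    rw [Ideal.Quotient.maximal_ideal_iff_isField_quotient]
    exact Finite.isDomain_to_isField _
  let _ : Field (O ⧸ pr O W hOW) := Ideal.Quotient.field _
  have hker : ∀ a ∈ pr O W hOW, rO W hOW a = 0 := by
    intro a ha
    rw [mem_pr, nu_res (hOW _)] at ha
    exact ha
  let j : (O ⧸ pr O W hOW) →+* ResidueField W := Ideal.Quotient.lift _ (rO W hOW) hker
  have hj : ∀ o, j (Ideal.Quotient.mk _ o) = rO W hOW o := fun o => Ideal.Quotient.lift_mk _ _ _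
  set q := Nat.card (O ⧸ pr O W hOW) with hq
  -- the Frobenius
  have hfr : ∀ a : O, rO W hOW a ^ q = rO W hOW a := by
    intro a
    have _ := Fintype.ofFinite (O ⧸ pr O W hOW)
    rw [← hj, ← map_pow, hq, Nat.card_eq_fintype_card, FiniteField.pow_card]
  obtain ⟨p, hp⟩ := CharP.exists (O ⧸ pr O W hOW)
  have _ := Fintype.ofFinite (O ⧸ pr O W hOW)
  obtain ⟨n, hpp, hqn⟩ := FiniteField.card (O ⧸ pr O W hOW) p
  have hqn' : q = p ^ (n : ℕ) := by rw [hq, Nat.card_eq_fintype_card, hqn]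
  have hchar : CharP (ResidueField W) p := charP_of_injective_ringHom j.injective p
  have hfact : Fact p.Prime := ⟨hpp⟩
  let Φ : ResidueField W →+* ResidueField W := iterateFrobenius (ResidueField W) p n
  have hΦ : ∀ t, Φ t = t ^ q := by
    intro t
    rw [hqn']
    exact iterateFrobenius_def _ _ _
  have hΦa : ∀ a : O, Φ (rO W hOW a) = rO W hOW a := fun a => by rw [hΦ, hfr]
  have e0 := red_eqn hOW h hx hy
  have e1 : 2 * residue W ⟨y, hy⟩ + rO W hOW C.a₁ * residue W ⟨x, hx⟩ + rO W hOW C.a₃ = 0 := by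
    by_contra h1
    exact hs (Or.inl fun h2 => h1 ((red_dy hOW hx hy).1 h2))
  have e2 : 3 * residue W ⟨x, hx⟩ ^ 2 + 2 * rO W hOW C.a₂ * residue W ⟨x, hx⟩ + rO W hOW C.a₄ -
        rO W hOW C.a₁ * residue W ⟨y, hy⟩ = 0 := by
    by_contra h1
    exact hs (Or.inr fun h2 => h1 ((red_dx hOW hx hy).1 h2))
  have e0' := congrArg Φ e0
  have e1' := congrArg Φ e1
  have e2' := congrArg Φ e2
  simp only [map_add, map_sub, map_mul, map_pow, map_ofNat, map_zero, hΦa] at e0' e1' e2'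
  obtain ⟨hx', hy'⟩ := sing_unique e0 e1 e2 e0' e1' e2'
  rw [hΦ] at hx' hy'
  obtain ⟨a, ha⟩ := fin_fixed j hx'
  obtain ⟨b, hb⟩ := fin_fixed j hy'
  obtain ⟨x₀, rfl⟩ := Ideal.Quotient.mk_surjective a
  obtain ⟨y₀, rfl⟩ := Ideal.Quotient.mk_surjective b
  rw [hj] at ha hb
  refine ⟨x₀, y₀, ?_, ?_⟩
  · rw [nu_res (sub_mem hx (hOW _))]
    have h1 : (⟨x - algebraMap O K x₀, sub_mem hx (hOW _)⟩ : W) =
      ⟨x, hx⟩ - ⟨algebraMap O K x₀, hOW _⟩ := rfl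
    rw [h1, map_sub, sub_eq_zero, ← ha]
    rfl
  · rw [nu_res (sub_mem hy (hOW _))]
    have h1 : (⟨y - algebraMap O K y₀, sub_mem hy (hOW _)⟩ : W) =
      ⟨y, hy⟩ - ⟨algebraMap O K y₀, hOW _⟩ := rfl
    rw [h1, map_sub, sub_eq_zero, ← hb]
    rfl

end sm

end Pool.Agent.X269.KP
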