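import Pool.Agent.W418.LU2.Ded

/-!
# Adjoining a root of a polynomial to a regular local ring in a valuation ring
-/

set_option autoImplicit false

universe u

namespace Pool.Agent.X269.KP

open IsLocalRing Polynomial Pool.Agent.W418.LU2

section pseudo

variable {B F : Type u} [CommRing B] [IsDomain B] [Field F]

/-- Pseudo-division by a polynomial of minimal degree. -/
theorem pseudo (i : B →+* F) (t : F) (h : B[X]) (h0 : h ≠ 0) (ht : eval₂ i t h = 0)
    (hmin : ∀ g : B[X], g ≠ 0 → eval₂ i t g = 0 → h.natDegree ≤ g.natDegree) :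
    ∀ (n : ℕ) (g : B[X]), g.natDegree ≤ n → eval₂ i t g = 0 →
      ∃ c : B, c ≠ 0 ∧ ∃ q : B[X], C c * g = q * h := by
  intro n
  induction n with
  | zero =>
    intro g hg hgt
    by_cases hg0 : g = 0
    · exact ⟨1, one_ne_zero, 0, by rw [hg0]; simp⟩
    · have h1 := hmin g hg0 hgt
      have h2 : g.natDegree = 0 := Nat.le_zero.1 hg
      have h3 : h.natDegree = 0 := by omega
      rw [Polynomial.natDegree_eq_zero] at h2 h3
      obtain ⟨a, rfl⟩ := h2
      obtain ⟨b, rfl⟩ := h3
      have hb0 : b ≠ 0 := fun hb => h0 (by rw [hb, C_0])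
      exact ⟨b, hb0, C a, by rw [mul_comm]⟩
  | succ n ih =>
    intro g hg hgt
    by_cases hg0 : g = 0
    · exact ⟨1, one_ne_zero, 0, by rw [hg0]; simp⟩
    · have h1 := hmin g hg0 hgt
      -- reduce
      set a := g.leadingCoeff with ha
      set b := h.leadingCoeff with hb
      have hb0 : b ≠ 0 := leadingCoeff_ne_zero.2 h0
      have ha0 : a ≠ 0 := leadingCoeff_ne_zero.2 hg0
      set d := g.natDegree - h.natDegree with hd
      let r : B[X] := C b * g - C a * X ^ d * h
      have hrt : eval₂ i t r = 0 := by
        simp only [r, eval₂_sub, eval₂_mul, hgt, ht, mul_zero, sub_zero]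
      have hrd : r.natDegree ≤ n := by
        have e1 : (C b * g).degree = g.degree := by
          rw [degree_mul, degree_C hb0, zero_add]
        have e2 : (C a * X ^ d * h).degree = g.degree := by
          rw [degree_mul, degree_mul, degree_C ha0, zero_add, degree_X_pow,
            degree_eq_natDegree h0, degree_eq_natDegree hg0]
          have : d + h.natDegree = g.natDegree := by omega
          exact_mod_cast this
        have e3 : (C b * g).leadingCoeff = (C a * X ^ d * h).leadingCoeff := by
          rw [leadingCoeff_mul, leadingCoeff_mul, leadingCoeff_mul, leadingCoeff_C,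
            leadingCoeff_C, leadingCoeff_X_pow, mul_one, mul_comm]
        have h4 : r.degree < (C b * g).degree := by
          refine degree_sub_lt_left (by rw [e1, e2]) ?_ e3
          exact mul_ne_zero (fun h => hb0 (C_eq_zero.1 h)) hg0
        rw [e1] at h4
        by_cases hr0 : r = 0
        · rw [hr0]; simp
        · have h5 := natDegree_lt_natDegree hr0 h4
          omega
      obtain ⟨c, hc, q, hq⟩ := ih r hrd hrt
      refine ⟨c * b, mul_ne_zero hc hb0, q + C (c * a) * X ^ d, ?_⟩
      simp only [r] at hq
      rw [C_mul, C_mul, add_mul, ← hq]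
      ring

end pseudo

variable {F : Type u} [Field F] {A S : Subring F}

/-- Adjoining a root of a polynomial which is not in the square of the maximal ideal. -/
theorem root_step (hA : Loc A) (hS : S ≤ A) (hreg : IsRegularLocalRing (lo A S)) {t : F}
    (ht : t ∈ A) (f : (lo A S)[X]) (hf : eval₂ (lo A S).subtype t f = 0)
    (hf2 : ∀ s g : (lo A S)[X], s ∉ (adj_closure hA hS ht).P →
      s * f = g → g ∉ (adj_closure hA hS ht).P ^ 2) :
    IsRegularLocalRing (lo A (Subring.closure (insert t (S : Set F)))) := by
  classical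
  have ad := adj_closure hA hS ht
  have hP := ad.P_prime
  have hloc := isLocalRing_lo hA ad.SA
  obtain ⟨hC, -, -⟩ := poly_indN ad.P ad.comap_P
    (z := (Empty.elim : Empty → lo A S)) (by
      intro c hc hs l
      exact l.elim)
  set R := Localization.AtPrime ad.P with hR
  have hfP : f ∈ ad.P := by
    by_contra h
    rw [ad.not_mem_P, isUnit_lo_iff ad.SA, ad.ev_coe] at h
    exact h.1 hf
  have hfm : algebraMap (lo A S)[X] R f ∈ maximalIdeal R :=
    (IsLocalization.AtPrime.to_map_mem_maximal_iff _ ad.P _).2 hfP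
  have hinj : Function.Injective (algebraMap (lo A S)[X] R) :=
    IsLocalization.injective R ad.P.primeCompl_le_nonZeroDivisors
  have hf2' : algebraMap (lo A S)[X] R f ∉ maximalIdeal R ^ 2 := by
    intro h
    rw [← Localization.AtPrime.map_eq_maximalIdeal, ← Ideal.map_pow,
      IsLocalization.mem_map_algebraMap_iff ad.P.primeCompl] at h
    obtain ⟨⟨a, s⟩, h⟩ := h
    have h1 : f * (s : (lo A S)[X]) = a := hinj (by rw [map_mul]; exact h)
    exact hf2 s a s.2 (by rw [mul_comm]; exact h1) a.2
  have hind : Ind (fun _ : Unit => algebraMap (lo A S)[X] R f) := by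
    refine ⟨fun _ => hfm, fun c hc i => ?_⟩
    by_contra hi
    have hu : IsUnit (c i) := by
      by_contra h
      exact hi ((mem_maximalIdeal _).2 h)
    apply hf2'
    rw [Fintype.sum_unique] at hc
    obtain ⟨v, hv⟩ := hu
    have hdef : (default : Unit) = i := rfl
    rw [hdef, ← hv] at hc
    have h1 := Ideal.mul_mem_left (maximalIdeal R ^ 2) (↑v⁻¹ : R) hc
    rwa [Units.inv_mul_cancel_left] at h1
  have hprime : Prime (algebraMap (lo A S)[X] R f) := hind.prime ()
  have hsub : Function.Injective (lo A S).subtype := Subtype.val_injective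
  -- the kernel
  have hk : RingHom.ker ad.th = Ideal.span (Set.range fun _ : Unit =>
      algebraMap (lo A S)[X] R f) := by
    have hrange : Set.range (fun _ : Unit => algebraMap (lo A S)[X] R f) =
        {algebraMap (lo A S)[X] R f} := by
      ext y; simp
    rw [hrange]
    apply le_antisymm
    · intro y hy
      obtain ⟨g, s, rfl⟩ := IsLocalization.exists_mk'_eq ad.P.primeCompl y
      have hgt : eval₂ (lo A S).subtype t g = 0 := by
        have h4 : ad.th (IsLocalization.mk' R g s * algebraMap _ _ (s : (lo A S)[X])) = 0 := by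
          rw [map_mul, RingHom.mem_ker.1 hy, zero_mul]
        rw [IsLocalization.mk'_spec, ad.th_alg] at h4
        exact congrArg Subtype.val h4
      rw [IsLocalization.mk'_eq_mul_mk'_one]
      refine Ideal.mul_mem_right _ _ ?_
      rw [Ideal.mem_span_singleton]
      -- a polynomial of minimal degree
      have hf0 : f ≠ 0 := by
        rintro rfl
        exact hprime.1 (map_zero _)
      have hex : ∃ k : ℕ, ∃ h : (lo A S)[X], h.natDegree = k ∧ h ≠ 0 ∧
          eval₂ (lo A S).subtype t h = 0 := ⟨_, f, rfl, hf0, hf⟩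
      obtain ⟨h, hkd, hh0, hht⟩ := Nat.find_spec hex
      have hmin : ∀ g : (lo A S)[X], g ≠ 0 → eval₂ (lo A S).subtype t g = 0 →
          h.natDegree ≤ g.natDegree := fun g hg0 hgt' => by
        rw [hkd]
        exact Nat.find_min' hex ⟨g, rfl, hg0, hgt'⟩
      obtain ⟨c₁, hc₁, q₁, hq₁⟩ := pseudo (lo A S).subtype t h hh0 hht hmin _ f le_rfl hf
      obtain ⟨c₂, hc₂, q₂, hq₂⟩ := pseudo (lo A S).subtype t h hh0 hht hmin _ g le_rfl hgt
      have hfq : algebraMap (lo A S)[X] R f ∣ algebraMap _ R q₁ * algebraMap _ R h := by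
        rw [← map_mul, ← hq₁, map_mul]
        exact dvd_mul_left _ _
      have hcne : ∀ c : lo A S, c ≠ 0 → ¬ algebraMap (lo A S)[X] R f ∣ algebraMap _ R (C c) := by
        rintro c hc ⟨e, he⟩
        have h1 := congrArg ad.th he
        have h2 : ad.th (algebraMap (lo A S)[X] R f) = 0 := by
          rw [ad.th_alg]
          exact Subtype.ext hf
        rw [map_mul, h2, zero_mul, ad.th_alg] at h1
        have h3 := congrArg Subtype.val h1
        rw [ad.ev_C] at h3
        exact hc (Subtype.ext h3)
      have hfh : algebraMap (lo A S)[X] R f ∣ algebraMap _ R h := by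
        rcases hprime.2.2 _ _ hfq with h1 | h1
        · exfalso
          obtain ⟨e, he⟩ := h1
          obtain ⟨k, s', rfl⟩ := IsLocalization.exists_mk'_eq ad.P.primeCompl e
          have h2 : algebraMap (lo A S)[X] R (q₁ * s') = algebraMap _ R (f * k) := by
            rw [map_mul, he, mul_assoc, IsLocalization.mk'_spec, ← map_mul]
          have h3 : q₁ * (s' : (lo A S)[X]) = f * k := hinj h2
          have h4 : C c₁ * (s' : (lo A S)[X]) = k * h := by
            have h5 : f * (C c₁ * (s' : (lo A S)[X])) = f * (k * h) := by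
              calc f * (C c₁ * (s' : (lo A S)[X])) = (C c₁ * f) * s' := by ring
                _ = (q₁ * h) * s' := by rw [hq₁]
                _ = (q₁ * s') * h := by ring
                _ = (f * k) * h := by rw [h3]
                _ = f * (k * h) := by ring
            exact mul_left_cancel₀ hf0 h5
          have h6 := congrArg (eval₂ (lo A S).subtype t) h4
          rw [eval₂_mul, eval₂_mul, hht, mul_zero, eval₂_C] at h6
          rcases mul_eq_zero.1 h6 with h7 | h7
          · exact hc₁ (hsub (by rw [h7, map_zero]))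
          · have h8 := (ad.not_mem_P s'.1).1 s'.2
            rw [isUnit_lo_iff ad.SA, ad.ev_coe] at h8
            exact h8.1 h7
        · exact h1
      have hfg : algebraMap (lo A S)[X] R f ∣ algebraMap _ R (C c₂) * algebraMap _ R g := by
        rw [← map_mul, hq₂, map_mul]
        exact Dvd.dvd.mul_left hfh _
      exact (hprime.2.2 _ _ hfg).resolve_left (hcne c₂ hc₂)
    · rw [Ideal.span_le, Set.singleton_subset_iff]
      refine RingHom.mem_ker.2 ?_
      rw [ad.th_alg]
      exact Subtype.ext hf
  have h3 : Ind (Sum.elim (Empty.elim : Empty → R) (fun _ : Unit =>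
      algebraMap (lo A S)[X] R f)) := by
    have h4 := (hind.comp (fun x : Empty ⊕ Unit => (x.elim (fun e => e.elim) id : Unit)) (by
      rintro (a | a) (b | b) h
      · exact a.elim
      · exact a.elim
      · exact b.elim
      · rfl))
    convert h4 using 1
    funext l
    rcases l with l | l
    · exact l.elim
    · rfl
  exact (quot_regular h3 ad.th ad.th_surj hk).1

/-- Adjoining a simple root. -/
theorem root_deriv (hA : Loc A) (hS : S ≤ A) (hreg : IsRegularLocalRing (lo A S)) {t : F}
    (ht : t ∈ A) (f : (lo A S)[X]) (hf : eval₂ (lo A S).subtype t f = 0)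
    (hd : eval₂ (lo A S).subtype t (derivative f) ≠ 0)
    (hd' : (eval₂ (lo A S).subtype t (derivative f))⁻¹ ∈ A) :
    IsRegularLocalRing (lo A (Subring.closure (insert t (S : Set F)))) := by
  refine root_step hA hS hreg ht f hf ?_
  rintro s g hs rfl hg
  have ad := adj_closure hA hS ht
  have hP := ad.P_prime
  have hfP : f ∈ ad.P := by
    by_contra h
    rw [ad.not_mem_P, isUnit_lo_iff ad.SA, ad.ev_coe] at h
    exact h.1 hf
  have key : ∀ g ∈ ad.P ^ 2, derivative g ∈ ad.P := by
    intro g hg
    rw [pow_two] at hg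
    refine Submodule.mul_induction_on hg ?_ ?_
    · intro a ha b hb
      rw [derivative_mul]
      exact Ideal.add_mem _ (Ideal.mul_mem_left _ _ hb) (Ideal.mul_mem_right _ _ ha)
    · intro a b ha hb
      rw [derivative_add]
      exact Ideal.add_mem _ ha hb
  have h1 := key _ hg
  rw [derivative_mul] at h1
  have h2 : s * derivative f ∈ ad.P := by
    have h3 : s * derivative f = derivative s * f + s * derivative f - derivative s * f := by ring
    rw [h3]
    exact Ideal.sub_mem _ h1 (Ideal.mul_mem_left _ _ hfP)
  rcases hP.mem_or_mem h2 with h3 | h3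
  · exact hs h3
  · have h4 : derivative f ∉ ad.P := by
      rw [ad.not_mem_P, isUnit_lo_iff ad.SA, ad.ev_coe]
      exact ⟨hd, hd'⟩
    exact h4 h3

/-- Adjoining a root of a polynomial whose constant term is a parameter modulo the square of the
maximal ideal. -/
theorem root_const {ι : Type} [Fintype ι] {x : ι → F} (hA : Loc A) (hS : S ≤ A)
    (hreg : RegP A (lo A S) x) {t : F} (ht : t ∈ A) (f : (lo A S)[X])
    (hf : eval₂ (lo A S).subtype t f = 0) (l : ι)
    (hc : f - C ⟨x l, hreg.mem l⟩ ∈ (adj_closure hA hS ht).P ^ 2) :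
    IsRegularLocalRing (lo A (Subring.closure (insert t (S : Set F)))) := by
  refine root_step hA hS hreg.reg ht f hf ?_
  rintro s g hs rfl hg
  have ad := adj_closure hA hS ht
  have hP := ad.P_prime
  have hR := hreg.reg
  obtain ⟨hC, h1, -⟩ := poly_indN ad.P ad.comap_P hreg.ind
  have h2 : s * C ⟨x l, hreg.mem l⟩ ∈ ad.P ^ 2 := by
    have h3 : s * C ⟨x l, hreg.mem l⟩ = s * f - s * (f - C ⟨x l, hreg.mem l⟩) := by ring
    rw [h3]
    exact Ideal.sub_mem _ hg (Ideal.mul_mem_left _ _ hc)
  have h3 : algebraMap _ (Localization.AtPrime ad.P) (s * C ⟨x l, hreg.mem l⟩) ∈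
      maximalIdeal (Localization.AtPrime ad.P) ^ 2 := by
    rw [← Localization.AtPrime.map_eq_maximalIdeal, ← Ideal.map_pow]
    exact Ideal.mem_map_of_mem _ h2
  have hu : IsUnit (algebraMap _ (Localization.AtPrime ad.P) s) :=
    IsLocalization.map_units _ (⟨s, hs⟩ : ad.P.primeCompl)
  rw [map_mul] at h3
  have h4 := (Ideal.unit_mul_mem_iff_mem _ hu).1 h3
  have hmem : algebraMap (lo A S)[X] (Localization.AtPrime ad.P)
      (C (⟨x l, hreg.mem l⟩ : lo A S)) ∈
      maximalIdeal (Localization.AtPrime ad.P) := Ideal.pow_le_self two_ne_zero h4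
  have h5 := h1.ind (fun _ : Unit => l) (fun a b _ => rfl) (fun _ => hmem)
  have h6 := h5.2 (fun _ => 1) (by
    rw [Fintype.sum_unique, one_mul]
    exact h4) ()
  exact (Ideal.ne_top_iff_one _).1 (maximalIdeal.isMaximal _).ne_top h6

end Pool.Agent.X269.KP
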