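import Pool.Agent.X269.KP.Nondeg

/-!
# Quotients of products by the diagonal involution
-/

set_option autoImplicit false

namespace Pool.Agent.X269.KP

open IsLocalRing Pool.Agent.Y223.INV Pool.Agent.W418.LU2 Pool.Agent.TH188.QS
  Pool.Agent.H918R2.Quad Pool.Agent.TH188.ARC

section im

variable {K : Type} [Field K] {Q : Subring K} {𝔞 𝔟 : Ideal Q} {x y : K}

/-- The element `x` of `K` is in the ideal `𝔞` of `Q`. -/
def Im (𝔞 : Ideal Q) (x : K) : Prop := ∃ y ∈ 𝔞, (y : K) = x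

lemma Im.of {q : Q} (h : q ∈ 𝔞) : Im 𝔞 (q : K) := ⟨q, h, rfl⟩

lemma Im.mem (h : Im 𝔞 x) : x ∈ Q := by
  obtain ⟨y, -, rfl⟩ := h
  exact y.2

lemma Im.mk (h : Im 𝔞 x) (hx : x ∈ Q) : (⟨x, hx⟩ : Q) ∈ 𝔞 := by
  obtain ⟨y, hy, h1⟩ := h
  have : y = ⟨x, hx⟩ := Subtype.ext h1
  rwa [← this]

lemma Im.add (hx : Im 𝔞 x) (hy : Im 𝔞 y) : Im 𝔞 (x + y) := by
  obtain ⟨a, ha, rfl⟩ := hx
  obtain ⟨b, hb, rfl⟩ := hy
  exact ⟨a + b, 𝔞.add_mem ha hb, rfl⟩

lemma Im.sub (hx : Im 𝔞 x) (hy : Im 𝔞 y) : Im 𝔞 (x - y) := by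
  obtain ⟨a, ha, rfl⟩ := hx
  obtain ⟨b, hb, rfl⟩ := hy
  exact ⟨a - b, 𝔞.sub_mem ha hb, rfl⟩

lemma Im.neg (hx : Im 𝔞 x) : Im 𝔞 (-x) := by
  obtain ⟨a, ha, rfl⟩ := hx
  exact ⟨-a, (Ideal.neg_mem_iff _).2 ha, rfl⟩

lemma Im.zero : Im 𝔞 (0 : K) := ⟨0, 𝔞.zero_mem, rfl⟩

lemma Im.mul_left (hx : x ∈ Q) (hy : Im 𝔞 y) : Im 𝔞 (x * y) := by
  obtain ⟨b, hb, rfl⟩ := hy
  exact ⟨⟨x, hx⟩ * b, 𝔞.mul_mem_left _ hb, rfl⟩

lemma Im.mul_right (hx : x ∈ Q) (hy : Im 𝔞 y) : Im 𝔞 (y * x) := by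
  rw [mul_comm]
  exact hy.mul_left hx

lemma Im.mul (hx : Im 𝔞 x) (hy : Im 𝔟 y) : Im (𝔞 * 𝔟) (x * y) := by
  obtain ⟨a, ha, rfl⟩ := hx
  obtain ⟨b, hb, rfl⟩ := hy
  exact ⟨a * b, Ideal.mul_mem_mul ha hb, rfl⟩

lemma Im.sq (hx : Im 𝔞 x) (hy : Im 𝔞 y) : Im (𝔞 ^ 2) (x * y) := by
  rw [pow_two]
  exact hx.mul hy

lemma Im.mono (h : 𝔞 ≤ 𝔟) (hx : Im 𝔞 x) : Im 𝔟 x := by
  obtain ⟨a, ha, rfl⟩ := hx
  exact ⟨a, h ha, rfl⟩

end im

variable {O K : Type} [CommRing O] [Field K] [Algebra O K] {ι : Type}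

/-- The generators of the chart. -/
def DS (M : ι → Submodule O K) (h : ι → K) : Set K :=
  Set.range (algebraMap O K) ∪ {y | ∃ i, ∃ x ∈ M i, y = x / h i}

variable [DecidableEq ι]

lemma prod_mem_prod (M : ι → Submodule O K) (x : ι → K) (s : Finset ι) (hx : ∀ i ∈ s, x i ∈ M i) :
    ∏ i ∈ s, x i ∈ ∏ i ∈ s, M i := by
  induction s using Finset.induction_on with
  | empty =>
    rw [Finset.prod_empty, Finset.prod_empty]
    exact Submodule.one_le.1 le_rfl
  | insert a s ha ih =>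
    rw [Finset.prod_insert ha, Finset.prod_insert ha]
    exact Submodule.mul_mem_mul (hx a (Finset.mem_insert_self _ _))
      (ih fun i hi => hx i (Finset.mem_insert_of_mem hi))

lemma prod_fg (M : ι → Submodule O K) (hM : ∀ i, (M i).FG) (s : Finset ι) :
    (∏ i ∈ s, M i).FG := by
  induction s using Finset.induction_on with
  | empty =>
    rw [Finset.prod_empty, Submodule.one_eq_span]
    exact Submodule.fg_span_singleton _
  | insert a s ha ih =>
    rw [Finset.prod_insert ha]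
    exact (hM a).mul ih

lemma prod_stable (M : ι → Submodule O K) (σ : K ≃ₐ[O] K) (hM : ∀ i, ∀ x ∈ M i, σ x ∈ M i)
    (s : Finset ι) : ∀ x ∈ ∏ i ∈ s, M i, σ x ∈ ∏ i ∈ s, M i := by
  induction s using Finset.induction_on with
  | empty =>
    intro x hx
    rw [Finset.prod_empty, Submodule.mem_one] at hx
    obtain ⟨o, rfl⟩ := hx
    rw [σ.commutes, Finset.prod_empty, Submodule.mem_one]
    exact ⟨o, rfl⟩
  | insert a s ha ih =>
    intro x hx
    rw [Finset.prod_insert ha] at hx ⊢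
    refine Submodule.mul_induction_on hx ?_ ?_
    · intro x hx y hy
      rw [map_mul]
      exact Submodule.mul_mem_mul (hM a x hx) (ih y hy)
    · intro x y hx hy
      rw [map_add]
      exact Submodule.add_mem _ hx hy

lemma prod_div_mem (M : ι → Submodule O K) (h : ι → K) (A : Subalgebra O K) (s : Finset ι)
    (hA : ∀ i ∈ s, ∀ x ∈ M i, x / h i ∈ A) : ∀ x ∈ ∏ i ∈ s, M i, x / ∏ i ∈ s, h i ∈ A := by
  induction s using Finset.induction_on with
  | empty =>
    intro x hx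
    rw [Finset.prod_empty, Submodule.mem_one] at hx
    obtain ⟨o, rfl⟩ := hx
    rw [Finset.prod_empty, div_one]
    exact A.algebraMap_mem o
  | insert a s ha ih =>
    intro x hx
    rw [Finset.prod_insert ha] at hx ⊢
    refine Submodule.mul_induction_on hx ?_ ?_
    · intro x hx y hy
      rw [mul_div_mul_comm]
      exact A.mul_mem (hA a (Finset.mem_insert_self _ _) x hx)
        (ih (fun i hi => hA i (Finset.mem_insert_of_mem hi)) y hy)
    · intro x y hx hy
      rw [add_div]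
      exact A.add_mem hx hy

variable [Fintype ι]

/-- The module of the centre. -/
def PI (M N : ι → Submodule O K) : Submodule O K :=
  ⨆ i, N i * ∏ j ∈ Finset.univ.erase i, M j

lemma PI_le {M N : ι → Submodule O K} (hNM : ∀ i, N i ≤ M i) : PI M N ≤ ∏ i, M i := by
  refine iSup_le fun i => ?_
  rw [← Finset.mul_prod_erase Finset.univ M (Finset.mem_univ i)]
  exact mul_le_mul' (hNM i) le_rfl

/-- Induction for the module of the centre. -/
lemma PI_ind {M N : ι → Submodule O K} {p : K → Prop} (h0 : p 0) (hadd : ∀ x y, p x → p y → p (x + y))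
    (hmul : ∀ i, ∀ x ∈ N i, ∀ y ∈ ∏ j ∈ Finset.univ.erase i, M j, p (x * y)) :
    ∀ x ∈ PI M N, p x := by
  intro x hx
  refine Submodule.iSup_induction _ (motive := p) hx ?_ h0 hadd
  intro i x hx
  exact Submodule.mul_induction_on hx (hmul i) hadd

theorem prod_module {F : Type} [IsDomain O] [IsNoetherianRing O] [Field F] [Algebra O F]
    [Algebra F K] [IsScalarTower O F K] (hO : Function.Injective (algebraMap O K)) [Nonempty ι]
    (M N : ι → Submodule O K) (σ : K ≃ₐ[O] K) (hσ : ∀ x, σ (σ x) = x) (hσ1 : ∃ x, σ x ≠ x)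
    (hF : ∀ x, σ x = x ↔ ∃ f : F, algebraMap F K f = x)
    (hM : ∀ i, (M i).FG) (h1 : ∀ i, (1 : K) ∈ M i) (hσM : ∀ i, ∀ x ∈ M i, σ x ∈ M i)
    (hNM : ∀ i, N i ≤ M i) (hσN : ∀ i, ∀ x ∈ N i, σ x ∈ N i) (hN0 : ∀ i, ∃ x ∈ N i, x ≠ 0)
    (hgen : Subfield.closure (Set.range (algebraMap O K) ∪ {x | ∃ i, x ∈ M i}) = ⊤)
    (hloc : ∀ W : ValuationSubring K, (∀ o, algebraMap O K o ∈ W) → ∃ h : ι → K,
      (∀ i, h i ∈ M i ∧ h i ≠ 0 ∧ ∀ x ∈ M i, x / h i ∈ W) ∧
      ∀ Q, Q = lo W.toSubring (Subring.closure (DS M h)) → ∃ _ : IsRegularLocalRing Q,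
        ∀ 𝔞 : Ideal Q, 𝔞 = Ideal.span {y : Q | ∃ i, ∃ n ∈ N i, (y : K) = n / h i} →
          (𝔞 ≠ ⊤ → 𝔞 = maximalIdeal Q) ∧
          (¬ IsUnit (2 : Q) → IsFixed σ Q → 𝔞 ≠ ⊤ ∧ NondegenerateWild σ Q 𝔞)) :
    HasModule O F := by
  set Mt : Submodule O K := ∏ i, M i with hMt
  have hMtfg : Mt.FG := prod_fg M hM _
  have hle := PI_le hNM
  have h1t : (1 : K) ∈ Mt := by
    have h2 := prod_mem_prod M (fun _ => (1 : K)) Finset.univ fun i _ => h1 i
    rwa [Finset.prod_const_one] at h2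
  have hMile : ∀ i, ∀ x ∈ M i, x ∈ Mt := by
    intro i x hx
    have h2 := prod_mem_prod M (Function.update (fun _ => (1 : K)) i x) Finset.univ (by
      intro j _
      by_cases hj : j = i
      · subst hj
        rwa [Function.update_self]
      · rw [Function.update_of_ne hj]
        exact h1 j)
    rw [Finset.prod_update_of_mem (Finset.mem_univ i), Finset.prod_const_one, mul_one] at h2
    exact h2
  have hcl1 : Subfield.closure (chart O Mt (1 : K) : Set K) = ⊤ := by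
    rw [eq_top_iff, ← hgen, Subfield.closure_le]
    rintro x (⟨o, rfl⟩ | ⟨i, hx⟩)
    · exact Subfield.subset_closure (Subalgebra.algebraMap_mem _ o)
    · exact Subfield.subset_closure (Algebra.subset_adjoin ⟨x, hMile i x hx, by simp⟩)
  have hne' : ∃ x ∈ Mt, σ x ≠ x := by
    by_contra hcon
    push Not at hcon
    obtain ⟨x, hx⟩ := hσ1
    apply hx
    let L : Subfield K := (RingHom.eqLocusField (σ : K →+* K) (RingHom.id K))
    have hL : ∀ x, x ∈ L ↔ σ x = x := fun x => Iff.rfl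
    have h2 : (⊤ : Subfield K) ≤ L := by
      rw [← hgen, Subfield.closure_le]
      rintro x (⟨o, rfl⟩ | ⟨i, hx⟩)
      · exact (hL _).2 (σ.commutes o)
      · exact (hL _).2 (hcon x (hMile i x hx))
    exact (hL x).1 (h2 trivial)
  have hN0' := hN0
  choose n₀ hn₀ hn₀0 using hN0'
  obtain ⟨i₀⟩ := ‹Nonempty ι›
  refine inv_hasModule σ hσ hF (M := Mt) (I := PI M N) hMtfg (fg_of_le hle hMtfg)
    (prod_stable M σ hσM _) ?_ hle ?_ ?_ ?_ ?_
  · refine PI_ind ?_ ?_ ?_
    · rw [map_zero]; exact Submodule.zero_mem _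
    · intro x y hx hy
      rw [map_add]; exact Submodule.add_mem _ hx hy
    · intro i x hx y hy
      rw [map_mul]
      exact (le_iSup (fun i => N i * ∏ j ∈ Finset.univ.erase i, M j) i)
        (Submodule.mul_mem_mul (hσN i x hx) (prod_stable M σ hσM _ y hy))
  · refine ⟨n₀ i₀, (le_iSup (fun i => N i * ∏ j ∈ Finset.univ.erase i, M j) i₀) ?_, hn₀0 i₀⟩
    rw [← mul_one (n₀ i₀)]
    refine Submodule.mul_mem_mul (hn₀ i₀) ?_
    have h2 := prod_mem_prod M (fun _ => (1 : K)) (Finset.univ.erase i₀) fun i _ => h1 i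
    rwa [Finset.prod_const_one] at h2
  · obtain ⟨x, hx, hx1⟩ := hne'
    refine ⟨x, hx, 1, h1t, ?_⟩
    rw [wd, mul_one, map_one, mul_one]
    exact sub_ne_zero.2 hx1
  · intro m hm hm0
    refine closure_chart (D := 1) (M := Mt) (m := 1) hO h1t one_ne_zero hcl1 le_rfl ?_ m hm0
    intro y hy
    rw [pow_one] at hy
    exact ⟨1, one_ne_zero, by rwa [one_smul]⟩
  · intro W hOW
    obtain ⟨h, hh, hQ⟩ := hloc W hOW
    set m := ∏ i, h i with hm
    have hm0 : m ≠ 0 := Finset.prod_ne_zero_iff.2 fun i _ => (hh i).2.1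
    have hmM : m ∈ Mt := prod_mem_prod M h _ fun i _ => (hh i).1
    have hne : ∀ i, (∏ j ∈ Finset.univ.erase i, h j) ≠ 0 := fun i =>
      Finset.prod_ne_zero_iff.2 fun j _ => (hh j).2.1
    have hmi : ∀ i, m = h i * ∏ j ∈ Finset.univ.erase i, h j := fun i => by
      rw [hm, ← Finset.mul_prod_erase Finset.univ h (Finset.mem_univ i)]
    have hsplit : ∀ i (x : K), x / h i = (x * ∏ j ∈ Finset.univ.erase i, h j) / m := by
      intro i x
      rw [hmi i, mul_div_mul_right _ _ (hne i)]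
    set A : Subalgebra O K := Algebra.adjoin O {y | ∃ i, ∃ x ∈ M i, y = x / h i} with hA
    have hAm : ∀ i, ∀ x ∈ M i, x / h i ∈ A := fun i x hx => Algebra.subset_adjoin ⟨i, x, hx, rfl⟩
    have hchart : chart O Mt m = A := by
      apply le_antisymm
      · refine Algebra.adjoin_le ?_
        rintro _ ⟨x, hx, rfl⟩
        exact prod_div_mem M h A Finset.univ (fun i _ => hAm i) x hx
      · refine Algebra.adjoin_le ?_
        rintro _ ⟨i, x, hx, rfl⟩
        refine Algebra.subset_adjoin ⟨x * ∏ j ∈ Finset.univ.erase i, h j, ?_, hsplit i x⟩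
        change _ ∈ ∏ i, M i
        rw [← Finset.mul_prod_erase Finset.univ M (Finset.mem_univ i)]
        exact Submodule.mul_mem_mul hx (prod_mem_prod M h _ fun j _ => (hh j).1)
    have hchart' : (chart O Mt m).toSubring = Subring.closure (DS M h) := by
      rw [hchart, hA, Algebra.adjoin_eq_ring_closure]
      rfl
    have hMW : ∀ x ∈ Mt, x / m ∈ W := by
      intro x hx
      have h3 : x / m ∈ A := prod_div_mem M h A Finset.univ (fun i _ => hAm i) x hx
      have h4 : A.toSubring ≤ W.toSubring := by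
        rw [hA, Algebra.adjoin_eq_ring_closure, Subring.closure_le]
        rintro _ (⟨o, rfl⟩ | ⟨i, x, hx, rfl⟩)
        · exact hOW o
        · exact (hh i).2.2 x hx
      exact h4 h3
    have hcW : (chart O Mt m).toSubring ≤ W.toSubring := chart_le_V hOW hMW
    set Q := lo W.toSubring (chart O Mt m).toSubring with hQdef
    obtain ⟨hreg, hI⟩ := hQ Q (by rw [hQdef, hchart'])
    have hQW : Q ≤ W.toSubring := lo_le hcW
    have hAQ : ∀ x ∈ A, x ∈ Q := by
      intro x hx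
      refine le_lo _ _ ?_
      rw [hchart]
      exact hx
    have hloQ : IsLocalRing Q := hreg.toIsLocalRing
    set 𝔞 : Ideal Q := Ideal.span {y : Q | ∃ n ∈ PI M N, (y : K) = n / m} with h𝔞
    have h𝔞' : 𝔞 = Ideal.span {y : Q | ∃ i, ∃ n ∈ N i, (y : K) = n / h i} := by
      apply le_antisymm
      · rw [h𝔞, Ideal.span_le]
        rintro y ⟨n, hn, hy⟩
        have key : ∀ n ∈ PI M N, Im (Ideal.span {y : Q | ∃ i, ∃ n ∈ N i, (y : K) = n / h i})
            (n / m) := by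
          refine PI_ind ?_ ?_ ?_
          · rw [zero_div]; exact Im.zero
          · intro x y hx hy
            rw [add_div]; exact hx.add hy
          · intro i x hx y hy
            have h3 : x * y / m = (y / ∏ j ∈ Finset.univ.erase i, h j) * (x / h i) := by
              rw [hmi i, div_mul_div_comm, mul_comm x y, mul_comm (h i)]
            rw [h3]
            refine Im.mul_left (hAQ _ ?_) ?_
            · exact prod_div_mem M h A _ (fun i _ => hAm i) y hy
            · exact ⟨⟨x / h i, hAQ _ (hAm i x (hNM i hx))⟩, Ideal.subset_span ⟨i, x, hx, rfl⟩, rfl⟩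
        have h4 := key n hn
        rw [← hy] at h4
        exact h4.mk y.2
      · rw [Ideal.span_le]
        rintro y ⟨i, n, hn, hy⟩
        refine Ideal.subset_span ⟨n * ∏ j ∈ Finset.univ.erase i, h j, ?_, by
          rw [hy, hsplit i n]⟩
        exact (le_iSup (fun i => N i * ∏ j ∈ Finset.univ.erase i, M j) i)
          (Submodule.mul_mem_mul hn (prod_mem_prod M h _ fun j _ => (hh j).1))
    obtain ⟨hI1, hI2⟩ := hI 𝔞 h𝔞'
    refine ⟨m, hmM, hm0, hMW, ?_⟩
    refine cond_of hQW (ic_lo hcW) hreg ?_ ?_ hm0 h𝔞 hσ ?_ ?_ ?_ ?_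
    · intro n hn
      exact hAQ _ (prod_div_mem M h A Finset.univ (fun i _ => hAm i) n (hle hn))
    · refine ⟨n₀ i₀, (le_iSup (fun i => N i * ∏ j ∈ Finset.univ.erase i, M j) i₀) ?_, hn₀0 i₀⟩
      rw [← mul_one (n₀ i₀)]
      refine Submodule.mul_mem_mul (hn₀ i₀) ?_
      have h2 := prod_mem_prod M (fun _ => (1 : K)) (Finset.univ.erase i₀) fun i _ => h1 i
      rwa [Finset.prod_const_one] at h2
    · by_contra hcon
      push Not at hcon
      obtain ⟨x, hx, hxσ⟩ := hne'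
      apply hxσ
      have h2 : x = (x / m) / (1 / m) := by
        field_simp
      have h3 : ∀ y ∈ Mt, σ (y / m) = y / m := fun y hy =>
        hcon _ (hAQ _ (prod_div_mem M h A Finset.univ (fun i _ => hAm i) y hy))
      rw [h2, map_div₀, h3 x hx, h3 1 h1t]
    · by_cases h3 : 𝔞 = ⊤
      · exact Or.inl h3
      · right
        rw [hI1 h3]
        exact inferInstanceAs (IsRegularLocalRing (ResidueField Q))
    · intro h3 h4 h5
      exact absurd h5 (hI2 h3 h4).1
    · intro h3 h4 _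
      exact (hI2 h3 h4).2

end Pool.Agent.X269.KP
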